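import Mathlib

/-! Divisibility by powers of `p` in the local ring of a prime ideal. -/

set_option autoImplicit false
set_option linter.all false

namespace Pool.Agent.W528.Ord

open NumberField

section loc

variable {B : Type*} [CommRing B]

/-- `p ^ m` divides `x` in the local ring of the prime ideal `Q` -/
def LocDvd (Q : Ideal B) (p m : ℕ) (x : B) : Prop := ∃ s : B, s ∉ Q ∧ (p : B) ^ m ∣ s * x

/-- `x` is `p ^ m` times a unit of the local ring of the prime ideal `Q` -/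
def LocEq (Q : Ideal B) (p m : ℕ) (x : B) : Prop :=
  ∃ s t : B, s ∉ Q ∧ t ∉ Q ∧ s * x = t * (p : B) ^ m

theorem LocDvd.zero {Q : Ideal B} [hQ : Q.IsPrime] (p : ℕ) (x : B) : LocDvd Q p 0 x :=
  ⟨1, fun h => hQ.ne_top ((Ideal.eq_top_iff_one _).mpr h), by rw [pow_zero]; exact one_dvd _⟩

theorem LocDvd.mul {Q : Ideal B} [hQ : Q.IsPrime] {p m m' : ℕ} {x y : B} (hx : LocDvd Q p m x)
    (hy : LocDvd Q p m' y) : LocDvd Q p (m + m') (x * y) := by
  obtain ⟨s, hs, hsx⟩ := hx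
  obtain ⟨t, ht, hty⟩ := hy
  refine ⟨s * t, fun h => (hQ.mem_or_mem h).elim hs ht, ?_⟩
  rw [pow_add, mul_mul_mul_comm]
  exact mul_dvd_mul hsx hty

theorem LocDvd.prod {Q : Ideal B} [hQ : Q.IsPrime] {p : ℕ} {ι : Type*} (s : Finset ι) (m : ι → ℕ)
    (x : ι → B) (h : ∀ i ∈ s, LocDvd Q p (m i) (x i)) : LocDvd Q p (∑ i ∈ s, m i) (∏ i ∈ s, x i) := by
  classical
  induction s using Finset.induction_on with
  | empty => exact LocDvd.zero p _
  | insert a s ha ih =>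
    rw [Finset.sum_insert ha, Finset.prod_insert ha]
    exact (h a (Finset.mem_insert_self a s)).mul (ih fun i hi => h i (Finset.mem_insert_of_mem hi))

theorem LocDvd.mono {Q : Ideal B} {p m m' : ℕ} {x : B} (hx : LocDvd Q p m x) (h : m' ≤ m) :
    LocDvd Q p m' x := by
  obtain ⟨s, hs, hsx⟩ := hx
  exact ⟨s, hs, (pow_dvd_pow _ h).trans hsx⟩

theorem LocEq.dvd {Q : Ideal B} {p m : ℕ} {x : B} (h : LocEq Q p m x) : LocDvd Q p m x := by
  obtain ⟨s, t, hs, ht, e⟩ := h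
  exact ⟨s, hs, e ▸ Dvd.intro_left t rfl⟩

theorem LocEq.mul {Q : Ideal B} [hQ : Q.IsPrime] {p m m' : ℕ} {x y : B} (hx : LocEq Q p m x)
    (hy : LocEq Q p m' y) : LocEq Q p (m + m') (x * y) := by
  obtain ⟨s, t, hs, ht, e⟩ := hx
  obtain ⟨s', t', hs', ht', e'⟩ := hy
  refine ⟨s * s', t * t', fun h => (hQ.mem_or_mem h).elim hs hs',
    fun h => (hQ.mem_or_mem h).elim ht ht', ?_⟩
  rw [pow_add, mul_mul_mul_comm, e, e', mul_mul_mul_comm]

theorem LocEq.one {Q : Ideal B} [hQ : Q.IsPrime] (p : ℕ) : LocEq Q p 0 (1 : B) := by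
  have h1 : (1 : B) ∉ Q := fun h => hQ.ne_top ((Ideal.eq_top_iff_one _).mpr h)
  exact ⟨1, 1, h1, h1, by rw [pow_zero]⟩

theorem LocEq.neg {Q : Ideal B} {p m : ℕ} {x : B} (h : LocEq Q p m x) : LocEq Q p m (-x) := by
  obtain ⟨s, t, hs, ht, e⟩ := h
  exact ⟨s, -t, hs, fun h' => ht (by simpa using Q.neg_mem h'), by rw [mul_neg, e, neg_mul]⟩

theorem LocEq.pow {Q : Ideal B} [hQ : Q.IsPrime] {p m : ℕ} {x : B} (hx : LocEq Q p m x) (j : ℕ) :
    LocEq Q p (j * m) (x ^ j) := by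
  induction j with
  | zero => rw [pow_zero, zero_mul]; exact LocEq.one p
  | succ j ih => rw [pow_succ, add_mul, one_mul]; exact ih.mul hx

variable [IsDomain B] [CharZero B]

theorem LocDvd.int {Q : Ideal B} [hQ : Q.IsPrime] {p : ℕ} (hp : p.Prime) (hpQ : (p : B) ∈ Q) {M : ℕ}
    {N : ℤ} (h : LocDvd Q p M (N : B)) : (p : ℤ) ^ M ∣ N := by
  obtain ⟨s, hs, y, hy⟩ := h
  by_cases hN : N = 0
  · rw [hN]; exact dvd_zero _
  haveI : Fact p.Prime := ⟨hp⟩
  have hp0 : (p : B) ≠ 0 := by exact_mod_cast hp.ne_zero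
  obtain ⟨m, N', hN', e⟩ : ∃ (m : ℕ) (N' : ℤ), ¬ (p : ℤ) ∣ N' ∧ N = (p : ℤ) ^ m * N' := by
    have hfin : FiniteMultiplicity (p : ℤ) N := by
      rw [Int.finiteMultiplicity_iff]
      exact ⟨by simpa using hp.ne_one, hN⟩
    obtain ⟨c, hc, hc'⟩ := hfin.exists_eq_pow_mul_and_not_dvd
    exact ⟨_, c, hc', hc⟩
  by_contra hcon
  have hmM : m < M := by
    by_contra hle
    apply hcon
    rw [e]
    exact (pow_dvd_pow _ (not_lt.mp hle)).mul_right N'
  have h1 : (p : B) ^ m * (s * (N' : B) - (p : B) ^ (M - m) * y) = 0 := by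
    have e1 : (p : B) ^ M = (p : B) ^ m * (p : B) ^ (M - m) := by
      rw [← pow_add]; congr 1; omega
    rw [e, e1] at hy
    push_cast at hy
    linear_combination hy
  have h2 : s * (N' : B) = (p : B) ^ (M - m) * y := by
    rcases mul_eq_zero.mp h1 with h | h
    · exact absurd h (pow_ne_zero _ hp0)
    · exact sub_eq_zero.mp h
  have h3 : s * (N' : B) ∈ Q := by
    rw [h2]
    apply Q.mul_mem_right
    obtain ⟨j, hj⟩ : ∃ j, M - m = j + 1 := ⟨M - m - 1, by omega⟩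
    rw [hj, pow_succ]
    exact Q.mul_mem_left _ hpQ
  have h4 : (N' : B) ∈ Q := (hQ.mem_or_mem h3).resolve_left hs
  have h5 : IsCoprime (p : ℤ) N' := by
    rw [Int.isCoprime_iff_gcd_eq_one]
    have := (Nat.Prime.coprime_iff_not_dvd hp (n := N'.natAbs)).mpr (by
      intro h; exact hN' (by exact_mod_cast Int.natCast_dvd.mpr h))
    simpa [Int.gcd] using this
  obtain ⟨a, b, hab⟩ := h5
  have h6 : (1 : B) ∈ Q := by
    have : (a : B) * (p : B) + (b : B) * (N' : B) = 1 := by exact_mod_cast congrArg (Int.cast : ℤ → B) hab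
    rw [← this]
    exact Q.add_mem (Q.mul_mem_left _ hpQ) (Q.mul_mem_left _ h4)
  exact hQ.ne_top ((Ideal.eq_top_iff_one _).mpr h6)

/-- cancellation -/
theorem LocDvd.of_mul {Q : Ideal B} [hQ : Q.IsPrime] {p : ℕ} (hp : p.Prime) {m m' : ℕ}
    {x y : B} (hx : LocEq Q p m x) (hxy : LocDvd Q p (m + m') (x * y)) : LocDvd Q p m' y := by
  obtain ⟨s, t, hs, ht, e⟩ := hx
  obtain ⟨u, hu, z, hz⟩ := hxy
  have hp0 : (p : B) ≠ 0 := by exact_mod_cast hp.ne_zero
  refine ⟨u * t, fun h => (hQ.mem_or_mem h).elim hu ht, s * z, ?_⟩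
  have h1 : (p : B) ^ m * (u * t * y - (p : B) ^ m' * (s * z)) = 0 := by
    rw [pow_add] at hz
    linear_combination (-(u * y)) * e + s * hz
  rcases mul_eq_zero.mp h1 with h | h
  · exact absurd h (pow_ne_zero _ hp0)
  · exact sub_eq_zero.mp h

theorem LocEq.not_succ {Q : Ideal B} [hQ : Q.IsPrime] {p : ℕ} (hp : p.Prime) (hpQ : (p : B) ∈ Q)
    {m : ℕ} {x : B} (hx : LocEq Q p m x) : ¬ LocDvd Q p (m + 1) x := by
  intro h
  have h1 : LocDvd Q p 1 (1 : B) := by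
    apply LocDvd.of_mul hp hx
    rwa [mul_one]
  obtain ⟨s, hs, h⟩ := h1
  rw [pow_one, mul_one] at h
  exact hs (Q.mem_of_dvd h hpQ)

theorem LocEq.lt_of_dvd {Q : Ideal B} [hQ : Q.IsPrime] {p : ℕ} (hp : p.Prime) (hpQ : (p : B) ∈ Q)
    {m m' : ℕ} {x : B} (hx : LocEq Q p m x) (h : LocDvd Q p m' x) : m' ≤ m := by
  by_contra hlt
  exact hx.not_succ hp hpQ (h.mono (by omega))

theorem LocEq.unique {Q : Ideal B} [hQ : Q.IsPrime] {p : ℕ} (hp : p.Prime) (hpQ : (p : B) ∈ Q)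
    {m m' : ℕ} {x : B} (hx : LocEq Q p m x) (hx' : LocEq Q p m' x) : m = m' :=
  le_antisymm (hx'.lt_of_dvd hp hpQ hx.dvd) (hx.lt_of_dvd hp hpQ hx'.dvd)

end loc

section unram

/-- at a prime where `p` is a uniformizer, every element is `p ^ m` times a unit -/
theorem exists_pow {R : Type*} [CommRing R] [IsDomain R] [IsDedekindDomain R] (𝔭 : Ideal R)
    [h𝔭 : 𝔭.IsPrime] (p : ℕ) (hp0 : (p : R) ≠ 0) (hp : (p : R) ∈ 𝔭) (hp2 : (p : R) ∉ 𝔭 ^ 2) (x : R) (hx : x ≠ 0) :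
    ∃ m : ℕ, LocEq 𝔭 p m x := by
  classical
  have hbot : 𝔭 ≠ ⊥ := by
    rintro rfl
    exact hp0 hp
  haveI hmax : 𝔭.IsMaximal := h𝔭.isMaximal hbot
  let S := Localization.AtPrime 𝔭
  haveI : IsDiscreteValuationRing S :=
    IsLocalization.AtPrime.isDiscreteValuationRing_of_dedekind_domain R hbot S
  have hinj : Function.Injective (algebraMap R S) :=
    IsLocalization.injective S 𝔭.primeCompl_le_nonZeroDivisors
  obtain ⟨ϖ, hϖ⟩ := IsDiscreteValuationRing.exists_irreducible S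
  have hp0' : algebraMap R S p ≠ 0 := fun h => hp0 (hinj (by rw [h, map_zero]))
  obtain ⟨j, hj⟩ := IsDiscreteValuationRing.associated_pow_irreducible hp0' hϖ
  have hpm : algebraMap R S p ∈ IsLocalRing.maximalIdeal S :=
    (IsLocalization.AtPrime.to_map_mem_maximal_iff S 𝔭 (p : R)).mpr hp
  have hj1 : j = 1 := by
    rcases Nat.lt_trichotomy j 1 with h | h | h
    · exfalso
      have : j = 0 := by omega
      rw [this, pow_zero] at hj
      have : IsUnit (algebraMap R S p) := hj.symm.isUnit isUnit_one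
      exact (IsLocalRing.mem_maximalIdeal _).mp hpm this
    · exact h
    · exfalso
      have h1 : algebraMap R S p ∈ (IsLocalRing.maximalIdeal S) ^ 2 := by
        obtain ⟨u, hu⟩ := hj.symm
        rw [← hu]
        apply Ideal.mul_mem_right
        have hϖm : ϖ ∈ IsLocalRing.maximalIdeal S := (IsLocalRing.mem_maximalIdeal _).mpr hϖ.not_isUnit
        exact Ideal.pow_le_pow_right h (Ideal.pow_mem_pow hϖm j)
      rw [← IsLocalization.AtPrime.map_eq_maximalIdeal 𝔭 S, ← Ideal.map_pow,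
        IsLocalization.algebraMap_mem_map_algebraMap_iff 𝔭.primeCompl] at h1
      obtain ⟨s, hs, hs2⟩ := h1
      -- s is invertible modulo 𝔭 ^ 2
      have hcop : IsCoprime (Ideal.span {s}) (𝔭 ^ 2) := by
        apply IsCoprime.pow_right
        rw [Ideal.isCoprime_iff_sup_eq]
        exact hmax.out.2 _ (lt_of_le_of_ne le_sup_right (fun h => hs (by
          rw [h]; exact Ideal.mem_sup_left (Ideal.mem_span_singleton_self s))))
      obtain ⟨a, ha, b, hb, hab⟩ := Ideal.isCoprime_iff_exists.mp hcop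
      obtain ⟨c, rfl⟩ := Ideal.mem_span_singleton'.mp ha
      apply hp2
      have : (p : R) = c * (s * p) + b * p := by
        linear_combination (-(p : R)) * hab
      rw [this]
      exact Ideal.add_mem _ (Ideal.mul_mem_left _ _ hs2) (Ideal.mul_mem_right _ _ hb)
  rw [hj1, pow_one] at hj
  have hpirr : Irreducible (algebraMap R S p) := hj.symm.irreducible hϖ
  have hx' : algebraMap R S x ≠ 0 := fun h => hx (hinj (by rw [h, map_zero]))
  obtain ⟨m, u, hu⟩ := IsDiscreteValuationRing.associated_pow_irreducible hx' hpirr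
  refine ⟨m, ?_⟩
  obtain ⟨a, b, hab⟩ := IsLocalization.exists_mk'_eq 𝔭.primeCompl (u : S)
  have hau : IsUnit (IsLocalization.mk' S a b) := hab ▸ u.isUnit
  have ha : a ∉ 𝔭 := by
    intro ha
    have := (IsLocalization.AtPrime.isUnit_mk'_iff S 𝔭 a b).mp hau
    exact this ha
  refine ⟨a, b, ha, b.2, hinj ?_⟩
  rw [map_mul, map_mul, map_pow, ← hu, ← hab]
  have := IsLocalization.mk'_spec S a b
  linear_combination (-(algebraMap R S x)) * this

variable {E L : Type*} [Field E] [NumberField E] [Field L] [CharZero L]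

theorem locEq_map {A B : Type*} [CommRing A] [CommRing B] (f : A →+* B) (Q : Ideal B) {p m : ℕ} {x : A}
    (h : LocEq (Q.comap f) p m x) : LocEq Q p m (f x) := by
  obtain ⟨s, t, hs, ht, e⟩ := h
  refine ⟨f s, f t, hs, ht, ?_⟩
  have := congrArg f e
  rw [map_mul, map_mul, map_pow, map_natCast] at this
  exact this

theorem exists_locEq (σ : E →+* L) (Q : Ideal (𝓞 L)) [hQ : Q.IsPrime] (p : ℕ) (hp : p.Prime)
    (hpQ : (p : 𝓞 L) ∈ Q)
    (hunr : ∀ 𝔭 : Ideal (𝓞 E), 𝔭.IsPrime → (p : 𝓞 E) ∈ 𝔭 → (p : 𝓞 E) ∉ 𝔭 ^ 2)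
    (x : 𝓞 E) (hx : x ≠ 0) : ∃ m : ℕ, LocEq Q p m (RingOfIntegers.mapRingHom σ x) := by
  set f := RingOfIntegers.mapRingHom σ with hf
  haveI : (Q.comap f).IsPrime := Ideal.comap_isPrime f Q
  have hpm : (p : 𝓞 E) ∈ Q.comap f := by
    rw [Ideal.mem_comap, map_natCast]; exact hpQ
  have hp0 : (p : 𝓞 E) ≠ 0 := by exact_mod_cast hp.ne_zero
  obtain ⟨m, hm⟩ := exists_pow (Q.comap f) p hp0 hpm (hunr _ inferInstance hpm) x hx
  exact ⟨m, locEq_map f Q hm⟩

theorem mapRingHom_inj (σ : E →+* L) : Function.Injective (RingOfIntegers.mapRingHom σ) := by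
  intro x y h
  apply RingOfIntegers.ext
  have := congrArg (fun z : 𝓞 L => (z : L)) h
  exact σ.injective this

/-- either the valuation is exactly `m` or it is at least `m + 1` -/
theorem dichotomy (σ : E →+* L) (Q : Ideal (𝓞 L)) [hQ : Q.IsPrime] (p : ℕ) (hp : p.Prime)
    (hpQ : (p : 𝓞 L) ∈ Q)
    (hunr : ∀ 𝔭 : Ideal (𝓞 E), 𝔭.IsPrime → (p : 𝓞 E) ∈ 𝔭 → (p : 𝓞 E) ∉ 𝔭 ^ 2)
    (x : 𝓞 E) (m : ℕ) (h : LocDvd Q p m (RingOfIntegers.mapRingHom σ x))
    (hne : ¬ LocEq Q p m (RingOfIntegers.mapRingHom σ x)) :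
    LocDvd Q p (m + 1) (RingOfIntegers.mapRingHom σ x) := by
  by_cases hx : x = 0
  · rw [hx, map_zero]
    exact ⟨1, fun h => hQ.ne_top ((Ideal.eq_top_iff_one _).mpr h), by rw [mul_zero]; exact dvd_zero _⟩
  obtain ⟨m', hm'⟩ := exists_locEq σ Q p hp hpQ hunr x hx
  have h1 : m ≤ m' := hm'.lt_of_dvd hp hpQ h
  have h2 : m ≠ m' := by rintro rfl; exact hne hm'
  exact hm'.dvd.mono (by omega)

end unram

end Pool.Agent.W528.Ord
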