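import Pool.Agent.W528.Ord.Engine
import Pool.Agent.W528.Ord.Loc

/-! Abelian varieties with real or complex multiplication: Frobenius polynomials, `ℓ`-adic
representations, and the orbit condition. -/

set_option autoImplicit false
set_option linter.all false

namespace Pool.Agent.W528.Ord

open NumberField IsDedekindDomain Polynomial
open Pool.Agent.W401.Cheb

/-- Data attached to an abelian variety over the number field `K` with multiplication by the totally
real field or CM field `E` (endomorphisms defined over `K`). -/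
structure MultSystem (K : Type) [Field K] [NumberField K] (ℓ : ℕ) [Fact ℓ.Prime] where
  /-- the field of multiplications -/
  E : Type
  [fieldE : Field E]
  [numberFieldE : NumberField E]
  /-- complex conjugation of `E` (the identity if `E` is totally real) -/
  conj : E ≃+* E
  /-- the rank of the Tate module over `E` -/
  n : ℕ
  /-- the signature: `r σ` is the multiplicity of the Hodge number `0` in the `σ`-part -/
  r : (E →+* AlgebraicClosure K) → ℕ
  /-- the characteristic polynomials of Frobenius on the Tate module, over the integers of `E` -/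
  P : HeightOneSpectrum (𝓞 K) → Polynomial (𝓞 E)
  /-- the `τ`-parts of the `ℓ`-adic representation -/
  ρ : (E →+* PadicAlgCl ℓ) → GK K →* Matrix.GeneralLinearGroup (Fin n) (PadicAlgCl ℓ)

attribute [instance] MultSystem.fieldE MultSystem.numberFieldE

namespace MultSystem

variable {K : Type} [Field K] [NumberField K] {ℓ : ℕ} [Fact ℓ.Prime]

/-- the Galois group acts on embeddings by composition -/
noncomputable def mv {E : Type} [Field E] (γ : GK K) (σ : E →+* AlgebraicClosure K) :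
    E →+* AlgebraicClosure K := (γ.toAlgHom.toRingHom).comp σ

/-- the `k`-th coefficient of the Frobenius polynomial of `v` under the embedding `σ`, an algebraic
integer -/
noncomputable def cof (A : MultSystem K ℓ) (v : HeightOneSpectrum (𝓞 K)) (k : ℕ)
    (σ : A.E →+* AlgebraicClosure K) : 𝓞 (AlgebraicClosure K) :=
  RingOfIntegers.mapRingHom σ ((A.P v).coeff k)

/-- the orbit of `σ₀` under the powers of `γ`; if the signature at `σ₀` is `(n/2, n/2)` the orbit of
the complex conjugate of `σ₀` is added -/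
def orb (A : MultSystem K ℓ) (γ : GK K) (σ₀ : A.E →+* AlgebraicClosure K) :
    Set (A.E →+* AlgebraicClosure K) :=
  {σ | ∃ j : ℕ, σ = mv (γ ^ j) σ₀ ∨
    (2 * A.r σ₀ = A.n ∧ σ = mv (γ ^ j) (σ₀.comp (A.conj : A.E →+* A.E)))}

/-- twice the total defect at `σ₀`: the sum over all embeddings `σ` of `k - 2 max (0, k - r σ)`, where
`k = r σ₀` -/
noncomputable def defect (A : MultSystem K ℓ) (σ₀ : A.E →+* AlgebraicClosure K) : ℤ :=
  ∑ σ : A.E →+* AlgebraicClosure K, ((A.r σ₀ : ℤ) - 2 * ((A.r σ₀ - A.r σ : ℕ) : ℤ))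

/-- the orbit condition: for every `σ₀` with indefinite signature the total defect is at most the
number of elements of the orbit -/
def Admissible (A : MultSystem K ℓ) (γ : GK K) : Prop :=
  ∀ σ₀ : A.E →+* AlgebraicClosure K, 0 < A.r σ₀ → A.r σ₀ < A.n →
    A.defect σ₀ ≤ 2 * ((A.orb γ σ₀).ncard : ℤ)

/-- `v` is a place of degree one whose residue characteristic is not in `S` -/
def IsDeg1 (S : Finset ℕ) (v : HeightOneSpectrum (𝓞 K)) : Prop :=
  (Ideal.absNorm v.asIdeal).Prime ∧ Ideal.absNorm v.asIdeal ∉ S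

/-- `Q` is a maximal ideal above `v` of the ring of all algebraic integers -/
def IsOver (Q : Ideal (𝓞 (AlgebraicClosure K))) (v : HeightOneSpectrum (𝓞 K)) : Prop :=
  Q.IsMaximal ∧ Q.comap (algebraMap (𝓞 K) (𝓞 (AlgebraicClosure K))) = v.asIdeal

/-- the Frobenius polynomial of `v` under the embedding `τ` of `E` into a field `L` -/
noncomputable def poly (A : MultSystem K ℓ) {L : Type} [Field L] (v : HeightOneSpectrum (𝓞 K))
    (τ : A.E →+* L) : Polynomial L :=
  (A.P v).map (τ.comp (algebraMap (𝓞 A.E) A.E))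

/-- `conj` is complex conjugation: `E` is totally real or a CM field -/
def IsConj (A : MultSystem K ℓ) : Prop :=
  ∀ (τ : A.E →+* ℂ) (x : A.E), τ (A.conj x) = starRingEnd ℂ (τ x)

/-- `S` contains the primes which ramify in `E` -/
def Unram (A : MultSystem K ℓ) (S : Finset ℕ) : Prop :=
  ∀ p : ℕ, p.Prime → p ∉ S → ∀ 𝔭 : Ideal (𝓞 A.E), 𝔭.IsPrime → (p : 𝓞 A.E) ∈ 𝔭 →
    (p : 𝓞 A.E) ∉ 𝔭 ^ 2

/-- the Frobenius polynomials are monic of degree `n` -/
def IsMonic (A : MultSystem K ℓ) (S : Finset ℕ) : Prop :=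
  ∀ v : HeightOneSpectrum (𝓞 K), IsDeg1 S v → (A.P v).Monic ∧ (A.P v).natDegree = A.n

/-- Weil: the complex absolute values of the Frobenius eigenvalues are `(N v) ^ (1 / 2)` -/
def Weil (A : MultSystem K ℓ) (S : Finset ℕ) : Prop :=
  ∀ v : HeightOneSpectrum (𝓞 K), IsDeg1 S v → ∀ (τ : A.E →+* ℂ) (α : ℂ),
    (A.poly v τ).IsRoot α → ‖α‖ ^ 2 = (Ideal.absNorm v.asIdeal : ℝ)

/-- Mazur: the Newton polygon of the `σ`-part lies above its Hodge polygon (slope `0` with multiplicity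
`r σ`, slope `1` with multiplicity `n - r σ`), and has the same end point -/
def Mazur (A : MultSystem K ℓ) (S : Finset ℕ) : Prop :=
  ∀ v : HeightOneSpectrum (𝓞 K), IsDeg1 S v → ∀ Q : Ideal (𝓞 (AlgebraicClosure K)), IsOver Q v →
    ∀ σ : A.E →+* AlgebraicClosure K,
      (∀ k ≤ A.n, LocDvd Q (Ideal.absNorm v.asIdeal) (k - A.r σ) (A.cof v (A.n - k) σ)) ∧
      LocEq Q (Ideal.absNorm v.asIdeal) (A.n - A.r σ) (A.cof v 0 σ)

/-- the representations `ρ τ` and the character `χ` are continuous -/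
def IsCont (A : MultSystem K ℓ) (χ : GK K →* (PadicAlgCl ℓ)ˣ) : Prop :=
  (∀ (τ : A.E →+* PadicAlgCl ℓ) (i j : Fin A.n),
    Continuous fun g : GK K => (A.ρ τ g : Matrix (Fin A.n) (Fin A.n) (PadicAlgCl ℓ)) i j) ∧
  Continuous fun g : GK K => (χ g : PadicAlgCl ℓ)

/-- the Frobenius elements at `v` have characteristic polynomials `P v` and `χ = N v` -/
def Compat (A : MultSystem K ℓ) (χ : GK K →* (PadicAlgCl ℓ)ˣ) (S : Finset ℕ) : Prop :=
  ∀ v : HeightOneSpectrum (𝓞 K), IsDeg1 S v → ∀ γ : GK K, IsFrob v γ →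
    (χ γ : PadicAlgCl ℓ) = (Ideal.absNorm v.asIdeal : PadicAlgCl ℓ) ∧
    ∀ τ : A.E →+* PadicAlgCl ℓ,
      (A.ρ τ γ : Matrix (Fin A.n) (Fin A.n) (PadicAlgCl ℓ)).charpoly = A.poly v τ

/-- The properties of the system of Galois representations of an abelian variety with multiplication by
`E` over `K`, at the places of degree one outside a finite set of residue characteristics `S`;
`χ` is the cyclotomic character. -/
structure IsAbelian (A : MultSystem K ℓ) (χ : GK K →* (PadicAlgCl ℓ)ˣ) (S : Finset ℕ) : Prop where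
  isConj : A.IsConj
  r_le : ∀ σ, A.r σ ≤ A.n
  /-- the Lie algebra is defined over `K` -/
  r_inv : ∀ (γ : GK K) (σ : A.E →+* AlgebraicClosure K), A.r (mv γ σ) = A.r σ
  isUnram : A.Unram S
  isMonic : A.IsMonic S
  isWeil : A.Weil S
  isMazur : A.Mazur S
  isCont : A.IsCont χ
  isCompat : A.Compat χ S
  /-- the Zariski closure of the image of the Galois group is connected -/
  connected : ConnectedMonodromy A.ρ χ

section access

variable {A : MultSystem K ℓ} {χ : GK K →* (PadicAlgCl ℓ)ˣ} {S : Finset ℕ} (h : A.IsAbelian χ S)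

include h

theorem IsAbelian.conj_eq (τ : A.E →+* ℂ) (x : A.E) : τ (A.conj x) = starRingEnd ℂ (τ x) :=
  h.isConj τ x

theorem IsAbelian.unram (p : ℕ) (hp : p.Prime) (hpS : p ∉ S) : ∀ 𝔭 : Ideal (𝓞 A.E), 𝔭.IsPrime →
    (p : 𝓞 A.E) ∈ 𝔭 → (p : 𝓞 A.E) ∉ 𝔭 ^ 2 := h.isUnram p hp hpS

theorem IsAbelian.monic (v : HeightOneSpectrum (𝓞 K)) (hv : (Ideal.absNorm v.asIdeal).Prime)
    (hvS : Ideal.absNorm v.asIdeal ∉ S) : (A.P v).Monic ∧ (A.P v).natDegree = A.n :=
  h.isMonic v ⟨hv, hvS⟩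

theorem IsAbelian.weil (v : HeightOneSpectrum (𝓞 K)) (hv : (Ideal.absNorm v.asIdeal).Prime)
    (hvS : Ideal.absNorm v.asIdeal ∉ S) (τ : A.E →+* ℂ) (α : ℂ)
    (hα : ((A.P v).map (τ.comp (algebraMap (𝓞 A.E) A.E))).IsRoot α) :
    ‖α‖ ^ 2 = (Ideal.absNorm v.asIdeal : ℝ) := h.isWeil v ⟨hv, hvS⟩ τ α hα

theorem IsAbelian.mazur (v : HeightOneSpectrum (𝓞 K)) (hv : (Ideal.absNorm v.asIdeal).Prime)
    (hvS : Ideal.absNorm v.asIdeal ∉ S) (Q : Ideal (𝓞 (AlgebraicClosure K))) (hQ : Q.IsMaximal)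
    (hQv : Q.comap (algebraMap (𝓞 K) (𝓞 (AlgebraicClosure K))) = v.asIdeal)
    (σ : A.E →+* AlgebraicClosure K) :
      (∀ k ≤ A.n, LocDvd Q (Ideal.absNorm v.asIdeal) (k - A.r σ) (A.cof v (A.n - k) σ)) ∧
      LocEq Q (Ideal.absNorm v.asIdeal) (A.n - A.r σ) (A.cof v 0 σ) :=
  h.isMazur v ⟨hv, hvS⟩ Q ⟨hQ, hQv⟩ σ

theorem IsAbelian.cont (τ : A.E →+* PadicAlgCl ℓ) (i j : Fin A.n) :
    Continuous fun g : GK K => (A.ρ τ g : Matrix (Fin A.n) (Fin A.n) (PadicAlgCl ℓ)) i j :=
  h.isCont.1 τ i j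

theorem IsAbelian.contχ : Continuous fun g : GK K => (χ g : PadicAlgCl ℓ) := h.isCont.2

theorem IsAbelian.frob (v : HeightOneSpectrum (𝓞 K)) (hv : (Ideal.absNorm v.asIdeal).Prime)
    (hvS : Ideal.absNorm v.asIdeal ∉ S) (γ : GK K) (hγ : IsFrob v γ) :
    (χ γ : PadicAlgCl ℓ) = (Ideal.absNorm v.asIdeal : PadicAlgCl ℓ) ∧
    ∀ τ : A.E →+* PadicAlgCl ℓ, (A.ρ τ γ : Matrix (Fin A.n) (Fin A.n) (PadicAlgCl ℓ)).charpoly =
      (A.P v).map (τ.comp (algebraMap (𝓞 A.E) A.E)) := h.isCompat v ⟨hv, hvS⟩ γ hγ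

end access

/-- the product of the powers of the Frobenius polynomials of the `A i` and their conjugates -/
noncomputable def prodPoly {ι : Type} [Fintype ι] (A : ι → MultSystem K ℓ) (m : ι → ℕ)
    (v : HeightOneSpectrum (𝓞 K)) : Polynomial (AlgebraicClosure K) :=
  ∏ i, ∏ σ : (A i).E →+* AlgebraicClosure K, (A i).poly v σ ^ m i

end MultSystem

end Pool.Agent.W528.Ord
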