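import Pool.Agent.W528.Ord.MotDown

/-! The Newton polygons for all primes `ℓ` and all embeddings of the field of algebraic numbers. -/

set_option autoImplicit false
set_option linter.all false

namespace Pool.Agent.W528.Ord

open NumberField IsDedekindDomain Polynomial Filter Topology
open Pool.Agent.W401.Cheb

/-- The eigenvalues of the `ℓ`-adic matrix `M` are algebraic numbers, and their absolute values under the
embedding `τ` of the field of algebraic numbers in `ℚ̄_ℓ` into `ℚ̄_p` are `p ^ (-a)`, with `a` in `H`,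
with multiplicity. -/
def NewtonTau {ℓ p : ℕ} [Fact ℓ.Prime] [Fact p.Prime] {r : ℕ} (M : Matrix (Fin r) (Fin r) ℚ_[ℓ])
    (τ : algebraicClosure ℚ (PadicAlgCl ℓ) →+* PadicAlgCl p) (H : Multiset ℕ) : Prop :=
  ∃ e : Multiset (algebraicClosure ℚ (PadicAlgCl ℓ)),
    e.map (algebraMap _ (PadicAlgCl ℓ)) = (M.charpoly.map (algebraMap ℚ_[ℓ] (PadicAlgCl ℓ))).roots ∧
    (e.map fun y => ‖τ y‖) = H.map fun a => (1 / (p : ℝ)) ^ a

theorem newtonTau_of {ℓ p : ℕ} [Fact ℓ.Prime] [hp : Fact p.Prime] {r : ℕ} (M : Matrix (Fin r) (Fin r) ℚ_[ℓ])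
    (τ : algebraicClosure ℚ (PadicAlgCl ℓ) →+* PadicAlgCl p) (H : Multiset ℕ) (F : Polynomial ℤ)
    (hM : M.charpoly = F.map (Int.castRingHom ℚ_[ℓ])) (hF : NewtonSlopes p F H) : NewtonTau M τ H := by
  obtain ⟨hp', hF⟩ := hF
  haveI : IsAlgClosed (algebraicClosure ℚ (PadicAlgCl ℓ)) :=
    (algebraicClosure.isAlgClosure ℚ (PadicAlgCl ℓ)).isAlgClosed
  refine ⟨(F.map (Int.castRingHom (algebraicClosure ℚ (PadicAlgCl ℓ)))).roots, ?_, ?_⟩
  · rw [← Splits.roots_map (IsAlgClosed.splits _), Polynomial.map_map, hM, Polynomial.map_map]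
    congr 2
  · rw [← hF]
    have : (F.map (Int.castRingHom (PadicAlgCl p))).roots =
        ((F.map (Int.castRingHom (algebraicClosure ℚ (PadicAlgCl ℓ)))).roots).map τ := by
      rw [← Splits.roots_map (IsAlgClosed.splits _), Polynomial.map_map]
      congr 2
      exact RingHom.ext_int _ _
    rw [this, Multiset.map_map]
    rfl

theorem lowerDensity_mono {K : Type} [Field K] [NumberField K] (P P' : HeightOneSpectrum (𝓞 K) → Prop)
    (h : ∀ v, P v → P' v) : lowerDensity P ≤ lowerDensity P' := by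
  unfold lowerDensity
  have hmono : ∀ N, ratio P N ≤ ratio P' N := by
    intro N
    unfold ratio
    apply div_le_div_of_nonneg_right _ (Nat.cast_nonneg _)
    have hsub : {v : HeightOneSpectrum (𝓞 K) | Ideal.absNorm v.asIdeal ≤ N ∧ P v} ⊆
        {v : HeightOneSpectrum (𝓞 K) | Ideal.absNorm v.asIdeal ≤ N ∧ P' v} := fun v hv => ⟨hv.1, h v hv.2⟩
    exact_mod_cast Set.ncard_le_ncard hsub
      ((Pool.Agent.W352.ChAbs.finite_le (K := K) N).subset (fun v hv => hv.1))
  have h1 : IsBoundedUnder (· ≥ ·) atTop (ratio P) := ⟨0, by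
      rw [eventually_map]
      exact Eventually.of_forall fun N => ratio_nonneg P N⟩
  have h2 : IsCoboundedUnder (· ≥ ·) atTop (ratio P') := IsBoundedUnder.isCoboundedUnder_ge ⟨1, by
      rw [eventually_map]
      exact Eventually.of_forall fun N => ratio_le_one P' N⟩
  exact liminf_le_liminf (Eventually.of_forall hmono) h1 h2

end Pool.Agent.W528.Ord
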