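import Mathlib

/-! Coefficients of polynomials whose roots have the same absolute value, and integers `N` with
`N ^ 2 = s p ^ e`. -/

set_option autoImplicit false
set_option linter.all false

namespace Pool.Agent.W528.Ord

open NumberField Polynomial

section complex

/-- equality in the triangle inequality -/
theorem eq_of_norm_sum {ι : Type*} (s : Finset ι) (z : ι → ℂ) (r : ℝ) (hz : ∀ i ∈ s, ‖z i‖ = r)
    (h : ‖∑ i ∈ s, z i‖ = s.card * r) : ∀ i ∈ s, ∀ j ∈ s, z i = z j := by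
  intro i hi j hj
  have hc : (0 : ℝ) < s.card := by exact_mod_cast Finset.card_pos.mpr ⟨i, hi⟩
  set S := ∑ i ∈ s, z i with hS
  set u : ℂ := S / (s.card : ℂ) with hu
  have hnu : ‖u‖ = r := by
    rw [hu, norm_div, h]
    simp only [Complex.norm_natCast]
    field_simp
  have hcC : (s.card : ℂ) ≠ 0 := by exact_mod_cast hc.ne'
  have hSu : S = (s.card : ℂ) * u := by
    rw [hu]
    field_simp
  have key : ∑ i ∈ s, ‖z i - u‖ ^ 2 = 0 := by
    have e1 : ∀ i ∈ s, ‖z i - u‖ ^ 2 = 2 * r ^ 2 - 2 * (z i * (starRingEnd ℂ) u).re := by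
      intro i hi
      rw [← Complex.normSq_eq_norm_sq, Complex.normSq_sub, Complex.normSq_eq_norm_sq,
        Complex.normSq_eq_norm_sq, hz i hi, hnu]
      ring
    have e2 : ∑ i ∈ s, 2 * (z i * (starRingEnd ℂ) u).re = 2 * (S * (starRingEnd ℂ) u).re := by
      rw [hS, Finset.sum_mul, Complex.re_sum, Finset.mul_sum]
    rw [Finset.sum_congr rfl e1, Finset.sum_sub_distrib, e2, hSu, mul_assoc, Complex.mul_conj,
      Complex.normSq_eq_norm_sq, hnu, Finset.sum_const, nsmul_eq_mul]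
    have : ((s.card : ℂ) * ((r ^ 2 : ℝ) : ℂ)).re = s.card * r ^ 2 := by
      rw [← Complex.ofReal_natCast, ← Complex.ofReal_mul, Complex.ofReal_re]
    rw [this]
    ring
  have h2 : ∀ i ∈ s, z i = u := by
    intro i hi
    have := (Finset.sum_eq_zero_iff_of_nonneg (fun i _ => by positivity)).mp key i hi
    have h3 : ‖z i - u‖ = 0 := by
      exact pow_eq_zero_iff (two_ne_zero) |>.mp this
    exact sub_eq_zero.mp (norm_eq_zero.mp h3)
  rw [h2 i hi, h2 j hj]

theorem exists_fin (Q : ℂ[X]) (n : ℕ) (hm : Q.Monic) (hn : Q.natDegree = n) :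
    ∃ r : Fin n → ℂ, Q = ∏ i, (X + C (r i)) := by
  have hsp := IsAlgClosed.splits Q
  have hcard : Multiset.card Q.roots = n := by rw [← hn]; exact (splits_iff_card_roots.mp hsp)
  obtain ⟨l, hl⟩ := Quot.exists_rep Q.roots
  have hlen : l.length = n := by
    rw [← hcard, ← hl]; rfl
  subst hlen
  refine ⟨fun i => - l.get i, ?_⟩
  have h1 : Q = (Q.roots.map fun a => X - C a).prod := by
    conv_lhs => rw [hsp.eq_prod_roots, hm.leadingCoeff, C_1, one_mul]
  rw [h1, ← hl]
  change (Multiset.map (fun a => X - C a) (l : Multiset ℂ)).prod = _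
  rw [Multiset.map_coe, Multiset.prod_coe, ← List.prod_ofFn]
  congr 1
  apply List.ext_get
  · simp
  · intro i h1 h2
    simp [sub_eq_add_neg]

theorem norm_coeff_sq_le (Q : ℂ[X]) (n k : ℕ) (hk : k ≤ n) (hm : Q.Monic) (hn : Q.natDegree = n)
    (q : ℝ) (hroot : ∀ a : ℂ, Q.IsRoot a → ‖a‖ ^ 2 = q) :
    ‖Q.coeff (n - k)‖ ^ 2 ≤ (n.choose k : ℝ) ^ 2 * q ^ k := by
  by_cases hn0 : n = 0
  · subst hn0
    have : k = 0 := by omega
    subst this
    have : Q = 1 := hm.natDegree_eq_zero.mp hn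
    rw [this]
    simp
  have hq : 0 ≤ q := by
    have hdeg : Q.degree ≠ 0 := by
      intro h
      rw [degree_eq_natDegree hm.ne_zero, hn] at h
      exact hn0 (by exact_mod_cast h)
    obtain ⟨a, ha⟩ := IsAlgClosed.exists_root Q hdeg
    rw [← hroot a ha]
    positivity
  obtain ⟨r, hr⟩ := exists_fin Q n hm hn
  have hri : ∀ i, ‖r i‖ = √q := by
    intro i
    have h1 : Q.IsRoot (- r i) := by
      rw [hr, IsRoot, eval_prod]
      exact Finset.prod_eq_zero (Finset.mem_univ i) (by simp)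
    have h2 := hroot _ h1
    rw [norm_neg] at h2
    rw [← h2, Real.sqrt_sq (norm_nonneg _)]
  have h1 : Q.coeff (n - k) = ∑ t ∈ (Finset.univ : Finset (Fin n)).powersetCard k, ∏ i ∈ t, r i := by
    conv_lhs => rw [hr]
    rw [Finset.prod_X_add_C_coeff _ _ (by simp)]
    congr 2
    simp
    omega
  have h2 : ‖Q.coeff (n - k)‖ ≤ (n.choose k : ℝ) * √q ^ k := by
    rw [h1]
    refine (norm_sum_le _ _).trans ?_
    have h3 : ∀ t ∈ (Finset.univ : Finset (Fin n)).powersetCard k, ‖∏ i ∈ t, r i‖ = √q ^ k := by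
      intro t ht
      rw [norm_prod, Finset.prod_congr rfl (fun i _ => hri i), Finset.prod_const,
        (Finset.mem_powersetCard.mp ht).2]
    rw [Finset.sum_congr rfl h3, Finset.sum_const, Finset.card_powersetCard, Finset.card_univ,
      Fintype.card_fin, nsmul_eq_mul]
  calc ‖Q.coeff (n - k)‖ ^ 2 ≤ ((n.choose k : ℝ) * √q ^ k) ^ 2 :=
        pow_le_pow_left₀ (norm_nonneg _) h2 2
    _ = (n.choose k : ℝ) ^ 2 * (√q ^ 2) ^ k := by ring
    _ = _ := by rw [Real.sq_sqrt hq]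

theorem scalar_of_norm_coeff (Q : ℂ[X]) (n k : ℕ) (hk0 : 0 < k) (hk : k < n) (hm : Q.Monic)
    (hn : Q.natDegree = n) (q : ℝ) (hq : 0 < q) (hroot : ∀ a : ℂ, Q.IsRoot a → ‖a‖ ^ 2 = q)
    (heq : ‖Q.coeff (n - k)‖ ^ 2 = (n.choose k : ℝ) ^ 2 * q ^ k) : ∃ a : ℂ, Q = (X - C a) ^ n := by
  classical
  obtain ⟨r, hr⟩ := exists_fin Q n hm hn
  have hri : ∀ i, ‖r i‖ = √q := by
    intro i
    have h1 : Q.IsRoot (- r i) := by
      rw [hr, IsRoot, eval_prod]
      exact Finset.prod_eq_zero (Finset.mem_univ i) (by simp)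
    have h2 := hroot _ h1
    rw [norm_neg] at h2
    rw [← h2, Real.sqrt_sq (norm_nonneg _)]
  have hri0 : ∀ i, r i ≠ 0 := by
    intro i h
    have := hri i
    rw [h, norm_zero] at this
    exact (Real.sqrt_pos.mpr hq).ne this
  have h1 : Q.coeff (n - k) = ∑ t ∈ (Finset.univ : Finset (Fin n)).powersetCard k, ∏ i ∈ t, r i := by
    conv_lhs => rw [hr]
    rw [Finset.prod_X_add_C_coeff _ _ (by simp)]
    congr 2
    simp
    omega
  have h3 : ∀ t ∈ (Finset.univ : Finset (Fin n)).powersetCard k, ‖∏ i ∈ t, r i‖ = √q ^ k := by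
    intro t ht
    rw [norm_prod, Finset.prod_congr rfl (fun i _ => hri i), Finset.prod_const,
      (Finset.mem_powersetCard.mp ht).2]
  have h4 : ‖Q.coeff (n - k)‖ = (n.choose k : ℝ) * √q ^ k := by
    have h5 : ‖Q.coeff (n - k)‖ ^ 2 = ((n.choose k : ℝ) * √q ^ k) ^ 2 := by
      rw [heq]
      calc (n.choose k : ℝ) ^ 2 * q ^ k = (n.choose k : ℝ) ^ 2 * (√q ^ 2) ^ k := by
            rw [Real.sq_sqrt hq.le]
        _ = _ := by ring
    exact (sq_eq_sq₀ (norm_nonneg _) (by positivity)).mp h5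
  have h5 := eq_of_norm_sum _ _ _ h3 (by
    rw [← h1, h4, Finset.card_powersetCard, Finset.card_univ, Fintype.card_fin])
  -- all r i are equal
  have h6 : ∀ i j, r i = r j := by
    intro i j
    by_cases hij : i = j
    · rw [hij]
    obtain ⟨t, ht, htc⟩ : ∃ t ⊆ ((Finset.univ : Finset (Fin n)).erase i).erase j, t.card = k - 1 := by
      apply Finset.exists_subset_card_eq
      rw [Finset.card_erase_of_mem (Finset.mem_erase.mpr ⟨Ne.symm hij, Finset.mem_univ _⟩),
        Finset.card_erase_of_mem (Finset.mem_univ _), Finset.card_univ, Fintype.card_fin]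
      omega
    have hi : i ∉ t := by
      intro h
      have := ht h
      simp at this
    have hj : j ∉ t := by
      intro h
      have := ht h
      simp at this
    have ha := h5 (insert i t) (Finset.mem_powersetCard.mpr ⟨Finset.subset_univ _, by
      rw [Finset.card_insert_of_notMem hi, htc]; omega⟩) (insert j t)
      (Finset.mem_powersetCard.mpr ⟨Finset.subset_univ _, by
      rw [Finset.card_insert_of_notMem hj, htc]; omega⟩)
    rw [Finset.prod_insert hi, Finset.prod_insert hj] at ha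
    exact mul_right_cancel₀ (Finset.prod_ne_zero_iff.mpr fun i _ => hri0 i) ha
  refine ⟨- r ⟨0, by omega⟩, ?_⟩
  refine hr.trans ?_
  have : ∀ i : Fin n, (X + C (r i)) = X - C (- r ⟨0, by omega⟩) := by
    intro i
    rw [h6 i ⟨0, by omega⟩, C_neg, sub_neg_eq_add]
  rw [Finset.prod_congr rfl (fun i _ => this i), Finset.prod_const, Finset.card_univ,
    Fintype.card_fin]

end complex

section norm

variable {E : Type*} [Field E] [NumberField E]

theorem norm_eq_prod (L : Type*) [Field L] [CharZero L] [IsAlgClosed L] (b : 𝓞 E) :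
    ((Algebra.norm ℤ b : ℤ) : L) = ∏ σ : E →+* L, σ (b : E) := by
  have h1 := Algebra.norm_eq_prod_embeddings ℚ L (b : E)
  rw [← Algebra.coe_norm_int] at h1
  rw [Fintype.prod_equiv (RingHom.equivRatAlgHom E L) (fun f => f (b : E))
      (fun φ => φ (b : E)) fun _ => by simp [RingHom.equivRatAlgHom_apply], ← h1]
  simp

theorem norm_eq_prod_int (L : Type*) [Field L] [CharZero L] [IsAlgClosed L] (b : 𝓞 E) :
    ((Algebra.norm ℤ b : ℤ) : 𝓞 L) = ∏ σ : E →+* L, RingOfIntegers.mapRingHom σ b := by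
  apply RingOfIntegers.ext
  have h1 : (((Algebra.norm ℤ b : ℤ) : 𝓞 L) : L) = ((Algebra.norm ℤ b : ℤ) : L) :=
    map_intCast (algebraMap (𝓞 L) L) _
  have h2 : ((∏ σ : E →+* L, RingOfIntegers.mapRingHom σ b : 𝓞 L) : L) =
      ∏ σ : E →+* L, σ (b : E) := map_prod (algebraMap (𝓞 L) L) _ _
  rw [h1, h2, norm_eq_prod L b]

theorem value (p : ℕ) (hp : p.Prime) (M e C : ℕ) (N : ℤ) (hM : e ≤ 2 * M) (hdvd : (p : ℤ) ^ M ∣ N)
    (hN : ((N : ℝ)) ^ 2 ≤ C * (p : ℝ) ^ e) : ∃ s : ℕ, s ≤ C ∧ N ^ 2 = s * (p : ℤ) ^ e := by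
  have h1 : (p : ℤ) ^ e ∣ N ^ 2 := by
    refine (pow_dvd_pow _ hM).trans ?_
    rw [mul_comm, pow_mul]
    exact pow_dvd_pow_of_dvd hdvd 2
  obtain ⟨t, ht⟩ := h1
  have hp0 : (0 : ℤ) < (p : ℤ) ^ e := by
    have := hp.pos
    positivity
  have ht0 : 0 ≤ t := by
    by_contra h
    have h2 : t < 0 := not_le.mp h
    have h3 : (p : ℤ) ^ e * t < 0 := mul_neg_of_pos_of_neg hp0 h2
    have h4 : 0 ≤ N ^ 2 := sq_nonneg N
    omega
  obtain ⟨s, rfl⟩ := Int.eq_ofNat_of_zero_le ht0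
  refine ⟨s, ?_, by rw [ht, mul_comm]⟩
  have h2 : ((N : ℝ)) ^ 2 = (p : ℝ) ^ e * s := by exact_mod_cast ht
  rw [h2, mul_comm] at hN
  have hp1 : (0 : ℝ) < (p : ℝ) ^ e := by
    have := hp.pos
    positivity
  exact_mod_cast le_of_mul_le_mul_right hN hp1

/-- a polynomial over the integers of `E` which is a power of a linear polynomial over `ℂ` is one -/
theorem scalar_descent (P : (𝓞 E)[X]) (n : ℕ) (hn0 : 0 < n) (hm : P.Monic) (hn : P.natDegree = n)
    (τ : E →+* ℂ) (α : ℂ) (h : P.map (τ.comp (algebraMap (𝓞 E) E)) = (X - C α) ^ n) :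
    ∃ a : 𝓞 E, P = (X - C a) ^ n := by
  have h1 : τ ((P.coeff (n - 1) : 𝓞 E) : E) = - (n * α) := by
    have := congrArg (fun q => q.coeff (n - 1)) h
    rw [coeff_map] at this
    rw [show τ ((P.coeff (n - 1) : 𝓞 E) : E) = (τ.comp (algebraMap (𝓞 E) E)) (P.coeff (n - 1)) from rfl, this,
      sub_eq_add_neg, ← C_neg, coeff_X_add_C_pow]
    rw [Nat.choose_symm (by omega : 1 ≤ n), Nat.choose_one_right,
      show n - (n - 1) = 1 by omega, pow_one]
    ring
  have hnC : (n : ℂ) ≠ 0 := by exact_mod_cast hn0.ne'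
  have hnE : (n : E) ≠ 0 := by exact_mod_cast hn0.ne'
  set a : E := - ((P.coeff (n - 1) : 𝓞 E) : E) / n with ha
  have hα : τ a = α := by
    rw [ha, map_div₀, map_neg, h1, map_natCast]
    field_simp
  have h2 : P.map (algebraMap (𝓞 E) E) = (X - C a) ^ n := by
    apply Polynomial.map_injective τ τ.injective
    rw [Polynomial.map_map, h, Polynomial.map_pow, Polynomial.map_sub, map_X, map_C, hα]
  have hint : IsIntegral (𝓞 E) a := by
    refine ⟨P, hm, ?_⟩
    rw [← eval_map, h2]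
    simp [hn0.ne']
  obtain ⟨a', ha'⟩ := IsIntegrallyClosed.isIntegral_iff.mp hint
  refine ⟨a', ?_⟩
  apply Polynomial.map_injective (algebraMap (𝓞 E) E) (RingOfIntegers.coe_injective)
  rw [h2, Polynomial.map_pow, Polynomial.map_sub, map_X, map_C, ha']

end norm

end Pool.Agent.W528.Ord
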