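import Mathlib

/-! Zero sets of functions in a Noetherian translation stable algebra of functions on a compact group:
either they have Haar measure zero or they contain a coset of an open subgroup. -/

set_option autoImplicit false
set_option linter.all false

namespace Pool.Agent.W528.Ord

open MeasureTheory Topology Filter

section null

variable {G Ω : Type*} [Group G] [Field Ω]

/-- common zeros of an ideal of an algebra of functions -/
def Zs {A : Subalgebra Ω (G → Ω)} (I : Ideal A) : Set G := {g | ∀ F ∈ I, (F : G → Ω) g = 0}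

/-- left translation -/
def tr {A : Subalgebra Ω (G → Ω)} (hA : ∀ g : G, ∀ F ∈ A, (fun x => F (g * x)) ∈ A) (g : G) :
    A →+* A where
  toFun F := ⟨fun x => (F : G → Ω) (g * x), hA g F F.2⟩
  map_one' := rfl
  map_mul' _ _ := rfl
  map_zero' := rfl
  map_add' _ _ := rfl

theorem tr_apply {A : Subalgebra Ω (G → Ω)} (hA : ∀ g : G, ∀ F ∈ A, (fun x => F (g * x)) ∈ A)
    (g : G) (F : A) (x : G) : (tr hA g F : G → Ω) x = (F : G → Ω) (g * x) := rfl

theorem tr_tr {A : Subalgebra Ω (G → Ω)} (hA : ∀ g : G, ∀ F ∈ A, (fun x => F (g * x)) ∈ A)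
    (g h : G) (F : A) : tr hA g (tr hA h F) = tr hA (h * g) F := by
  apply Subtype.ext
  funext x
  rw [tr_apply, tr_apply, tr_apply, mul_assoc]

theorem tr_one {A : Subalgebra Ω (G → Ω)} (hA : ∀ g : G, ∀ F ∈ A, (fun x => F (g * x)) ∈ A)
    (F : A) : tr hA 1 F = F := by
  apply Subtype.ext
  funext x
  rw [tr_apply, one_mul]

/-- translate of an ideal -/
def trI {A : Subalgebra Ω (G → Ω)} (hA : ∀ g : G, ∀ F ∈ A, (fun x => F (g * x)) ∈ A) (g : G)
    (I : Ideal A) : Ideal A := I.comap (tr hA g⁻¹)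

theorem mem_trI {A : Subalgebra Ω (G → Ω)} (hA : ∀ g : G, ∀ F ∈ A, (fun x => F (g * x)) ∈ A) (g : G)
    (I : Ideal A) (F : A) : F ∈ trI hA g I ↔ tr hA g⁻¹ F ∈ I := Iff.rfl

theorem trI_trI {A : Subalgebra Ω (G → Ω)} (hA : ∀ g : G, ∀ F ∈ A, (fun x => F (g * x)) ∈ A)
    (g h : G) (I : Ideal A) : trI hA g (trI hA h I) = trI hA (h * g) I := by
  ext F
  rw [mem_trI, mem_trI, mem_trI, tr_tr, mul_inv_rev]

theorem trI_one {A : Subalgebra Ω (G → Ω)} (hA : ∀ g : G, ∀ F ∈ A, (fun x => F (g * x)) ∈ A)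
    (I : Ideal A) : trI hA 1 I = I := by
  ext F
  rw [mem_trI, inv_one, tr_one]

theorem trI_mono {A : Subalgebra Ω (G → Ω)} (hA : ∀ g : G, ∀ F ∈ A, (fun x => F (g * x)) ∈ A)
    (g : G) {I J : Ideal A} (h : I ≤ J) : trI hA g I ≤ trI hA g J := fun F hF => h hF

theorem Zs_trI {A : Subalgebra Ω (G → Ω)} (hA : ∀ g : G, ∀ F ∈ A, (fun x => F (g * x)) ∈ A)
    (g : G) (I : Ideal A) : Zs (trI hA g I) = (fun x => g * x) ⁻¹' Zs I := by
  ext γ
  constructor
  · intro h F hF
    have h1 : tr hA g F ∈ trI hA g I := by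
      rw [mem_trI, tr_tr, mul_inv_cancel, tr_one]
      exact hF
    exact h _ h1
  · intro h F hF
    have h1 := h _ hF
    rw [tr_apply] at h1
    rwa [inv_mul_cancel_left] at h1

theorem Zs_sup {A : Subalgebra Ω (G → Ω)} (I J : Ideal A) : Zs (I ⊔ J) = Zs I ∩ Zs J := by
  ext γ
  constructor
  · intro h
    exact ⟨fun F hF => h F (Submodule.mem_sup_left hF), fun F hF => h F (Submodule.mem_sup_right hF)⟩
  · rintro ⟨h1, h2⟩ F hF
    obtain ⟨a, ha, b, hb, rfl⟩ := Submodule.mem_sup.mp hF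
    have e : ((a + b : A) : G → Ω) γ = (a : G → Ω) γ + (b : G → Ω) γ := rfl
    rw [e, h1 a ha, h2 b hb, add_zero]

theorem Zs_span {A : Subalgebra Ω (G → Ω)} (F : A) : Zs (Ideal.span {F}) = {g | (F : G → Ω) g = 0} := by
  ext γ
  constructor
  · intro h
    exact h F (Ideal.subset_span rfl)
  · intro h F' hF'
    obtain ⟨a, rfl⟩ := Ideal.mem_span_singleton'.mp hF'
    have e : ((a * F : A) : G → Ω) γ = (a : G → Ω) γ * (F : G → Ω) γ := rfl
    rw [e, show (F : G → Ω) γ = 0 from h, mul_zero]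

variable [TopologicalSpace G] [IsTopologicalGroup G] [CompactSpace G] [T2Space G]
  [MeasurableSpace G] [BorelSpace G] [TopologicalSpace Ω] [T2Space Ω]

theorem Zs_closed {A : Subalgebra Ω (G → Ω)} (hc : ∀ F ∈ A, Continuous F) (I : Ideal A) :
    IsClosed (Zs I) := by
  have e : Zs I = ⋂ F ∈ I, {g | (F : G → Ω) g = 0} := by
    ext g
    simp [Zs]
  rw [e]
  apply isClosed_iInter
  intro F
  apply isClosed_iInter
  intro _
  exact isClosed_eq (hc F F.2) continuous_const

/-- **the main lemma**: a zero set of positive Haar measure contains a coset of an open subgroup -/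
theorem coset_of_pos (μ : Measure G) [IsProbabilityMeasure μ] [μ.IsMulLeftInvariant]
    (A : Subalgebra Ω (G → Ω)) [IsNoetherianRing A]
    (hA : ∀ g : G, ∀ F ∈ A, (fun x => F (g * x)) ∈ A) (hc : ∀ F ∈ A, Continuous F)
    (F0 : G → Ω) (hF0 : F0 ∈ A) (h0 : μ {g | F0 g = 0} ≠ 0) :
    ∃ (U : Subgroup G) (γ : G), IsOpen (U : Set G) ∧ ∀ u ∈ U, F0 (γ * u) = 0 := by
  classical
  set f0 : A := ⟨F0, hF0⟩ with hf0
  -- maximal ideal
  obtain ⟨I, ⟨hI0, hIμ⟩, hImax⟩ : ∃ I : Ideal A, (f0 ∈ I ∧ μ (Zs I) ≠ 0) ∧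
      ∀ J : Ideal A, (f0 ∈ J ∧ μ (Zs J) ≠ 0) → I ≤ J → J = I := by
    obtain ⟨I, hI, hmax⟩ := WellFounded.has_min (wellFounded_gt (α := Ideal A))
      {I : Ideal A | f0 ∈ I ∧ μ (Zs I) ≠ 0} ⟨Ideal.span {f0}, Ideal.subset_span rfl, by
        rw [Zs_span]; exact h0⟩
    refine ⟨I, hI, fun J hJ hIJ => ?_⟩
    by_contra hne
    exact hmax J hJ (lt_of_le_of_ne hIJ (Ne.symm hne))
  have hμtr : ∀ g : G, μ (Zs (trI hA g I)) = μ (Zs I) := by
    intro g
    rw [Zs_trI]
    exact measure_preimage_mul μ g _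
  -- if the translate is contained in the ideal they are equal
  have hle : ∀ g : G, trI hA g I ≤ I → trI hA g I = I := by
    intro g hg
    have h1 : I ≤ trI hA g⁻¹ I := by
      have := trI_mono hA g⁻¹ hg
      rw [trI_trI, mul_inv_cancel, trI_one] at this
      exact this
    have h2 : trI hA g⁻¹ I = I := hImax _ ⟨h1 hI0, by rw [hμtr]; exact hIμ⟩ h1
    conv_lhs => rw [← h2]
    rw [trI_trI, inv_mul_cancel, trI_one]
  -- otherwise the zero sets are almost disjoint
  have hdis : ∀ g : G, trI hA g I ≠ I → μ (Zs I ∩ Zs (trI hA g I)) = 0 := by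
    intro g hg
    by_contra hne
    have h1 : I ⊔ trI hA g I = I := by
      apply hImax _ ⟨Submodule.mem_sup_left hI0, _⟩ le_sup_left
      rw [Zs_sup]
      exact hne
    exact hg (hle g ((le_sup_right (a := I)).trans h1.le))
  -- the stabiliser
  let D : Subgroup G :=
    { carrier := {g | trI hA g I = I}
      mul_mem' := by
        intro a b ha hb
        change trI hA (a * b) I = I
        rw [← trI_trI, show trI hA a I = I from ha, show trI hA b I = I from hb]
      one_mem' := trI_one hA I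
      inv_mem' := by
        intro a ha
        change trI hA a⁻¹ I = I
        conv_lhs => rw [← show trI hA a I = I from ha]
        rw [trI_trI, mul_inv_cancel, trI_one] }
  have hDmem : ∀ g, g ∈ D ↔ trI hA g I = I := fun g => Iff.rfl
  have hmeas : ∀ J : Ideal A, MeasurableSet (Zs J) := fun J => (Zs_closed hc J).measurableSet
  -- finite index
  have hfin : D.FiniteIndex := by
    rw [Subgroup.finiteIndex_iff_finite_quotient]
    by_contra hinf
    rw [not_finite_iff_infinite] at hinf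
    -- cosets D g: we use the inverse of representatives of left cosets
    let s : G ⧸ D → Set G := fun q => Zs (trI hA (Quotient.out q)⁻¹ I)
    have hpair : Pairwise (Function.onFun (AEDisjoint μ) s) := by
      intro q q' hqq
      change μ (Zs (trI hA (Quotient.out q)⁻¹ I) ∩ Zs (trI hA (Quotient.out q')⁻¹ I)) = 0
      set a := Quotient.out q with ha
      set b := Quotient.out q' with hb
      -- translate by a
      have e1 : Zs (trI hA a⁻¹ I) ∩ Zs (trI hA b⁻¹ I) =
          (fun x => a⁻¹ * x) ⁻¹' (Zs I ∩ Zs (trI hA (b⁻¹ * a) I)) := by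
        rw [Set.preimage_inter, ← Zs_trI, ← Zs_trI, trI_trI, mul_assoc, mul_inv_cancel, mul_one]
      rw [e1, measure_preimage_mul]
      apply hdis
      intro h
      apply hqq
      have h2 : b⁻¹ * a ∈ D := h
      have h3 : (QuotientGroup.mk b : G ⧸ D) = QuotientGroup.mk a := QuotientGroup.eq.mpr h2
      have h4 : (QuotientGroup.mk a : G ⧸ D) = q := Quotient.out_eq q
      have h5 : (QuotientGroup.mk b : G ⧸ D) = q' := Quotient.out_eq q'
      rw [← h4, ← h5, h3]
    have hsum := tsum_measure_le_measure_univ (μ := μ) (s := s)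
      (fun q => (hmeas _).nullMeasurableSet) hpair
    have hconst : ∀ q, μ (s q) = μ (Zs I) := fun q => hμtr _
    simp only [hconst, measure_univ] at hsum
    rw [ENNReal.tsum_const_eq_top_of_ne_zero hIμ] at hsum
    exact absurd hsum (by simp)
  have hstab : ∀ g ∈ D, ∀ γ ∈ Zs I, g * γ ∈ Zs I := by
    intro g hg γ hγ
    have h1 : Zs (trI hA g I) = Zs I := by rw [(hDmem g).mp hg]
    rw [Zs_trI] at h1
    rw [← h1] at hγ
    exact hγ
  obtain ⟨γ0, hγ0⟩ : (Zs I).Nonempty := nonempty_of_measure_ne_zero hIμ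
  have hcl : ∀ g ∈ D.topologicalClosure, g * γ0 ∈ Zs I := by
    intro g hg
    have hclosed : IsClosed ((fun g => g * γ0) ⁻¹' Zs I) :=
      (Zs_closed hc I).preimage (continuous_mul_right γ0)
    have hsub : (D : Set G) ⊆ (fun g => g * γ0) ⁻¹' Zs I := fun g hg => hstab g hg γ0 hγ0
    exact closure_minimal hsub hclosed hg
  haveI : D.topologicalClosure.FiniteIndex :=
    Subgroup.finiteIndex_of_le (D.le_topologicalClosure)
  have hopen : IsOpen (D.topologicalClosure : Set G) :=
    Subgroup.isOpen_of_isClosed_of_finiteIndex _ D.isClosed_topologicalClosure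
  refine ⟨D.topologicalClosure.comap (MulAut.conj γ0).toMonoidHom, γ0, ?_, ?_⟩
  · rw [Subgroup.coe_comap]
    apply hopen.preimage
    change Continuous fun x => γ0 * x * γ0⁻¹
    fun_prop
  · intro u hu
    have h1 : γ0 * u * γ0⁻¹ ∈ D.topologicalClosure := hu
    have h2 := hcl _ h1
    have h3 := h2 f0 hI0
    rw [inv_mul_cancel_right] at h3
    exact h3

end null

end Pool.Agent.W528.Ord
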