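import Pool.Agent.W528.Ord.Galois

/-! The main density theorem: primes at which a norm of a coefficient of the Frobenius polynomial is
divisible by a large power of `p` have density zero. -/

set_option autoImplicit false
set_option linter.all false

namespace Pool.Agent.W528.Ord

open MeasureTheory Topology Filter NumberField IsDedekindDomain Polynomial
open Pool.Agent.W401.Cheb

variable {K : Type} [Field K] [NumberField K] {E : Type} [Field E] [NumberField E]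
  {Ω : Type} [Field Ω] [CharZero Ω] [IsAlgClosed Ω] [TopologicalSpace Ω] [IsTopologicalRing Ω] [T2Space Ω]
  {n : ℕ} (ρ : (E →+* Ω) → GK K →* Matrix.GeneralLinearGroup (Fin n) Ω) (χ : GK K →* Ωˣ)

/-- every prime has a Frobenius element -/
theorem exists_isFrob (v : HeightOneSpectrum (𝓞 K)) : ∃ σ : GK K, IsFrob v σ := by
  have hvm : v.asIdeal.IsMaximal := v.isMaximal
  obtain ⟨Q, hQm, hQv⟩ := Ideal.exists_ideal_over_maximal_of_isIntegral
    (S := 𝓞 (AlgebraicClosure K)) v.asIdeal (by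
      have h : Function.Injective (algebraMap (𝓞 K) (𝓞 (AlgebraicClosure K))) :=
        FaithfulSMul.algebraMap_injective _ _
      rw [(RingHom.injective_iff_ker_eq_bot _).1 h]
      exact bot_le)
  haveI := hQm
  obtain ⟨σ, hσ⟩ := Pool.Agent.W352.ChAbs.exists_frob v Q hQv
  exact ⟨σ, Q, hQm, hQv, hσ⟩

theorem dens_range (C : ℕ) (Q : ℕ → HeightOneSpectrum (𝓞 K) → Prop)
    (h : ∀ s ≤ C, Tendsto (dens (Q s)) atTop (𝓝 0)) :
    Tendsto (dens fun v => ∃ s ≤ C, Q s v) atTop (𝓝 0) := by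
  induction C with
  | zero =>
    refine squeeze_zero (fun N => dens_nonneg _ _) (fun N => dens_mono ?_ N) (h 0 le_rfl)
    rintro v ⟨s, hs, hv⟩
    have : s = 0 := by omega
    exact this ▸ hv
  | succ C ih =>
    have h1 := ih (fun s hs => h s (by omega))
    have h2 := h (C + 1) le_rfl
    have h3 := h1.add h2
    rw [add_zero] at h3
    refine squeeze_zero (fun N => dens_nonneg _ _) (fun N => ?_) h3
    refine le_trans (dens_mono ?_ N) (dens_or _ _ N)
    rintro v ⟨s, hs, hv⟩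
    by_cases hs' : s ≤ C
    · exact Or.inl ⟨s, hs', hv⟩
    · have : s = C + 1 := by omega
      exact Or.inr (this ▸ hv)

theorem norm_sq_eq (b : 𝓞 E) :
    (((Algebra.norm ℤ b : ℤ) : ℝ)) ^ 2 = ∏ τ : E →+* ℂ, ‖τ (b : E)‖ ^ 2 := by
  have h1 := norm_eq_prod ℂ b
  have h2 := congrArg (fun z : ℂ => ‖z‖ ^ 2) h1
  simp only [norm_prod, Finset.prod_pow] at h2 ⊢
  rw [← h2]
  simp

/-- **the main density theorem** -/
theorem engine (hρc : ∀ (τ : E →+* Ω) (i j : Fin n), Continuous fun g : GK K => (ρ τ g : Matrix (Fin n) (Fin n) Ω) i j)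
    (hχc : Continuous fun g : GK K => (χ g : Ω)) (hconn : ConnectedMonodromy ρ χ) (k w : ℕ) (hk0 : 0 < k)
    (hkn : k < n) (P : HeightOneSpectrum (𝓞 K) → Polynomial (𝓞 E))
    (good : HeightOneSpectrum (𝓞 K) → Prop)
    (hprime : ∀ v, good v → (Ideal.absNorm v.asIdeal).Prime)
    (hmonic : ∀ v, good v → (P v).Monic) (hdeg : ∀ v, good v → (P v).natDegree = n)
    (hpure : ∀ v, good v → ∀ (τ : E →+* ℂ) (α : ℂ), ((P v).map (τ.comp (algebraMap (𝓞 E) E))).IsRoot α →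
      ‖α‖ ^ 2 = (Ideal.absNorm v.asIdeal : ℝ) ^ w)
    (hρ : ∀ v, good v → ∀ σ, IsFrob v σ → ∀ τ : E →+* Ω,
      (ρ τ σ : Matrix (Fin n) (Fin n) Ω).charpoly = (P v).map (τ.comp (algebraMap (𝓞 E) E)))
    (hχ : ∀ v, good v → ∀ σ, IsFrob v σ → (χ σ : Ω) = (Ideal.absNorm v.asIdeal : Ω))
    (hns : ∃ v, good v ∧ ∃ τ : E →+* ℂ, ∀ α : ℂ, (P v).map (τ.comp (algebraMap (𝓞 E) E)) ≠ (X - C α) ^ n)
    (bad : HeightOneSpectrum (𝓞 K) → Prop)
    (hbad : ∀ v, good v → bad v → ∃ M, w * k * Module.finrank ℚ E ≤ 2 * M ∧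
      ((Ideal.absNorm v.asIdeal : ℤ)) ^ M ∣ Algebra.norm ℤ ((P v).coeff (n - k))) :
    Tendsto (dens fun v => good v ∧ bad v) atTop (𝓝 0) := by
  classical
  set d := Module.finrank ℚ E with hd
  have hdΩ : Fintype.card (E →+* Ω) = d := NumberField.Embeddings.card E Ω
  have hdC : Fintype.card (E →+* ℂ) = d := NumberField.Embeddings.card E ℂ
  set e := w * k * d with he
  set CC := (n.choose k) ^ (2 * d) with hCC
  -- the value of `cf` at Frobenius elements
  have hcf : ∀ v, good v → ∀ σ, IsFrob v σ →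
      cf ρ (n - k) σ = ((Algebra.norm ℤ ((P v).coeff (n - k)) : ℤ) : Ω) := by
    intro v hv σ hσ
    rw [norm_eq_prod Ω]
    unfold cf
    apply Finset.prod_congr rfl
    intro τ _
    rw [hρ v hv σ hσ τ, coeff_map]
    rfl
  -- archimedean bound
  have hbd : ∀ v, good v → ∀ τ : E →+* ℂ, ‖τ (((P v).coeff (n - k) : 𝓞 E) : E)‖ ^ 2 ≤
      (n.choose k : ℝ) ^ 2 * ((Ideal.absNorm v.asIdeal : ℝ) ^ w) ^ k := by
    intro v hv τ
    have h := norm_coeff_sq_le ((P v).map (τ.comp (algebraMap (𝓞 E) E))) n k hkn.le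
      ((hmonic v hv).map _) (by rw [(hmonic v hv).natDegree_map, hdeg v hv])
      ((Ideal.absNorm v.asIdeal : ℝ) ^ w) (hpure v hv τ)
    rw [coeff_map] at h
    exact h
  have hbdN : ∀ v, good v → (((Algebra.norm ℤ ((P v).coeff (n - k)) : ℤ) : ℝ)) ^ 2 ≤
      (CC : ℝ) * (Ideal.absNorm v.asIdeal : ℝ) ^ e := by
    intro v hv
    rw [norm_sq_eq]
    calc ∏ τ : E →+* ℂ, ‖τ (((P v).coeff (n - k) : 𝓞 E) : E)‖ ^ 2
        ≤ ∏ τ : E →+* ℂ, (n.choose k : ℝ) ^ 2 * ((Ideal.absNorm v.asIdeal : ℝ) ^ w) ^ k :=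
          Finset.prod_le_prod (fun τ _ => by positivity) (fun τ _ => hbd v hv τ)
      _ = _ := by
          rw [Finset.prod_const, Finset.card_univ, hdC, hCC, he]
          push_cast
          ring
  -- the functions
  let F : ℕ → GK K → Ω := fun s g => cf ρ (n - k) g ^ 2 - (s : Ω) * (χ g : Ω) ^ e
  have hFmem : ∀ s, F s ∈ FA ρ χ := by
    intro s
    have h1 : F s = (fun g => cf ρ (n - k) g) ^ 2 - (s : Ω) • (fun g => (χ g : Ω)) ^ e := by
      funext g
      rfl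
    rw [h1]
    exact (FA ρ χ).sub_mem ((FA ρ χ).pow_mem (cf_mem ρ χ _) 2)
      ((FA ρ χ).smul_mem ((FA ρ χ).pow_mem (char_mem ρ χ) e) _)
  have hFcl : ∀ s, ∀ σ τ : GK K, F s (τ * σ * τ⁻¹) = F s σ := by
    intro s σ τ
    have h1 : (χ (τ * σ * τ⁻¹) : Ωˣ) = χ σ := by
      rw [map_mul, map_mul, map_inv, mul_comm, inv_mul_cancel_left]
    change cf ρ (n - k) (τ * σ * τ⁻¹) ^ 2 - (s : Ω) * ((χ (τ * σ * τ⁻¹) : Ωˣ) : Ω) ^ e = _
    rw [h1, cf_conj]
  have hzero : ∀ s ≤ CC, Tendsto (dens fun v : HeightOneSpectrum (𝓞 K) =>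
      ∃ σ, F s σ = 0 ∧ IsFrob v σ) atTop (𝓝 0) := by
    intro s _
    rcases alternative ρ χ hρc hχc hconn (F s) (hFmem s) (hFcl s) with hall | h
    · exfalso
      -- s = CC
      have h1 : cf ρ (n - k) 1 ^ 2 - (s : Ω) * ((χ 1 : Ωˣ) : Ω) ^ e = 0 := hall 1
      rw [cf_one, map_one, Units.val_one, one_pow, mul_one, sub_eq_zero,
        Nat.choose_symm hkn.le, hdΩ] at h1
      have hs : CC = s := by
        have := Nat.cast_injective h1
        exact this
      obtain ⟨v, hv, τ, hτ⟩ := hns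
      obtain ⟨σ, hσ⟩ := exists_isFrob v
      have h2 : cf ρ (n - k) σ ^ 2 - (s : Ω) * (χ σ : Ω) ^ e = 0 := hall σ
      rw [hcf v hv σ hσ, hχ v hv σ hσ, sub_eq_zero, ← hs] at h2
      have h3 : (Algebra.norm ℤ ((P v).coeff (n - k)) : ℤ) ^ 2 =
          (CC : ℤ) * (Ideal.absNorm v.asIdeal : ℤ) ^ e := by exact_mod_cast h2
      have h4 : (((Algebra.norm ℤ ((P v).coeff (n - k)) : ℤ) : ℝ)) ^ 2 =
          (CC : ℝ) * (Ideal.absNorm v.asIdeal : ℝ) ^ e := by exact_mod_cast h3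
      have hp0 : (0 : ℝ) < (Ideal.absNorm v.asIdeal : ℝ) := by
        exact_mod_cast (hprime v hv).pos
      have hch : (0 : ℝ) < (n.choose k : ℝ) := by exact_mod_cast Nat.choose_pos hkn.le
      rw [norm_sq_eq] at h4
      have h5 : (CC : ℝ) * (Ideal.absNorm v.asIdeal : ℝ) ^ e =
          ∏ τ : E →+* ℂ, (n.choose k : ℝ) ^ 2 * ((Ideal.absNorm v.asIdeal : ℝ) ^ w) ^ k := by
        rw [Finset.prod_const, Finset.card_univ, hdC, hCC, he]
        push_cast
        ring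
      rw [h5] at h4
      have h6 : ‖τ (((P v).coeff (n - k) : 𝓞 E) : E)‖ ^ 2 =
          (n.choose k : ℝ) ^ 2 * ((Ideal.absNorm v.asIdeal : ℝ) ^ w) ^ k := by
        by_contra hne
        have hlt := lt_of_le_of_ne (hbd v hv τ) hne
        have hpos : ∀ η : E →+* ℂ, 0 < ‖η (((P v).coeff (n - k) : 𝓞 E) : E)‖ ^ 2 := by
          intro η
          have h7 : ∏ τ : E →+* ℂ, ‖τ (((P v).coeff (n - k) : 𝓞 E) : E)‖ ^ 2 ≠ 0 := by
            rw [h4]
            exact Finset.prod_ne_zero_iff.mpr fun _ _ => by positivity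
          have h8 := Finset.prod_ne_zero_iff.mp h7 η (Finset.mem_univ _)
          exact lt_of_le_of_ne (by positivity) (Ne.symm h8)
        have := Finset.prod_lt_prod (s := (Finset.univ : Finset (E →+* ℂ)))
          (fun η _ => hpos η) (fun η _ => hbd v hv η) ⟨τ, Finset.mem_univ _, hlt⟩
        exact this.ne h4
      have h7 := scalar_of_norm_coeff ((P v).map (τ.comp (algebraMap (𝓞 E) E))) n k hk0 hkn
        ((hmonic v hv).map _) (by rw [(hmonic v hv).natDegree_map, hdeg v hv])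
        ((Ideal.absNorm v.asIdeal : ℝ) ^ w) (by positivity) (hpure v hv τ) (by rw [coeff_map]; exact h6)
      obtain ⟨α, hα⟩ := h7
      exact hτ α hα
    · exact h
  refine squeeze_zero (fun N => dens_nonneg _ _) (fun N => dens_mono ?_ N) (dens_range CC _ hzero)
  rintro v ⟨hv, hb⟩
  obtain ⟨M, hM, hdvd⟩ := hbad v hv hb
  obtain ⟨s, hs, hsN⟩ := value (Ideal.absNorm v.asIdeal) (hprime v hv) M e CC _ hM hdvd (hbdN v hv)
  obtain ⟨σ, hσ⟩ := exists_isFrob v
  refine ⟨s, hs, σ, ?_, hσ⟩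
  change cf ρ (n - k) σ ^ 2 - (s : Ω) * (χ σ : Ω) ^ e = 0
  rw [hcf v hv σ hσ, hχ v hv σ hσ, sub_eq_zero]
  exact_mod_cast congrArg (Int.cast : ℤ → Ω) hsN

end Pool.Agent.W528.Ord
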