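import Pool.Agent.W528.Ord.Dens
import Pool.Agent.W528.Ord.Arith

/-! Polynomial relations between the entries of Galois representations with connected monodromy. -/

set_option autoImplicit false
set_option linter.all false

namespace Pool.Agent.W528.Ord

open MeasureTheory Topology Filter NumberField IsDedekindDomain Polynomial
open Pool.Agent.W401.Cheb

variable {K : Type} [Field K] [NumberField K] {E : Type} [Field E] [NumberField E]
  {Ω : Type} [Field Ω] [CharZero Ω] {n : ℕ}

/-- the matrix entries of the representations `ρ τ` and the value of the character `χ` -/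
noncomputable def coords (ρ : (E →+* Ω) → GK K →* Matrix.GeneralLinearGroup (Fin n) Ω) (χ : GK K →* Ωˣ)
    (g : GK K) : ((E →+* Ω) × Fin n × Fin n) ⊕ Unit → Ω
  | Sum.inl x => (ρ x.1 g : Matrix (Fin n) (Fin n) Ω) x.2.1 x.2.2
  | Sum.inr _ => (χ g : Ω)

/-- the Zariski closure of the image of `(ρ, χ)` is connected: a polynomial relation which holds on a
coset of an open subgroup holds everywhere -/
def ConnectedMonodromy (ρ : (E →+* Ω) → GK K →* Matrix.GeneralLinearGroup (Fin n) Ω)
    (χ : GK K →* Ωˣ) : Prop :=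
  ∀ (F : MvPolynomial (((E →+* Ω) × Fin n × Fin n) ⊕ Unit) Ω) (U : Subgroup (GK K)) (γ : GK K),
    IsOpen (U : Set (GK K)) → (∀ u ∈ U, MvPolynomial.eval (coords ρ χ (γ * u)) F = 0) →
    ∀ g : GK K, MvPolynomial.eval (coords ρ χ g) F = 0

variable (ρ : (E →+* Ω) → GK K →* Matrix.GeneralLinearGroup (Fin n) Ω) (χ : GK K →* Ωˣ)

/-- polynomial functions -/
noncomputable def FA : Subalgebra Ω (GK K → Ω) :=
  (MvPolynomial.aeval (fun (i : ((E →+* Ω) × Fin n × Fin n) ⊕ Unit) (g : GK K) => coords ρ χ g i)).range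

theorem aeval_fun (P : MvPolynomial (((E →+* Ω) × Fin n × Fin n) ⊕ Unit) Ω) (g : GK K) :
    (MvPolynomial.aeval (fun (i : ((E →+* Ω) × Fin n × Fin n) ⊕ Unit) (g : GK K) => coords ρ χ g i) P) g =
      MvPolynomial.eval (coords ρ χ g) P := by
  have h : (Pi.evalAlgHom Ω (fun _ : GK K => Ω) g).comp
      (MvPolynomial.aeval (fun (i : ((E →+* Ω) × Fin n × Fin n) ⊕ Unit) (g : GK K) => coords ρ χ g i)) =
      MvPolynomial.aeval (coords ρ χ g) := by
    apply MvPolynomial.algHom_ext
    intro i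
    simp
  have h2 := DFunLike.congr_fun h P
  rw [AlgHom.comp_apply] at h2
  exact h2

theorem mem_FA (F : GK K → Ω) : F ∈ FA ρ χ ↔ ∃ P : MvPolynomial (((E →+* Ω) × Fin n × Fin n) ⊕ Unit) Ω,
    ∀ g, F g = MvPolynomial.eval (coords ρ χ g) P := by
  constructor
  · rintro ⟨P, rfl⟩
    exact ⟨P, fun g => aeval_fun ρ χ P g⟩
  · rintro ⟨P, hP⟩
    refine ⟨P, ?_⟩
    funext g
    rw [hP g]
    exact aeval_fun ρ χ P g

theorem noeth : IsNoetherianRing (FA ρ χ) := by
  let f : MvPolynomial (((E →+* Ω) × Fin n × Fin n) ⊕ Unit) Ω →ₐ[Ω] (GK K → Ω) := MvPolynomial.aeval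
    (fun (i : ((E →+* Ω) × Fin n × Fin n) ⊕ Unit) (g : GK K) => coords ρ χ g i)
  have hs : Function.Surjective f.rangeRestrict := AlgHom.rangeRestrict_surjective _
  exact isNoetherianRing_of_surjective _ _ f.rangeRestrict.toRingHom hs

theorem entry_mem (τ : E →+* Ω) (i j : Fin n) :
    (fun g => (ρ τ g : Matrix (Fin n) (Fin n) Ω) i j) ∈ FA ρ χ := by
  rw [mem_FA]
  exact ⟨MvPolynomial.X (Sum.inl (τ, i, j)), fun g => by rw [MvPolynomial.eval_X]; rfl⟩

theorem char_mem : (fun g => (χ g : Ω)) ∈ FA ρ χ := by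
  rw [mem_FA]
  exact ⟨MvPolynomial.X (Sum.inr ()), fun g => by rw [MvPolynomial.eval_X]; rfl⟩

theorem trans_mem (g : GK K) (F : GK K → Ω) (hF : F ∈ FA ρ χ) : (fun x => F (g * x)) ∈ FA ρ χ := by
  rw [mem_FA] at hF
  obtain ⟨P, hP⟩ := hF
  have h : (fun x => F (g * x)) = fun x => MvPolynomial.eval (coords ρ χ (g * x)) P := by
    funext x; exact hP _
  rw [h]
  clear h hP
  induction P using MvPolynomial.induction_on with
  | C a =>
    have : (fun x => MvPolynomial.eval (coords ρ χ (g * x)) (MvPolynomial.C a)) =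
        algebraMap Ω (GK K → Ω) a := by
      funext x
      rw [MvPolynomial.eval_C]
      rfl
    rw [this]
    exact (FA ρ χ).algebraMap_mem a
  | add p q hp hq =>
    have : (fun x => MvPolynomial.eval (coords ρ χ (g * x)) (p + q)) =
        (fun x => MvPolynomial.eval (coords ρ χ (g * x)) p) +
        (fun x => MvPolynomial.eval (coords ρ χ (g * x)) q) := by
      funext x
      rw [map_add]
      rfl
    rw [this]
    exact (FA ρ χ).add_mem hp hq
  | mul_X p i hp =>
    have : (fun x => MvPolynomial.eval (coords ρ χ (g * x)) (p * MvPolynomial.X i)) =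
        (fun x => MvPolynomial.eval (coords ρ χ (g * x)) p) * (fun x => coords ρ χ (g * x) i) := by
      funext x
      rw [map_mul, MvPolynomial.eval_X]
      rfl
    rw [this]
    apply (FA ρ χ).mul_mem hp
    rcases i with ⟨τ, i, j⟩ | u
    · have e : (fun x => coords ρ χ (g * x) (Sum.inl (τ, i, j))) =
          ∑ k : Fin n, ((ρ τ g : Matrix (Fin n) (Fin n) Ω) i k) •
            (fun x => (ρ τ x : Matrix (Fin n) (Fin n) Ω) k j) := by
        funext x
        rw [Finset.sum_apply]
        change (ρ τ (g * x) : Matrix (Fin n) (Fin n) Ω) i j = _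
        rw [map_mul, Units.val_mul, Matrix.mul_apply]
        rfl
      rw [e]
      exact (FA ρ χ).sum_mem fun k _ => (FA ρ χ).smul_mem (entry_mem ρ χ τ k j) _
    · have e : (fun x => coords ρ χ (g * x) (Sum.inr u)) = (χ g : Ω) • (fun x => (χ x : Ω)) := by
        funext x
        change ((χ (g * x) : Ωˣ) : Ω) = _
        rw [map_mul, Units.val_mul]
        rfl
      rw [e]
      exact (FA ρ χ).smul_mem (char_mem ρ χ) _

section top

variable [TopologicalSpace Ω] [IsTopologicalRing Ω] [T2Space Ω]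

theorem cont_mem (hρ : ∀ (τ : E →+* Ω) (i j : Fin n), Continuous fun g : GK K => (ρ τ g : Matrix (Fin n) (Fin n) Ω) i j)
    (hχ : Continuous fun g : GK K => (χ g : Ω)) (F : GK K → Ω) (hF : F ∈ FA ρ χ) : Continuous F := by
  rw [mem_FA] at hF
  obtain ⟨P, hP⟩ := hF
  have h : F = fun x => MvPolynomial.eval (coords ρ χ x) P := by
    funext x; exact hP _
  rw [h]
  clear h hP
  induction P using MvPolynomial.induction_on with
  | C a => simp only [MvPolynomial.eval_C]; exact continuous_const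
  | add p q hp hq => simp only [map_add]; exact hp.add hq
  | mul_X p i hp =>
    simp only [map_mul, MvPolynomial.eval_X]
    apply hp.mul
    rcases i with ⟨τ, i, j⟩ | u
    · exact hρ τ i j
    · exact hχ

/-- **alternative**: a class function which is polynomial in the matrix entries is zero, or its zeros
contain the Frobenius elements of a set of primes of density zero only -/
theorem alternative (hρ : ∀ (τ : E →+* Ω) (i j : Fin n), Continuous fun g : GK K => (ρ τ g : Matrix (Fin n) (Fin n) Ω) i j)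
    (hχ : Continuous fun g : GK K => (χ g : Ω)) (hconn : ConnectedMonodromy ρ χ) (F : GK K → Ω)
    (hF : F ∈ FA ρ χ) (hcl : ∀ σ τ : GK K, F (τ * σ * τ⁻¹) = F σ) :
    (∀ g, F g = 0) ∨ Tendsto (dens fun v : HeightOneSpectrum (𝓞 K) => ∃ σ, F σ = 0 ∧ IsFrob v σ) atTop (𝓝 0) := by
  letI : MeasurableSpace (GK K) := borel (GK K)
  haveI : BorelSpace (GK K) := ⟨rfl⟩
  let μ : Measure (GK K) := Measure.haarMeasure ⊤
  haveI : IsProbabilityMeasure μ := ⟨by
    have := Measure.haarMeasure_self (K₀ := (⊤ : TopologicalSpace.PositiveCompacts (GK K)))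
    exact this⟩
  by_cases h0 : μ {g | F g = 0} = 0
  · right
    have hc : IsClosed {g | F g = 0} := isClosed_eq (cont_mem ρ χ hρ hχ F hF) continuous_const
    exact dens_null μ {g | F g = 0} hc (fun σ hσ τ => (hcl σ τ).trans hσ) h0
  · left
    haveI := noeth ρ χ
    obtain ⟨U, γ, hU, hUγ⟩ := coset_of_pos μ (FA ρ χ) (trans_mem ρ χ) (cont_mem ρ χ hρ hχ) F hF h0
    obtain ⟨P, hP⟩ := (mem_FA ρ χ F).mp hF
    intro g
    rw [hP g]
    exact hconn P U γ hU (fun u hu => by rw [← hP]; exact hUγ u hu) g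

end top

/-- the product over the embeddings of the coefficients of the characteristic polynomials -/
noncomputable def cf (k : ℕ) (g : GK K) : Ω := ∏ τ : E →+* Ω, (ρ τ g : Matrix (Fin n) (Fin n) Ω).charpoly.coeff k

theorem coeff_charpoly_map {A B : Type} [CommRing A] [CommRing B] (f : A →+* B)
    (M : Matrix (Fin n) (Fin n) A) (k : ℕ) :
    f (M.charpoly.coeff k) = (M.map f).charpoly.coeff k := by
  rw [Matrix.charpoly_map, coeff_map]

theorem coeff_mem (A : Subalgebra Ω (GK K → Ω)) (M : GK K → Matrix (Fin n) (Fin n) Ω)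
    (hM : ∀ i j, (fun g => M g i j) ∈ A) (k : ℕ) : (fun g => (M g).charpoly.coeff k) ∈ A := by
  let M' : Matrix (Fin n) (Fin n) A := fun i j => ⟨_, hM i j⟩
  have h2 : (fun g => (M g).charpoly.coeff k) = ((M'.charpoly.coeff k : A) : GK K → Ω) := by
    funext g
    let ev : A →+* Ω := (Pi.evalRingHom (fun _ : GK K => Ω) g).comp A.val.toRingHom
    have h3 : M'.map ev = M g := rfl
    have h4 := coeff_charpoly_map ev M' k
    rw [h3] at h4
    exact h4.symm
  rw [h2]
  exact (M'.charpoly.coeff k).2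

theorem prod_fun_mem (A : Subalgebra Ω (GK K → Ω)) {ι : Type} (s : Finset ι) (f : ι → GK K → Ω)
    (hf : ∀ i ∈ s, f i ∈ A) : (fun g => ∏ i ∈ s, f i g) ∈ A := by
  have h : (fun g => ∏ i ∈ s, f i g) = ∏ i ∈ s, f i := by
    funext g
    rw [Finset.prod_apply]
  rw [h]
  exact A.prod_mem hf

theorem cf_mem (k : ℕ) : (fun g => cf ρ k g) ∈ FA ρ χ :=
  prod_fun_mem (FA ρ χ) Finset.univ
    (fun (τ : E →+* Ω) g => (ρ τ g : Matrix (Fin n) (Fin n) Ω).charpoly.coeff k)
    (fun τ _ => coeff_mem (FA ρ χ) (fun g => (ρ τ g : Matrix (Fin n) (Fin n) Ω)) (entry_mem ρ χ τ) k)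

theorem charpoly_conj (f : GK K →* Matrix.GeneralLinearGroup (Fin n) Ω) (σ τ : GK K) :
    (f (τ * σ * τ⁻¹) : Matrix (Fin n) (Fin n) Ω).charpoly = (f σ : Matrix (Fin n) (Fin n) Ω).charpoly := by
  have h : (f (τ * σ * τ⁻¹) : Matrix (Fin n) (Fin n) Ω) =
      (f τ).val * (f σ).val * (f τ)⁻¹.val := by
    rw [map_mul, map_mul, map_inv, Units.val_mul, Units.val_mul]
  rw [h, Matrix.coe_units_inv, Matrix.charpoly_units_conj]

theorem cf_conj (k : ℕ) (σ τ : GK K) : cf ρ k (τ * σ * τ⁻¹) = cf ρ k σ := by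
  unfold cf
  apply Finset.prod_congr rfl
  intro η _
  rw [charpoly_conj]

theorem cf_one (k : ℕ) : cf ρ k 1 ^ 2 = ((n.choose k) ^ (2 * Fintype.card (E →+* Ω)) : ℕ) := by
  unfold cf
  rw [← Finset.prod_pow]
  have h : ∀ τ ∈ (Finset.univ : Finset (E →+* Ω)),
      ((ρ τ 1 : Matrix (Fin n) (Fin n) Ω).charpoly.coeff k) ^ 2 = ((n.choose k : ℕ) : Ω) ^ 2 := by
    intro τ _
    rw [map_one, Units.val_one, Matrix.charpoly_one, Fintype.card_fin,
      show (X - 1 : Polynomial Ω) = X + C (-1) by rw [C_neg, C_1, sub_eq_add_neg], coeff_X_add_C_pow, mul_pow,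
      ← pow_mul, mul_comm (n - k) 2, pow_mul, neg_one_sq, one_pow, one_mul]
  rw [Finset.prod_congr rfl h, Finset.prod_const, Finset.card_univ, ← pow_mul]
  push_cast
  rfl

end Pool.Agent.W528.Ord
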