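import Pool.Agent.W528.Ord.Orbit

/-! Almost all primes with admissible Frobenius elements are ordinary. -/

set_option autoImplicit false
set_option linter.all false

namespace Pool.Agent.W528.Ord

open NumberField IsDedekindDomain Polynomial Filter Topology
open Pool.Agent.W401.Cheb

section dens

variable {K : Type} [Field K] [NumberField K]

theorem dens_biUnion {β : Type} (s : Finset β) (Q : β → HeightOneSpectrum (𝓞 K) → Prop)
    (h : ∀ b ∈ s, Tendsto (dens (Q b)) atTop (𝓝 0)) :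
    Tendsto (dens fun v => ∃ b ∈ s, Q b v) atTop (𝓝 0) := by
  classical
  induction s using Finset.induction_on with
  | empty =>
    have : (dens fun v : HeightOneSpectrum (𝓞 K) => ∃ b ∈ (∅ : Finset β), Q b v) = fun _ => 0 := by
      funext N
      unfold dens
      have : IsEmpty {v : HeightOneSpectrum (𝓞 K) // Ideal.absNorm v.asIdeal ≤ N ∧
          ∃ b ∈ (∅ : Finset β), Q b v} := ⟨by rintro ⟨v, _, b, hb, _⟩; simp at hb⟩
      rw [Nat.card_of_isEmpty, Nat.cast_zero, zero_div]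
    rw [this]
    exact tendsto_const_nhds
  | insert a s ha ih =>
    have h1 := ih (fun b hb => h b (Finset.mem_insert_of_mem hb))
    have h2 := h a (Finset.mem_insert_self a s)
    have h3 := h2.add h1
    rw [add_zero] at h3
    refine squeeze_zero (fun N => dens_nonneg _ _) (fun N => ?_) h3
    refine le_trans (dens_mono ?_ N) (dens_or _ _ N)
    rintro v ⟨b, hb, hv⟩
    rcases Finset.mem_insert.mp hb with rfl | hb
    · exact Or.inl hv
    · exact Or.inr ⟨b, hb, hv⟩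

theorem dens_finite (P : HeightOneSpectrum (𝓞 K) → Prop) (hf : {v | P v}.Finite) :
    Tendsto (dens P) atTop (𝓝 0) := by
  refine squeeze_zero (fun N => dens_nonneg _ _) (fun N => ?_)
    (Pool.Agent.W352.ChAbs.const_div_pi ({v | P v}.ncard : ℝ))
  unfold dens
  apply div_le_div_of_nonneg_right _ (Nat.cast_nonneg _)
  have : {v : HeightOneSpectrum (𝓞 K) | Ideal.absNorm v.asIdeal ≤ N ∧ P v} ⊆ {v | P v} :=
    fun v hv => hv.2
  exact_mod_cast Set.ncard_le_ncard this hf

theorem finite_norm_mem (S : Finset ℕ) :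
    {v : HeightOneSpectrum (𝓞 K) | Ideal.absNorm v.asIdeal ∈ S}.Finite := by
  refine (Pool.Agent.W352.ChAbs.finite_le (K := K) (S.sup id)).subset ?_
  intro v hv
  exact Finset.le_sup (f := id) hv

theorem dens_true : Tendsto (dens fun _ : HeightOneSpectrum (𝓞 K) => True) atTop (𝓝 1) := by
  have h := chebK K ⊤ isOpen_univ Set.univ (fun _ _ _ => Set.mem_univ _) (fun _ _ _ _ => Set.mem_univ _)
  have h1 : ((QuotientGroup.mk : GK K → GK K ⧸ (⊤ : Subgroup (GK K))) '' Set.univ) = Set.univ := by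
    rw [Set.image_univ]
    exact Set.range_eq_univ.mpr QuotientGroup.mk_surjective
  rw [h1, Set.ncard_univ, div_self (by
    have : Subsingleton (GK K ⧸ (⊤ : Subgroup (GK K))) := QuotientGroup.subsingleton_quotient_top
    have : Nat.card (GK K ⧸ (⊤ : Subgroup (GK K))) = 1 := Nat.card_unique
    rw [this]; norm_num)] at h
  have h2 : (fun v : HeightOneSpectrum (𝓞 K) => ∃ σ ∈ (Set.univ : Set (GK K)), IsFrob v σ) =
      fun _ => True := by
    funext v
    apply propext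
    constructor
    · intro _; trivial
    · intro _
      obtain ⟨σ, hσ⟩ := exists_isFrob v
      exact ⟨σ, Set.mem_univ _, hσ⟩
  rwa [h2] at h

theorem exists_good (S : Finset ℕ) : ∃ v : HeightOneSpectrum (𝓞 K),
    (Ideal.absNorm v.asIdeal).Prime ∧ Ideal.absNorm v.asIdeal ∉ S := by
  by_contra hcon
  push Not at hcon
  have h1 := (dens_not_prime (K := K)).add (dens_finite _ (finite_norm_mem (K := K) S))
  rw [add_zero] at h1
  have h2 : Tendsto (dens fun _ : HeightOneSpectrum (𝓞 K) => True) atTop (𝓝 0) := by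
    refine squeeze_zero (fun N => dens_nonneg _ _) (fun N => ?_) h1
    refine le_trans (dens_mono ?_ N) (dens_or _ _ N)
    intro v _
    by_cases hv : (Ideal.absNorm v.asIdeal).Prime
    · exact Or.inr (hcon v hv)
    · exact Or.inl hv
  exact zero_ne_one (tendsto_nhds_unique h2 dens_true)

end dens

section trailing

theorem trailing_prod {κ ι : Type*} [Field κ] (s : Finset ι) (f : ι → Polynomial κ) (a : ι → ℕ)
    (h : ∀ i ∈ s, f i ≠ 0 ∧ (f i).natTrailingDegree = a i) :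
    (∏ i ∈ s, f i) ≠ 0 ∧ (∏ i ∈ s, f i).natTrailingDegree = ∑ i ∈ s, a i := by
  classical
  induction s using Finset.induction_on with
  | empty => exact ⟨one_ne_zero, natTrailingDegree_one⟩
  | insert b s hb ih =>
    obtain ⟨h1, h2⟩ := ih (fun i hi => h i (Finset.mem_insert_of_mem hi))
    obtain ⟨h3, h4⟩ := h b (Finset.mem_insert_self b s)
    rw [Finset.prod_insert hb, Finset.sum_insert hb]
    exact ⟨mul_ne_zero h3 h1, by rw [natTrailingDegree_mul h3 h1, h2, h4]⟩

theorem trailing_pow {κ : Type*} [Field κ] (f : Polynomial κ) (a m : ℕ) (h : f ≠ 0)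
    (ha : f.natTrailingDegree = a) : f ^ m ≠ 0 ∧ (f ^ m).natTrailingDegree = m * a := by
  have := trailing_prod (Finset.range m) (fun _ => f) (fun _ => a) (fun _ _ => ⟨h, ha⟩)
  simpa using this

end trailing

namespace MultSystem

variable {K : Type} [Field K] [NumberField K] {ℓ : ℕ} [Fact ℓ.Prime]

theorem mem_of_dvd {Q : Ideal (𝓞 (AlgebraicClosure K))} (hQ : Q.IsMaximal) {p : ℕ}
    (hp : (p : 𝓞 (AlgebraicClosure K)) ∈ Q) {x : 𝓞 (AlgebraicClosure K)} (h : LocDvd Q p 1 x) : x ∈ Q := by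
  obtain ⟨s, hs, h⟩ := h
  rw [pow_one] at h
  exact (hQ.isPrime.mem_or_mem (Q.mem_of_dvd h hp)).resolve_left hs

section fixed

variable {A : MultSystem K ℓ} {χ : GK K →* (PadicAlgCl ℓ)ˣ} {S : Finset ℕ} (hA : A.IsAbelian χ S)
  {v : HeightOneSpectrum (𝓞 K)} (hv : (Ideal.absNorm v.asIdeal).Prime) (hvS : Ideal.absNorm v.asIdeal ∉ S)
  {Q : Ideal (𝓞 (AlgebraicClosure K))} (hQ : Q.IsMaximal)
  (hQv : Q.comap (algebraMap (𝓞 K) (𝓞 (AlgebraicClosure K))) = v.asIdeal)

include hA hv hvS hQ hQv in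
theorem trailing_of_ord (σ : A.E →+* AlgebraicClosure K)
    (hno : 0 < A.r σ → A.r σ < A.n → ¬ LocDvd Q (Ideal.absNorm v.asIdeal) 1 (A.cof v (A.n - A.r σ) σ)) :
    letI := Ideal.Quotient.field Q
    ((A.P v).map ((Ideal.Quotient.mk Q).comp (RingOfIntegers.mapRingHom σ))) ≠ 0 ∧
      ((A.P v).map ((Ideal.Quotient.mk Q).comp (RingOfIntegers.mapRingHom σ))).natTrailingDegree =
        A.n - A.r σ := by
  letI := Ideal.Quotient.field Q
  haveI := hQ.isPrime
  have hp := norm_mem hv hQv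
  obtain ⟨hm, hn⟩ := hA.monic v hv hvS
  have hrle := hA.r_le σ
  have hco : ∀ j, ((A.P v).map ((Ideal.Quotient.mk Q).comp (RingOfIntegers.mapRingHom σ))).coeff j =
      Ideal.Quotient.mk Q (A.cof v j σ) := by
    intro j
    rw [coeff_map]
    rfl
  have hne : ((A.P v).map ((Ideal.Quotient.mk Q).comp (RingOfIntegers.mapRingHom σ))) ≠ 0 :=
    (hm.map _).ne_zero
  refine ⟨hne, ?_⟩
  have hlow : ∀ j < A.n - A.r σ,
      ((A.P v).map ((Ideal.Quotient.mk Q).comp (RingOfIntegers.mapRingHom σ))).coeff j = 0 := by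
    intro j hj
    rw [hco, Ideal.Quotient.eq_zero_iff_mem]
    have h1 := (hA.mazur v hv hvS Q hQ hQv σ).1 (A.n - j) (by omega)
    rw [show A.n - (A.n - j) = j by omega] at h1
    exact mem_of_dvd hQ hp (h1.mono (by omega))
  have hat : ((A.P v).map ((Ideal.Quotient.mk Q).comp (RingOfIntegers.mapRingHom σ))).coeff
      (A.n - A.r σ) ≠ 0 := by
    rw [hco, Ne, Ideal.Quotient.eq_zero_iff_mem]
    intro hmem
    rcases Nat.eq_zero_or_pos (A.r σ) with h0 | h0
    · have h1 : A.cof v (A.n - A.r σ) σ = 1 := by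
        unfold cof
        rw [h0, Nat.sub_zero, ← hn, hm.coeff_natDegree, map_one]
      rw [h1] at hmem
      exact hQ.ne_top ((Ideal.eq_top_iff_one _).mpr hmem)
    · rcases lt_or_eq_of_le hrle with hlt | heq
      · apply hno h0 hlt
        apply dichotomy σ Q _ hv hp (hA.unram _ hv hvS)
        · exact LocDvd.zero _ _
        · rintro ⟨s, t, hs, ht, e⟩
          rw [pow_zero, mul_one] at e
          exact ht (e ▸ Q.mul_mem_left s hmem)
      · obtain ⟨s, t, hs, ht, e⟩ := (hA.mazur v hv hvS Q hQ hQv σ).2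
        rw [heq, Nat.sub_self, pow_zero, mul_one] at e
        rw [heq, Nat.sub_self] at hmem
        exact ht (e ▸ Q.mul_mem_left s hmem)
  apply le_antisymm
  · exact natTrailingDegree_le_of_ne_zero hat
  · by_contra hlt
    have h1 := hlow _ (not_le.mp hlt)
    have h2 : trailingCoeff ((A.P v).map ((Ideal.Quotient.mk Q).comp (RingOfIntegers.mapRingHom σ))) = 0 := h1
    exact hne (trailingCoeff_eq_zero.mp h2)

include hA hv hvS hQ hQv in
theorem sum_r : 2 * ∑ σ : A.E →+* AlgebraicClosure K, (A.n - A.r σ) = A.n * Module.finrank ℚ A.E := by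
  have h1 : ∑ σ : A.E →+* AlgebraicClosure K, (A.n - A.r (σ.comp (A.conj : A.E →+* A.E))) =
      ∑ σ : A.E →+* AlgebraicClosure K, (A.n - A.r σ) := by
    have hinv : ∀ σ : A.E →+* AlgebraicClosure K,
        (σ.comp (A.conj : A.E →+* A.E)).comp (A.conj.symm : A.E →+* A.E) = σ := by
      intro σ; ext x; simp
    have hinv' : ∀ σ : A.E →+* AlgebraicClosure K,
        (σ.comp (A.conj.symm : A.E →+* A.E)).comp (A.conj : A.E →+* A.E) = σ := by
      intro σ; ext x; simp
    let e : (A.E →+* AlgebraicClosure K) ≃ (A.E →+* AlgebraicClosure K) :=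
      ⟨fun σ => σ.comp (A.conj : A.E →+* A.E), fun σ => σ.comp (A.conj.symm : A.E →+* A.E), hinv, hinv'⟩
    exact Fintype.sum_equiv e _ _ (fun σ => rfl)
  have h2 : ∀ σ : A.E →+* AlgebraicClosure K,
      (A.n - A.r σ) + (A.n - A.r (σ.comp (A.conj : A.E →+* A.E))) = A.n := by
    intro σ
    have := r_conj hA hv hvS hQ hQv σ
    have := hA.r_le σ
    omega
  calc 2 * ∑ σ : A.E →+* AlgebraicClosure K, (A.n - A.r σ)
      = ∑ σ : A.E →+* AlgebraicClosure K, ((A.n - A.r σ) + (A.n - A.r (σ.comp (A.conj : A.E →+* A.E)))) := by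
        rw [Finset.sum_add_distrib, h1]; ring
    _ = ∑ σ : A.E →+* AlgebraicClosure K, A.n := Finset.sum_congr rfl (fun σ _ => h2 σ)
    _ = _ := by
        rw [Finset.sum_const, Finset.card_univ, NumberField.Embeddings.card, smul_eq_mul, mul_comm]

end fixed

section family

variable {ι : Type} [Fintype ι] (A : ι → MultSystem K ℓ) (m : ι → ℕ) (χ : GK K →* (PadicAlgCl ℓ)ˣ)
  (S : Finset ℕ) (hA : ∀ i, (A i).IsAbelian χ S) (g : ℕ)
  (hg : 2 * g = ∑ i, m i * ((A i).n * Module.finrank ℚ (A i).E))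

include hA hg in
theorem ordinary_of {v : HeightOneSpectrum (𝓞 K)} (hv : (Ideal.absNorm v.asIdeal).Prime)
    (hvS : Ideal.absNorm v.asIdeal ∉ S) {Q : Ideal (𝓞 (AlgebraicClosure K))} (hQ : Q.IsMaximal)
    (hQv : Q.comap (algebraMap (𝓞 K) (𝓞 (AlgebraicClosure K))) = v.asIdeal) (G : Polynomial ℤ)
    (hG : G.map (Int.castRingHom (AlgebraicClosure K)) = ∏ i, ∏ σ : (A i).E →+* AlgebraicClosure K,
      ((((A i).P v).map (σ.comp (algebraMap (𝓞 (A i).E) (A i).E))) ^ m i))
    (hno : ∀ i, ∀ σ : (A i).E →+* AlgebraicClosure K, 0 < (A i).r σ → (A i).r σ < (A i).n →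
      ¬ LocDvd Q (Ideal.absNorm v.asIdeal) 1 ((A i).cof v ((A i).n - (A i).r σ) σ)) :
    ¬ ((Ideal.absNorm v.asIdeal : ℤ) ∣ G.coeff g) := by
  letI := Ideal.Quotient.field Q
  haveI := hQ.isPrime
  have hp := norm_mem hv hQv
  -- over the integers
  have hG' : G.map (Int.castRingHom (𝓞 (AlgebraicClosure K))) =
      ∏ i, ∏ σ : (A i).E →+* AlgebraicClosure K,
      ((((A i).P v).map (RingOfIntegers.mapRingHom σ)) ^ m i) := by
    apply Polynomial.map_injective (algebraMap (𝓞 (AlgebraicClosure K)) (AlgebraicClosure K))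
      (RingOfIntegers.coe_injective)
    rw [Polynomial.map_map, Polynomial.map_prod]
    have e1 : (algebraMap (𝓞 (AlgebraicClosure K)) (AlgebraicClosure K)).comp
        (Int.castRingHom (𝓞 (AlgebraicClosure K))) = Int.castRingHom (AlgebraicClosure K) :=
      RingHom.ext_int _ _
    rw [e1, hG]
    apply Finset.prod_congr rfl
    intro i _
    rw [Polynomial.map_prod]
    apply Finset.prod_congr rfl
    intro σ _
    rw [Polynomial.map_pow, Polynomial.map_map]
    rfl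
  have hG2 : G.map (Int.castRingHom (𝓞 (AlgebraicClosure K) ⧸ Q)) =
      ∏ i, ∏ σ : (A i).E →+* AlgebraicClosure K,
      ((((A i).P v).map ((Ideal.Quotient.mk Q).comp (RingOfIntegers.mapRingHom σ))) ^ m i) := by
    have e1 : (Ideal.Quotient.mk Q).comp
        (Int.castRingHom (𝓞 (AlgebraicClosure K))) = Int.castRingHom (𝓞 (AlgebraicClosure K) ⧸ Q) :=
      RingHom.ext_int _ _
    rw [← e1, ← Polynomial.map_map, hG', Polynomial.map_prod]
    apply Finset.prod_congr rfl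
    intro i _
    rw [Polynomial.map_prod]
    apply Finset.prod_congr rfl
    intro σ _
    rw [Polynomial.map_pow, Polynomial.map_map]
  have h1 := trailing_prod (Finset.univ : Finset ι)
    (fun i => ∏ σ : (A i).E →+* AlgebraicClosure K,
      ((((A i).P v).map ((Ideal.Quotient.mk Q).comp (RingOfIntegers.mapRingHom σ))) ^ m i))
    (fun i => ∑ σ : (A i).E →+* AlgebraicClosure K, m i * ((A i).n - (A i).r σ))
    (fun i _ => trailing_prod _ _ _ (fun σ _ => by
      obtain ⟨ha, hb⟩ := trailing_of_ord (hA i) hv hvS hQ hQv σ (hno i σ)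
      exact trailing_pow _ _ _ ha hb))
  have hsum : ∑ i, ∑ σ : (A i).E →+* AlgebraicClosure K, m i * ((A i).n - (A i).r σ) = g := by
    have : 2 * ∑ i, ∑ σ : (A i).E →+* AlgebraicClosure K, m i * ((A i).n - (A i).r σ) = 2 * g := by
      rw [hg, Finset.mul_sum]
      apply Finset.sum_congr rfl
      intro i _
      rw [← Finset.mul_sum, mul_left_comm, sum_r (hA i) hv hvS hQ hQv]
    omega
  rw [hsum, ← hG2] at h1
  intro hdvd
  obtain ⟨h2, h3⟩ := h1
  have h4 : (G.map (Int.castRingHom (𝓞 (AlgebraicClosure K) ⧸ Q))).coeff g = 0 := by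
    rw [coeff_map]
    obtain ⟨c, hc⟩ := hdvd
    rw [hc, map_mul]
    have : (Int.castRingHom (𝓞 (AlgebraicClosure K) ⧸ Q)) (Ideal.absNorm v.asIdeal : ℤ) = 0 := by
      have := Ideal.Quotient.eq_zero_iff_mem.mpr hp
      rw [map_natCast] at this
      rw [map_natCast]
      exact this
    rw [this, zero_mul]
  have h5 : trailingCoeff (G.map (Int.castRingHom (𝓞 (AlgebraicClosure K) ⧸ Q))) = 0 := by
    rw [trailingCoeff, h3]
    exact h4
  exact h2 (trailingCoeff_eq_zero.mp h5)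

end family

/-- there is a Frobenius polynomial which is not a power of a linear polynomial -/
theorem nonscalar {A : MultSystem K ℓ} {χ : GK K →* (PadicAlgCl ℓ)ˣ} {S : Finset ℕ} (hA : A.IsAbelian χ S)
    (σ₀ : A.E →+* AlgebraicClosure K) (h0 : 0 < A.r σ₀) (h1 : A.r σ₀ < A.n) :
    ∃ v : HeightOneSpectrum (𝓞 K), ((Ideal.absNorm v.asIdeal).Prime ∧ Ideal.absNorm v.asIdeal ∉ S) ∧
      ∃ τ : A.E →+* ℂ, ∀ α : ℂ, (A.P v).map (τ.comp (algebraMap (𝓞 A.E) A.E)) ≠ (X - C α) ^ A.n := by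
  obtain ⟨v, hv, hvS⟩ := exists_good (K := K) S
  obtain ⟨τ⟩ : Nonempty (A.E →+* ℂ) := inferInstance
  refine ⟨v, ⟨hv, hvS⟩, τ, ?_⟩
  intro α hα
  obtain ⟨hm, hn⟩ := hA.monic v hv hvS
  obtain ⟨a, ha⟩ := scalar_descent (A.P v) A.n (by omega) hm hn τ α hα
  obtain ⟨γ, Q, hQ, hQv, -⟩ := exists_isFrob v
  haveI := hQ.isPrime
  have hp := norm_mem hv hQv
  have hdet := (hA.mazur v hv hvS Q hQ hQv σ₀).2
  have hco : A.cof v 0 σ₀ = (RingOfIntegers.mapRingHom σ₀ (-a)) ^ A.n := by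
    unfold cof
    rw [ha, ← map_pow]
    congr 1
    rw [sub_eq_add_neg, ← C_neg, coeff_X_add_C_pow, Nat.choose_zero_right, Nat.cast_one, mul_one,
      Nat.sub_zero]
  rw [hco] at hdet
  have ha0 : -a ≠ 0 := by
    intro h
    rw [h, map_zero, zero_pow (by omega)] at hdet
    obtain ⟨s, t, hs, ht, e⟩ := hdet
    rw [mul_zero] at e
    have hp0 : (Ideal.absNorm v.asIdeal : 𝓞 (AlgebraicClosure K)) ≠ 0 := by exact_mod_cast hv.ne_zero
    rcases mul_eq_zero.mp e.symm with h | h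
    · exact ht (h ▸ Q.zero_mem)
    · exact pow_ne_zero _ hp0 h
  obtain ⟨m, hm'⟩ := exists_locEq σ₀ Q _ hv hp (hA.unram _ hv hvS) (-a) ha0
  have h2 := (hm'.pow A.n).unique hv hp hdet
  rcases Nat.eq_zero_or_pos m with h | h
  · rw [h, mul_zero] at h2
    omega
  · have : A.n ≤ A.n * m := Nat.le_mul_of_pos_right _ h
    omega

/-- **Almost all primes with an admissible Frobenius element are ordinary** -/
theorem main_K {ι : Type} [Fintype ι] (A : ι → MultSystem K ℓ) (m : ι → ℕ) (χ : GK K →* (PadicAlgCl ℓ)ˣ)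
    (S : Finset ℕ) (hA : ∀ i, (A i).IsAbelian χ S) (g : ℕ)
    (hg : 2 * g = ∑ i, m i * ((A i).n * Module.finrank ℚ (A i).E))
    (G : HeightOneSpectrum (𝓞 K) → Polynomial ℤ)
    (hG : ∀ v : HeightOneSpectrum (𝓞 K), (Ideal.absNorm v.asIdeal).Prime → Ideal.absNorm v.asIdeal ∉ S →
      (G v).map (Int.castRingHom (AlgebraicClosure K)) = ∏ i, ∏ σ : (A i).E →+* AlgebraicClosure K,
      ((((A i).P v).map (σ.comp (algebraMap (𝓞 (A i).E) (A i).E))) ^ m i)) :
    Tendsto (dens fun v : HeightOneSpectrum (𝓞 K) => ((Ideal.absNorm v.asIdeal).Prime ∧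
      Ideal.absNorm v.asIdeal ∉ S) ∧ (∃ γ : GK K, IsFrob v γ ∧ ∀ i, (A i).Admissible γ) ∧
      (Ideal.absNorm v.asIdeal : ℤ) ∣ (G v).coeff g) atTop (𝓝 0) := by
  classical
  -- the bad sets
  let bad : (Σ i : ι, ℕ) → HeightOneSpectrum (𝓞 K) → Prop := fun x v =>
    ((Ideal.absNorm v.asIdeal).Prime ∧ Ideal.absNorm v.asIdeal ∉ S) ∧
      ∃ (Q : Ideal (𝓞 (AlgebraicClosure K))) (γ : GK K) (σ₀ : (A x.1).E →+* AlgebraicClosure K),
        Q.IsMaximal ∧ Q.comap (algebraMap (𝓞 K) (𝓞 (AlgebraicClosure K))) = v.asIdeal ∧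
        (∀ y : 𝓞 (AlgebraicClosure K), γ • y - y ^ Ideal.absNorm v.asIdeal ∈ Q) ∧
        (A x.1).Admissible γ ∧ (A x.1).r σ₀ = x.2 ∧ 0 < x.2 ∧ x.2 < (A x.1).n ∧
        LocDvd Q (Ideal.absNorm v.asIdeal) 1 ((A x.1).cof v ((A x.1).n - x.2) σ₀)
  have hbad : ∀ x, Tendsto (dens (bad x)) atTop (𝓝 0) := by
    rintro ⟨i, k⟩
    by_cases hex : 0 < k ∧ k < (A i).n ∧ ∃ σ₀ : (A i).E →+* AlgebraicClosure K, (A i).r σ₀ = k
    · obtain ⟨hk0, hkn, σ₀, hσ₀⟩ := hex
      have hns := nonscalar (hA i) σ₀ (by omega) (by omega)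
      refine engine (A i).ρ χ (hA i).cont (hA i).contχ (hA i).connected k 1 hk0 hkn (A i).P
        (fun v => (Ideal.absNorm v.asIdeal).Prime ∧ Ideal.absNorm v.asIdeal ∉ S)
        (fun v hv => hv.1) (fun v hv => ((hA i).monic v hv.1 hv.2).1)
        (fun v hv => ((hA i).monic v hv.1 hv.2).2)
        (fun v hv τ α h => by rw [pow_one]; exact (hA i).weil v hv.1 hv.2 τ α h)
        (fun v hv σ hσ τ => ((hA i).frob v hv.1 hv.2 σ hσ).2 τ)
        (fun v hv σ hσ => ((hA i).frob v hv.1 hv.2 σ hσ).1) hns _ ?_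
      rintro v hv ⟨Q, γ, σ₁, hQ, hQv, hγ, hadm, hr, -, -, hd⟩
      have hr' : (A i).r σ₁ = k := hr
      have h := norm_dvd (hA i) hv.1 hv.2 hQ hQv hγ hadm σ₁ (by rw [hr']; exact hk0)
        (by rw [hr']; exact hkn) (by rw [hr']; exact hd)
      rw [hr'] at h
      exact h
    · have : bad ⟨i, k⟩ = fun _ => False := by
        funext v
        apply propext
        constructor
        · rintro ⟨-, Q, γ, σ₁, -, -, -, -, hr, h0, h1, -⟩
          exact hex ⟨h0, h1, σ₁, hr⟩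
        · exact False.elim
      rw [this]
      exact dens_finite _ (by simp)
  have hun := dens_biUnion (Finset.univ.sigma (fun i : ι => Finset.range (A i).n)) bad (fun x _ => hbad x)
  refine squeeze_zero (fun N => dens_nonneg _ _) (fun N => dens_mono ?_ N) hun
  rintro v ⟨hv, ⟨γ, ⟨Q, hQ, hQv, hγ⟩, hadm⟩, hdvd⟩
  by_contra hcon
  apply ordinary_of A m χ S hA g hg hv.1 hv.2 hQ hQv (G v) (hG v hv.1 hv.2) _ hdvd
  intro i σ h0 h1 hd
  apply hcon
  refine ⟨⟨i, (A i).r σ⟩, ?_, hv, Q, γ, σ, hQ, hQv, hγ, hadm i, rfl, h0, h1, hd⟩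
  rw [Finset.mem_sigma]
  exact ⟨Finset.mem_univ _, Finset.mem_range.mpr h1⟩

end MultSystem

end Pool.Agent.W528.Ord
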