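import Pool.Agent.W528.Ord.Main1

/-! Positive lower density of the ordinary primes. -/

set_option autoImplicit false
set_option linter.all false

namespace Pool.Agent.W528.Ord

open NumberField IsDedekindDomain Polynomial Filter Topology
open Pool.Agent.W401.Cheb

/-- the proportion of the places `v` with `N v ≤ N` which satisfy `P` -/
noncomputable def ratio {K : Type} [Field K] [NumberField K] (P : HeightOneSpectrum (𝓞 K) → Prop)
    (N : ℕ) : ℝ :=
  (Nat.card {v : HeightOneSpectrum (𝓞 K) // Ideal.absNorm v.asIdeal ≤ N ∧ P v} : ℝ) /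
    (Nat.card {v : HeightOneSpectrum (𝓞 K) // Ideal.absNorm v.asIdeal ≤ N} : ℝ)

section

variable {K : Type} [Field K] [NumberField K]

theorem card_le_finite (N : ℕ) (P : HeightOneSpectrum (𝓞 K) → Prop) :
    Nat.card {v : HeightOneSpectrum (𝓞 K) // Ideal.absNorm v.asIdeal ≤ N ∧ P v} ≤
    Nat.card {v : HeightOneSpectrum (𝓞 K) // Ideal.absNorm v.asIdeal ≤ N} := by
  have hsub : {v : HeightOneSpectrum (𝓞 K) | Ideal.absNorm v.asIdeal ≤ N ∧ P v} ⊆
      {v : HeightOneSpectrum (𝓞 K) | Ideal.absNorm v.asIdeal ≤ N} := fun v hv => hv.1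
  exact Set.ncard_le_ncard hsub (Pool.Agent.W352.ChAbs.finite_le (K := K) N)

theorem ratio_le_one (P : HeightOneSpectrum (𝓞 K) → Prop) (N : ℕ) : ratio P N ≤ 1 := by
  unfold ratio
  apply div_le_one_of_le₀
  · exact_mod_cast card_le_finite N P
  · exact Nat.cast_nonneg _

theorem ratio_nonneg (P : HeightOneSpectrum (𝓞 K) → Prop) (N : ℕ) : 0 ≤ ratio P N := by
  unfold ratio
  positivity

theorem dens_true' : Tendsto (fun N : ℕ =>
    (Nat.card {v : HeightOneSpectrum (𝓞 K) // Ideal.absNorm v.asIdeal ≤ N} : ℝ) /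
    (Nat.primeCounting N : ℝ)) atTop (𝓝 1) := by
  have h := dens_true (K := K)
  refine h.congr ?_
  intro N
  unfold dens
  congr 3
  simp

/-- the ratio and the density agree asymptotically -/
theorem ratio_eq (P : HeightOneSpectrum (𝓞 K) → Prop) : ∀ᶠ N : ℕ in atTop,
    ratio P N = dens P N / ((Nat.card {v : HeightOneSpectrum (𝓞 K) // Ideal.absNorm v.asIdeal ≤ N} : ℝ) /
    (Nat.primeCounting N : ℝ)) := by
  filter_upwards [eventually_ge_atTop 2] with N hN
  unfold ratio dens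
  have h : (Nat.primeCounting N : ℝ) ≠ 0 := by
    have : 0 < Nat.primeCounting N := by
      have h1 := Nat.monotone_primeCounting hN
      have h2 : Nat.primeCounting 2 = 1 := by decide
      omega
    exact_mod_cast this.ne'
  rw [div_div_div_cancel_right₀ h]

theorem ratio_tendsto (P : HeightOneSpectrum (𝓞 K) → Prop) (c : ℝ) (h : Tendsto (dens P) atTop (𝓝 c)) :
    Tendsto (ratio P) atTop (𝓝 c) := by
  have h1 := h.div (dens_true' (K := K)) one_ne_zero
  rw [div_one] at h1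
  refine h1.congr' ?_
  filter_upwards [ratio_eq P] with N hN
  rw [hN]
  rfl

end

namespace MultSystem

variable {K : Type} [Field K] [NumberField K] {ℓ : ℕ} [Fact ℓ.Prime]

theorem mv_inj {E : Type} [Field E] (γ : GK K) : Function.Injective (mv γ : (E →+* AlgebraicClosure K) → _) := by
  intro σ σ' h
  have h1 := congrArg (mv γ⁻¹) h
  rwa [← mv_mul, ← mv_mul, inv_mul_cancel, mv_one, mv_one] at h1

theorem mv_fix_open {E : Type} [Field E] [NumberField E] (σ : E →+* AlgebraicClosure K) :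
    IsOpen {γ : GK K | mv γ σ = σ} := by
  classical
  let b := Module.finBasis ℚ E
  have e : {γ : GK K | mv γ σ = σ} = ⋂ i, {γ : GK K | γ (σ (b i)) = σ (b i)} := by
    ext γ
    rw [Set.mem_iInter]
    constructor
    · intro h i
      exact DFunLike.congr_fun h (b i)
    · intro h
      change mv γ σ = σ
      apply RingHom.ext
      intro x
      have hx := b.sum_repr x
      have h1 : ∀ f : E →+* AlgebraicClosure K, f x = ∑ i, (b.repr x i) • f (b i) := by
        intro f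
        conv_lhs => rw [← hx]
        rw [map_sum]
        exact Finset.sum_congr rfl fun i _ => map_rat_smul f _ _
      rw [h1, h1]
      exact Finset.sum_congr rfl fun i _ => congrArg _ (h i)
  rw [e]
  apply isOpen_iInter_of_finite
  intro i
  exact stabilizer_isOpen_of_isIntegral (K := K) (L := AlgebraicClosure K) (σ (b i))

section fam

variable {ι : Type} [Fintype ι] (A : ι → MultSystem K ℓ)

/-- elements which fix all embeddings -/
def fixU : Subgroup (GK K) where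
  carrier := {γ | ∀ i, ∀ σ : (A i).E →+* AlgebraicClosure K, mv γ σ = σ}
  mul_mem' := by
    intro a b ha hb i σ
    rw [mv_mul, hb i σ, ha i σ]
  one_mem' := fun i σ => mv_one σ
  inv_mem' := by
    intro a ha i σ
    apply mv_inj a
    rw [← mv_mul, mul_inv_cancel, mv_one, ha i σ]

theorem fixU_open : IsOpen (fixU A : Set (GK K)) := by
  have e : (fixU A : Set (GK K)) = ⋂ i, ⋂ σ : (A i).E →+* AlgebraicClosure K, {γ : GK K | mv γ σ = σ} := by
    ext γ
    simp only [Set.mem_iInter]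
    exact Iff.rfl
  rw [e]
  exact isOpen_iInter_of_finite fun i => isOpen_iInter_of_finite fun σ => mv_fix_open σ

theorem fixU_normal : (fixU A).Normal := by
  constructor
  intro a ha g i σ
  rw [mv_mul, mv_mul, ha i, ← mv_mul, mul_inv_cancel, mv_one]

theorem mv_pow_fix {i : ι} {γ u : GK K} (hu : u ∈ fixU A) (j : ℕ) (σ : (A i).E →+* AlgebraicClosure K) :
    mv ((γ * u) ^ j) σ = mv (γ ^ j) σ := by
  induction j generalizing σ with
  | zero => rw [pow_zero, pow_zero]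
  | succ j ih => rw [pow_succ, pow_succ, mv_mul, mv_mul, ih, mv_mul, hu i σ]

theorem adm_fix {i : ι} {γ u : GK K} (hu : u ∈ fixU A) (h : (A i).Admissible γ) :
    (A i).Admissible (γ * u) := by
  intro σ₀ h0 h1
  have e : (A i).orb (γ * u) σ₀ = (A i).orb γ σ₀ := by
    unfold orb
    ext σ
    simp only [Set.mem_setOf_eq, mv_pow_fix A hu]
  rw [e]
  exact h σ₀ h0 h1

theorem mv_conj_pow {E : Type} [Field E] (γ τ : GK K) (j : ℕ) (σ : E →+* AlgebraicClosure K) :
    mv ((τ * γ * τ⁻¹) ^ j) σ = mv τ (mv (γ ^ j) (mv τ⁻¹ σ)) := by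
  rw [conj_pow, mv_mul, mv_mul]

theorem mv_comp {E : Type} [Field E] (γ : GK K) (σ : E →+* AlgebraicClosure K) (c : E →+* E) :
    mv γ (σ.comp c) = (mv γ σ).comp c := by
  rw [mv, mv, RingHom.comp_assoc]

theorem adm_conj {A : MultSystem K ℓ} (hr : ∀ (γ : GK K) (σ : A.E →+* AlgebraicClosure K), A.r (mv γ σ) = A.r σ)
    {γ : GK K} (τ : GK K) (h : A.Admissible γ) : A.Admissible (τ * γ * τ⁻¹) := by
  intro σ₀ h0 h1
  have h2 := h (mv τ⁻¹ σ₀) (by rwa [hr]) (by rwa [hr])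
  have e1 : A.defect (mv τ⁻¹ σ₀) = A.defect σ₀ := by
    unfold defect
    rw [hr]
  have e2 : A.orb (τ * γ * τ⁻¹) σ₀ = mv τ '' A.orb γ (mv τ⁻¹ σ₀) := by
    ext σ
    constructor
    · rintro ⟨j, h | ⟨h2, h⟩⟩
      · refine ⟨mv (γ ^ j) (mv τ⁻¹ σ₀), ⟨j, Or.inl rfl⟩, ?_⟩
        rw [h, mv_conj_pow]
      · refine ⟨mv (γ ^ j) ((mv τ⁻¹ σ₀).comp (A.conj : A.E →+* A.E)), ⟨j, Or.inr ⟨by rw [hr]; exact h2, rfl⟩⟩, ?_⟩
        rw [h, mv_conj_pow, mv_comp τ⁻¹]
    · rintro ⟨σ', ⟨j, h | ⟨h2, h⟩⟩, rfl⟩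
      · refine ⟨j, Or.inl ?_⟩
        rw [h, mv_conj_pow]
      · refine ⟨j, Or.inr ⟨by rw [hr] at h2; exact h2, ?_⟩⟩
        rw [h, mv_conj_pow, mv_comp τ⁻¹]
  rw [e2, Set.ncard_image_of_injective _ (mv_inj τ), ← e1]
  exact h2

variable (m : ι → ℕ) (χ : GK K →* (PadicAlgCl ℓ)ˣ) (S : Finset ℕ) (hA : ∀ i, (A i).IsAbelian χ S)

include hA in
/-- the primes with an admissible Frobenius element have positive density -/
theorem adm_dens (hex : ∃ γ : GK K, ∀ i, (A i).Admissible γ) : ∃ δ : ℝ, 0 < δ ∧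
    Tendsto (dens fun v : HeightOneSpectrum (𝓞 K) => ∃ γ : GK K, IsFrob v γ ∧ ∀ i, (A i).Admissible γ)
      atTop (𝓝 δ) := by
  haveI := fixU_normal A
  haveI : Finite (GK K ⧸ fixU A) := Subgroup.quotient_finite_of_isOpen _ (fixU_open A)
  have h := chebK K (fixU A) (fixU_open A) {γ | ∀ i, (A i).Admissible γ}
    (fun σ hσ τ i => adm_conj (hA i).r_inv τ (hσ i)) (fun σ hσ u hu i => adm_fix A hu (hσ i))
  refine ⟨(((QuotientGroup.mk : GK K → GK K ⧸ fixU A) '' {γ | ∀ i, (A i).Admissible γ}).ncard : ℝ) /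
    (Nat.card (GK K ⧸ fixU A) : ℝ), ?_, ?_⟩
  · apply div_pos
    · have : 0 < ((QuotientGroup.mk : GK K → GK K ⧸ fixU A) '' {γ | ∀ i, (A i).Admissible γ}).ncard := by
        rw [Set.ncard_pos (Set.toFinite _)]
        obtain ⟨γ, hγ⟩ := hex
        exact ⟨_, γ, hγ, rfl⟩
      exact_mod_cast this
    · exact_mod_cast Nat.card_pos
  · have e : (fun v : HeightOneSpectrum (𝓞 K) => ∃ σ ∈ {γ : GK K | ∀ i, (A i).Admissible γ}, IsFrob v σ) =
        fun v => ∃ γ : GK K, IsFrob v γ ∧ ∀ i, (A i).Admissible γ := by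
      funext v
      apply propext
      constructor
      · rintro ⟨σ, h1, h2⟩
        exact ⟨σ, h2, h1⟩
      · rintro ⟨σ, h1, h2⟩
        exact ⟨σ, h2, h1⟩
    rw [e] at h
    exact h

/-- **positive lower density over `K`** -/
theorem lower_K (hex : ∃ γ : GK K, ∀ i, (A i).Admissible γ) (g : ℕ)
    (hg : 2 * g = ∑ i, m i * ((A i).n * Module.finrank ℚ (A i).E))
    (hA : ∀ i, (A i).IsAbelian χ S)
    (G : HeightOneSpectrum (𝓞 K) → Polynomial ℤ)
    (hG : ∀ v : HeightOneSpectrum (𝓞 K), (Ideal.absNorm v.asIdeal).Prime → Ideal.absNorm v.asIdeal ∉ S →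
      (G v).map (Int.castRingHom (AlgebraicClosure K)) = ∏ i, ∏ σ : (A i).E →+* AlgebraicClosure K,
      ((((A i).P v).map (σ.comp (algebraMap (𝓞 (A i).E) (A i).E))) ^ m i)) :
    ∃ δ : ℝ, 0 < δ ∧ ∀ᶠ N : ℕ in atTop, δ ≤ dens (fun v : HeightOneSpectrum (𝓞 K) =>
      ((Ideal.absNorm v.asIdeal).Prime ∧ Ideal.absNorm v.asIdeal ∉ S) ∧
      ¬ (Ideal.absNorm v.asIdeal : ℤ) ∣ (G v).coeff g) N := by
  obtain ⟨δ, hδ, hlim⟩ := adm_dens A χ S hA hex
  have h1 := main_K A m χ S hA g hg G hG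
  have h2 := dens_not_prime (K := K)
  have h3 := dens_finite _ (finite_norm_mem (K := K) S)
  refine ⟨δ / 5, by positivity, ?_⟩
  have e0 := hlim.eventually (lt_mem_nhds (show 4 * δ / 5 < δ by linarith))
  have e1 := h1.eventually (gt_mem_nhds (show (0:ℝ) < δ / 5 by positivity))
  have e2 := h2.eventually (gt_mem_nhds (show (0:ℝ) < δ / 5 by positivity))
  have e3 := h3.eventually (gt_mem_nhds (show (0:ℝ) < δ / 5 by positivity))
  filter_upwards [e0, e1, e2, e3] with N h0 h1 h2 h3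
  have hle : dens (fun v : HeightOneSpectrum (𝓞 K) => ∃ γ : GK K, IsFrob v γ ∧ ∀ i, (A i).Admissible γ) N ≤
      dens (fun v : HeightOneSpectrum (𝓞 K) =>
      ((Ideal.absNorm v.asIdeal).Prime ∧ Ideal.absNorm v.asIdeal ∉ S) ∧
      ¬ (Ideal.absNorm v.asIdeal : ℤ) ∣ (G v).coeff g) N +
      (dens (fun v : HeightOneSpectrum (𝓞 K) => ((Ideal.absNorm v.asIdeal).Prime ∧
      Ideal.absNorm v.asIdeal ∉ S) ∧ (∃ γ : GK K, IsFrob v γ ∧ ∀ i, (A i).Admissible γ) ∧
      (Ideal.absNorm v.asIdeal : ℤ) ∣ (G v).coeff g) N +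
      (dens (fun v : HeightOneSpectrum (𝓞 K) => ¬ (Ideal.absNorm v.asIdeal).Prime) N +
      dens (fun v : HeightOneSpectrum (𝓞 K) => Ideal.absNorm v.asIdeal ∈ S) N)) := by
    refine le_trans (dens_mono (Q := fun v => _ ∨ (_ ∨ (_ ∨ _))) ?_ N)
      (le_trans (dens_or _ _ N) (add_le_add_right (le_trans (dens_or _ _ N)
        (add_le_add_right (dens_or _ _ N) _)) _))
    intro v hv
    by_cases hp : (Ideal.absNorm v.asIdeal).Prime
    · by_cases hS : Ideal.absNorm v.asIdeal ∈ S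
      · exact Or.inr (Or.inr (Or.inr hS))
      · by_cases hd : (Ideal.absNorm v.asIdeal : ℤ) ∣ (G v).coeff g
        · exact Or.inr (Or.inl ⟨⟨hp, hS⟩, hv, hd⟩)
        · exact Or.inl ⟨⟨hp, hS⟩, hd⟩
    · exact Or.inr (Or.inr (Or.inl hp))
  linarith

end fam

end MultSystem

end Pool.Agent.W528.Ord
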