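import Pool.Agent.W528.Ord.Main2

/-! Descent of positive density to a subfield. -/

set_option autoImplicit false
set_option linter.all false

namespace Pool.Agent.W528.Ord

open NumberField IsDedekindDomain Polynomial Filter Topology
open Pool.Agent.W401.Cheb

section under

variable {K₀ K : Type} [Field K₀] [NumberField K₀] [Field K] [NumberField K] [Algebra K₀ K]

theorem exists_under (v : HeightOneSpectrum (𝓞 K)) (hv : (Ideal.absNorm v.asIdeal).Prime) :
    ∃ v₀ : HeightOneSpectrum (𝓞 K₀), v.asIdeal.comap (algebraMap (𝓞 K₀) (𝓞 K)) = v₀.asIdeal ∧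
      Ideal.absNorm v₀.asIdeal = Ideal.absNorm v.asIdeal := by
  haveI := v.isPrime
  have hmem : (Ideal.absNorm v.asIdeal : 𝓞 K₀) ∈ v.asIdeal.comap (algebraMap (𝓞 K₀) (𝓞 K)) := by
    rw [Ideal.mem_comap, map_natCast]
    exact Ideal.absNorm_mem _
  have hne : v.asIdeal.comap (algebraMap (𝓞 K₀) (𝓞 K)) ≠ ⊥ := by
    intro h
    rw [h, Ideal.mem_bot] at hmem
    exact hv.ne_zero (by exact_mod_cast hmem)
  let v₀ : HeightOneSpectrum (𝓞 K₀) := ⟨v.asIdeal.comap (algebraMap (𝓞 K₀) (𝓞 K)), inferInstance, hne⟩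
  refine ⟨v₀, rfl, ?_⟩
  have hinj : Function.Injective (Ideal.quotientMap v.asIdeal (algebraMap (𝓞 K₀) (𝓞 K))
      (le_refl (v.asIdeal.comap (algebraMap (𝓞 K₀) (𝓞 K))))) := Ideal.quotientMap_injective
  have hc1 : Ideal.absNorm v.asIdeal = Nat.card (𝓞 K ⧸ v.asIdeal) := by
    rw [Ideal.absNorm_apply, Submodule.cardQuot_apply]
  have hc0 : Ideal.absNorm v₀.asIdeal = Nat.card (𝓞 K₀ ⧸ v.asIdeal.comap (algebraMap (𝓞 K₀) (𝓞 K))) := by
    rw [Ideal.absNorm_apply, Submodule.cardQuot_apply]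
  have hdvd : Ideal.absNorm v₀.asIdeal ∣ Ideal.absNorm v.asIdeal := by
    rw [hc0, hc1]
    exact AddSubgroup.card_dvd_of_injective (Ideal.quotientMap v.asIdeal (algebraMap (𝓞 K₀) (𝓞 K))
      (le_refl (v.asIdeal.comap (algebraMap (𝓞 K₀) (𝓞 K))))).toAddMonoidHom hinj
  rcases (Nat.dvd_prime hv).mp hdvd with h | h
  · exfalso
    rw [Ideal.absNorm_eq_one_iff] at h
    exact v₀.isPrime.ne_top h
  · exact h

/-- counting places of degree one above and below -/
theorem dens_under (P : HeightOneSpectrum (𝓞 K) → Prop) (P₀ : HeightOneSpectrum (𝓞 K₀) → Prop)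
    (hP : ∀ v, P v → (Ideal.absNorm v.asIdeal).Prime)
    (hPP : ∀ v v₀, P v → v.asIdeal.comap (algebraMap (𝓞 K₀) (𝓞 K)) = v₀.asIdeal → P₀ v₀) (N : ℕ) :
    dens P N ≤ (Module.finrank ℚ K : ℝ) * dens P₀ N := by
  classical
  unfold dens
  rw [mul_div_assoc']
  apply div_le_div_of_nonneg_right _ (Nat.cast_nonneg _)
  have hf : {v : HeightOneSpectrum (𝓞 K) | Ideal.absNorm v.asIdeal ≤ N ∧ P v}.Finite :=
    (Pool.Agent.W352.ChAbs.finite_le (K := K) N).subset (fun v hv => hv.1)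
  have hf0 : {v : HeightOneSpectrum (𝓞 K₀) | Ideal.absNorm v.asIdeal ≤ N ∧ P₀ v}.Finite :=
    (Pool.Agent.W352.ChAbs.finite_le (K := K₀) N).subset (fun v hv => hv.1)
  obtain ⟨f, hf1⟩ : ∃ f : HeightOneSpectrum (𝓞 K) → HeightOneSpectrum (𝓞 K₀), ∀ v, P v →
      v.asIdeal.comap (algebraMap (𝓞 K₀) (𝓞 K)) = (f v).asIdeal ∧
      Ideal.absNorm (f v).asIdeal = Ideal.absNorm v.asIdeal := by
    by_cases hne : Nonempty (HeightOneSpectrum (𝓞 K₀))
    · obtain ⟨w⟩ := hne
      refine ⟨fun v => if h : P v then (exists_under (K₀ := K₀) v (hP v h)).choose else w, fun v hv => ?_⟩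
      simp only [dif_pos hv]
      exact (exists_under (K₀ := K₀) v (hP v hv)).choose_spec
    · obtain ⟨v, hv, -⟩ := exists_good (K := K₀) ∅
      exact absurd ⟨v⟩ hne
  have key : hf.toFinset.card ≤ Module.finrank ℚ K * hf0.toFinset.card := by
    have h1 : hf.toFinset.card ≤ Module.finrank ℚ K * (hf.toFinset.image f).card := by
      apply Finset.card_le_mul_card_image
      intro b hb
      obtain ⟨v, hv, rfl⟩ := Finset.mem_image.mp hb
      rw [Set.Finite.mem_toFinset] at hv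
      have hprime := hP v hv.2
      have h2 := (Pool.Agent.W352.ChAbs.over_le (K := K) _ hprime)
      refine le_trans ?_ h2.2
      rw [← Set.ncard_coe_finset]
      apply Set.ncard_le_ncard _ h2.1
      intro w hw
      rw [Finset.mem_coe, Finset.mem_filter, Set.Finite.mem_toFinset] at hw
      have e1 := (hf1 w hw.1.2).2
      have e2 := (hf1 v hv.2).2
      have e3 : Ideal.absNorm w.asIdeal = Ideal.absNorm v.asIdeal := by rw [← e1, ← e2, hw.2]
      change ((Ideal.absNorm v.asIdeal : ℕ) : 𝓞 K) ∈ w.asIdeal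
      rw [← e3]
      exact Ideal.absNorm_mem _
    refine h1.trans (Nat.mul_le_mul_left _ (Finset.card_le_card ?_))
    intro b hb
    obtain ⟨v, hv, rfl⟩ := Finset.mem_image.mp hb
    rw [Set.Finite.mem_toFinset] at hv ⊢
    exact ⟨by rw [(hf1 v hv.2).2]; exact hv.1, hPP v _ hv.2 (hf1 v hv.2).1⟩
  have e1 : Nat.card {v : HeightOneSpectrum (𝓞 K) // Ideal.absNorm v.asIdeal ≤ N ∧ P v} =
      hf.toFinset.card := Set.ncard_eq_toFinset_card _ hf
  have e2 : Nat.card {v : HeightOneSpectrum (𝓞 K₀) // Ideal.absNorm v.asIdeal ≤ N ∧ P₀ v} =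
      hf0.toFinset.card := Set.ncard_eq_toFinset_card _ hf0
  rw [e1, e2]
  exact_mod_cast key

end under

/-- lower density of a set of finite places of a number field -/
noncomputable def lowerDensity {K : Type} [Field K] [NumberField K]
    (P : HeightOneSpectrum (𝓞 K) → Prop) : ℝ := liminf (ratio P) atTop

theorem lowerDensity_pos {K : Type} [Field K] [NumberField K] (P : HeightOneSpectrum (𝓞 K) → Prop)
    (δ : ℝ) (hδ : 0 < δ) (h : ∀ᶠ N : ℕ in atTop, δ ≤ dens P N) : 0 < lowerDensity P := by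
  have h1 := (dens_true' (K := K)).eventually (gt_mem_nhds (show (1:ℝ) < 2 by norm_num))
  have h2 : ∀ᶠ N : ℕ in atTop, δ / 2 ≤ ratio P N := by
    filter_upwards [h, h1, ratio_eq P, (dens_true' (K := K)).eventually (lt_mem_nhds
      (show (1/2:ℝ) < 1 by norm_num))] with N hN hN1 hN2 hN3
    rw [hN2]
    have hpos : (0:ℝ) < (Nat.card {v : HeightOneSpectrum (𝓞 K) // Ideal.absNorm v.asIdeal ≤ N} : ℝ) /
        (Nat.primeCounting N : ℝ) := by linarith
    rw [le_div_iff₀ hpos]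
    nlinarith
  refine lt_of_lt_of_le (show (0:ℝ) < δ / 2 by positivity) ?_
  unfold lowerDensity
  apply le_liminf_of_le _ h2
  refine IsBoundedUnder.isCoboundedUnder_ge ?_
  exact ⟨1, by
    rw [eventually_map]
    exact Eventually.of_forall fun N => ratio_le_one P N⟩

end Pool.Agent.W528.Ord
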