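import Pool.Agent.W528.Ord.MotMain

/-! Ordinarity of all cohomology groups simultaneously, and points of finitely generated rings. -/

set_option autoImplicit false
set_option linter.all false

namespace Pool.Agent.W528.Ord

open NumberField IsDedekindDomain Polynomial Filter Topology
open Pool.Agent.W401.Cheb

namespace MotSystem

open MultSystem (IsDeg1 IsOver)

variable {K : Type} [Field K] [NumberField K] {ℓ : ℕ} [Fact ℓ.Prime]

section family

variable {ι : Type} [Fintype ι] (A : ι → MotSystem K ℓ) (χ : GK K →* (PadicAlgCl ℓ)ˣ)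
  (S : Finset ℕ) (hA : ∀ i, (A i).IsMotive χ S)

/-- no excess at the vertices of the Hodge polygons -/
def NoExcess (v : HeightOneSpectrum (𝓞 K)) : Prop :=
  ∃ Q : Ideal (𝓞 (AlgebraicClosure K)), IsOver Q v ∧
    ∀ i, ∀ (σ : (A i).E →+* AlgebraicClosure K) (k : ℕ), (A i).Vertex σ k →
      ¬ LocDvd Q (Ideal.absNorm v.asIdeal) ((A i).hp σ k + 1) ((A i).cof v ((A i).n - k) σ)

include hA in
theorem dens_good : Tendsto (dens fun v : HeightOneSpectrum (𝓞 K) => IsDeg1 S v ∧
      (∃ γ : GK K, IsFrob v γ ∧ ∀ i, (A i).Admissible γ) ∧ ¬ NoExcess A v) atTop (𝓝 0) := by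
  classical
  have hun := dens_biUnion (Finset.univ.sigma (fun i : ι => Finset.range (A i).n))
    (fun x : (Σ _ : ι, ℕ) => (A x.1).Bad S x.2) (fun x _ => bad_dens (hA x.1) x.2)
  refine squeeze_zero (fun N => dens_nonneg _ _) (fun N => dens_mono ?_ N) hun
  rintro v ⟨hv, ⟨γ, ⟨Q, hQ, hQv, hγ⟩, hadm⟩, hnew⟩
  by_contra hcon
  apply hnew
  refine ⟨Q, ⟨hQ, hQv⟩, ?_⟩
  intro i σ k hk hd
  apply hcon
  refine ⟨⟨i, k⟩, ?_, hv, Q, γ, σ, ⟨hQ, hQv⟩, hγ, hadm i, hk, hd⟩
  rw [Finset.mem_sigma]
  exact ⟨Finset.mem_univ _, Finset.mem_range.mpr hk.2.1⟩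

include hA in
/-- there are infinitely many good places -/
theorem infinite_good (hex : ∃ γ : GK K, ∀ i, (A i).Admissible γ) :
    {v : HeightOneSpectrum (𝓞 K) | IsDeg1 S v ∧ NoExcess A v}.Infinite := by
  intro hfin
  have hlim := adm_dens A χ S hA
  have h1 := dens_good A χ S hA
  have h2 := dens_not_prime (K := K)
  have h3 := dens_finite _ (finite_norm_mem (K := K) S)
  have h4 := dens_finite _ hfin
  have hpos := admProportion_pos A hex
  have h5 : Tendsto (dens fun v : HeightOneSpectrum (𝓞 K) =>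
      ∃ γ : GK K, IsFrob v γ ∧ ∀ i, (A i).Admissible γ) atTop (𝓝 0) := by
    have h6 := h4.add (h1.add (h2.add h3))
    simp only [add_zero] at h6
    refine squeeze_zero (fun N => dens_nonneg _ _) (fun N => ?_) h6
    refine le_trans (dens_mono (Q := fun v => _ ∨ (_ ∨ (_ ∨ _))) ?_ N)
      (le_trans (dens_or _ _ N) (add_le_add_right (le_trans (dens_or _ _ N)
        (add_le_add_right (dens_or _ _ N) _)) _))
    intro v hv
    by_cases hp : (Ideal.absNorm v.asIdeal).Prime
    · by_cases hS : Ideal.absNorm v.asIdeal ∈ S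
      · exact Or.inr (Or.inr (Or.inr hS))
      · by_cases hd : NoExcess A v
        · exact Or.inl ⟨⟨hp, hS⟩, hd⟩
        · exact Or.inr (Or.inl ⟨⟨hp, hS⟩, hv, hd⟩)
    · exact Or.inr (Or.inr (Or.inl hp))
  exact hpos.ne (tendsto_nhds_unique h5 hlim)

include hA in
theorem newton_of_good (m : ι → ℕ) {v : HeightOneSpectrum (𝓞 K)} (hv : IsDeg1 S v) (hg : NoExcess A v)
    (G : Polynomial ℤ) (hG : G.map (Int.castRingHom (AlgebraicClosure K)) = prodPoly A m v) :
    NewtonSlopes (Ideal.absNorm v.asIdeal) G (slopes A m) := by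
  obtain ⟨Q, hQ, hno⟩ := hg
  exact newton_of A m χ S hA hv hQ G hG (fun i _ σ k hk => hno i σ k hk)

end family

end MotSystem

section points

variable {K : Type} [Field K] [NumberField K] {B : Type} [CommRing B]

/-- `s` is the centre on `B` of the place `v`: the elements of `B` are integral at `v` and those of `s`
are the ones which vanish at `v` -/
def IsCentre (f : B →+* K) (v : HeightOneSpectrum (𝓞 K)) (s : PrimeSpectrum B) : Prop :=
  ∀ x : B, v.valuation K (f x) ≤ 1 ∧ (x ∈ s.asIdeal ↔ v.valuation K (f x) < 1)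

theorem int_surj (v : HeightOneSpectrum (𝓞 K)) (hv : (Ideal.absNorm v.asIdeal).Prime) (a : 𝓞 K) :
    ∃ n : ℤ, a - n ∈ v.asIdeal := by
  set p := Ideal.absNorm v.asIdeal with hp
  haveI : Fact p.Prime := ⟨hv⟩
  have hmem : (p : 𝓞 K) ∈ v.asIdeal := Ideal.absNorm_mem _
  haveI : CharP (𝓞 K ⧸ v.asIdeal) p := by
    haveI := v.isPrime
    apply (CharP.charP_iff_prime_eq_zero hv).mpr
    rw [← map_natCast (Ideal.Quotient.mk v.asIdeal)]
    exact Ideal.Quotient.eq_zero_iff_mem.mpr hmem
  have hcard : Nat.card (𝓞 K ⧸ v.asIdeal) = p := by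
    rw [hp, Ideal.absNorm_apply, Submodule.cardQuot_apply]
  haveI : Finite (𝓞 K ⧸ v.asIdeal) := Nat.finite_of_card_ne_zero (by rw [hcard]; exact hv.ne_zero)
  haveI := Fintype.ofFinite (𝓞 K ⧸ v.asIdeal)
  haveI := v.isPrime
  have hbij : Function.Bijective (ZMod.castHom (dvd_refl p) (𝓞 K ⧸ v.asIdeal)) := by
    rw [Fintype.bijective_iff_injective_and_card]
    refine ⟨RingHom.injective _, ?_⟩
    rw [ZMod.card, ← Nat.card_eq_fintype_card, hcard]
  obtain ⟨z, hz⟩ := hbij.2 (Ideal.Quotient.mk v.asIdeal a)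
  obtain ⟨n, rfl⟩ := ZMod.intCast_surjective z
  refine ⟨n, ?_⟩
  rw [← Ideal.Quotient.eq_zero_iff_mem, map_sub, ← hz, map_intCast, map_intCast, sub_self]

theorem int_surj_K (v : HeightOneSpectrum (𝓞 K)) (hv : (Ideal.absNorm v.asIdeal).Prime) (x : K)
    (hx : v.valuation K x ≤ 1) : ∃ n : ℤ, v.valuation K (x - n) < 1 := by
  have h1 : x ∈ HeightOneSpectrum.valuationSubringAtPrime K v := by
    rw [HeightOneSpectrum.valuationSubringAtPrime_eq_valuationSubring]
    exact hx
  obtain ⟨⟨a, b⟩, hab⟩ := IsLocalization.surj v.asIdeal.primeCompl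
    (⟨x, h1⟩ : HeightOneSpectrum.valuationSubringAtPrime K v)
  have hab' : x * (((b : 𝓞 K) : K)) = (a : K) := congrArg Subtype.val hab
  have hb : (b : 𝓞 K) ∉ v.asIdeal := b.2
  have hvb : v.valuation K (((b : 𝓞 K) : K)) = 1 := (v.valuation_eq_one_iff_notMem (K := K)).mpr hb
  -- an inverse of b modulo v
  obtain ⟨nb, hnb⟩ := int_surj v hv (b : 𝓞 K)
  have hmax : v.asIdeal.IsMaximal := v.isMaximal
  obtain ⟨c, hc⟩ : ∃ c : 𝓞 K, (b : 𝓞 K) * c - 1 ∈ v.asIdeal := by
    letI := Ideal.Quotient.field v.asIdeal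
    have hb0 : Ideal.Quotient.mk v.asIdeal (b : 𝓞 K) ≠ 0 := fun h => hb (Ideal.Quotient.eq_zero_iff_mem.mp h)
    obtain ⟨c, hc⟩ := Ideal.Quotient.mk_surjective ((Ideal.Quotient.mk v.asIdeal (b : 𝓞 K))⁻¹)
    refine ⟨c, ?_⟩
    rw [← Ideal.Quotient.eq_zero_iff_mem, map_sub, map_mul, hc, mul_inv_cancel₀ hb0, map_one, sub_self]
  obtain ⟨n, hn⟩ := int_surj v hv (a * c)
  refine ⟨n, ?_⟩
  have h2 : (a - n * (b : 𝓞 K)) ∈ v.asIdeal := by
    have e : a - n * (b : 𝓞 K) = (b : 𝓞 K) * (a * c - n) - a * ((b : 𝓞 K) * c - 1) := by ring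
    rw [e]
    exact v.asIdeal.sub_mem (v.asIdeal.mul_mem_left _ hn) (v.asIdeal.mul_mem_left _ hc)
  have h3 : v.valuation K ((algebraMap (𝓞 K) K) (a - n * (b : 𝓞 K))) < 1 :=
    (HeightOneSpectrum.valuation_lt_one_iff_mem (K := K) v _).mpr h2
  have h4 : (algebraMap (𝓞 K) K) (a - n * (b : 𝓞 K)) = (x - n) * (((b : 𝓞 K) : K)) := by
    rw [map_sub, map_mul, map_intCast, sub_mul, hab']
  rw [h4, map_mul, hvb, mul_one] at h3
  exact h3

/-- the centre of a place of degree one is a closed point with residue field `𝔽_p` -/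
theorem exists_centre (f : B →+* K) (v : HeightOneSpectrum (𝓞 K)) (hv : (Ideal.absNorm v.asIdeal).Prime)
    (hint : ∀ x, v.valuation K (f x) ≤ 1) : ∃ s : PrimeSpectrum B, IsCentre f v s ∧
      s.asIdeal.IsMaximal ∧ Nat.card (B ⧸ s.asIdeal) = Ideal.absNorm v.asIdeal := by
  set p := Ideal.absNorm v.asIdeal with hp
  haveI : Fact p.Prime := ⟨hv⟩
  let s : Ideal B :=
    { carrier := {x | v.valuation K (f x) < 1}
      add_mem' := by
        intro a b ha hb
        have ha' : v.valuation K (f a) < 1 := ha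
        have hb' : v.valuation K (f b) < 1 := hb
        change v.valuation K (f (a + b)) < 1
        rw [map_add]
        exact Valuation.map_add_lt _ ha' hb'
      zero_mem' := by
        change v.valuation K (f 0) < 1
        rw [map_zero, map_zero]
        exact zero_lt_one
      smul_mem' := by
        intro c x hx
        have hx' : v.valuation K (f x) < 1 := hx
        change v.valuation K (f (c * x)) < 1
        rw [map_mul, map_mul]
        exact lt_of_le_of_lt (mul_le_of_le_one_left' (hint c)) hx' }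
  have hs : ∀ x, x ∈ s ↔ v.valuation K (f x) < 1 := fun x => Iff.rfl
  have h1 : (1 : B) ∉ s := by
    rw [hs, map_one, map_one]
    exact lt_irrefl _
  have hsprime : s.IsPrime := by
    constructor
    · intro h
      exact h1 (by rw [h]; trivial)
    · intro x y hxy
      rw [hs] at hxy ⊢
      rw [hs]
      by_contra hcon
      push Not at hcon
      have h3 : v.valuation K (f x) = 1 := le_antisymm (hint x) hcon.1
      have h4 : v.valuation K (f y) = 1 := le_antisymm (hint y) hcon.2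
      rw [map_mul, map_mul, h3, h4, mul_one] at hxy
      exact lt_irrefl _ hxy
  have hpmem : (p : B) ∈ s := by
    rw [hs, map_natCast]
    have := (HeightOneSpectrum.valuation_lt_one_iff_mem (K := K) v (p : 𝓞 K)).mpr (Ideal.absNorm_mem _)
    change v.valuation K (algebraMap (𝓞 K) K (p : 𝓞 K)) < 1 at this
    rwa [map_natCast] at this
  haveI : CharP (B ⧸ s) p := by
    apply (CharP.charP_iff_prime_eq_zero hv).mpr
    rw [← map_natCast (Ideal.Quotient.mk s)]
    exact Ideal.Quotient.eq_zero_iff_mem.mpr hpmem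
  have hbij : Function.Bijective (ZMod.castHom (dvd_refl p) (B ⧸ s)) := by
    refine ⟨RingHom.injective _, ?_⟩
    intro y
    obtain ⟨x, rfl⟩ := Ideal.Quotient.mk_surjective y
    obtain ⟨n, hn⟩ := int_surj_K v hv (f x) (hint x)
    refine ⟨(n : ZMod p), ?_⟩
    rw [map_intCast]
    have : x - n ∈ s := by
      rw [hs, map_sub, map_intCast]
      exact hn
    have h5 := Ideal.Quotient.eq_zero_iff_mem.mpr this
    rw [map_sub, map_intCast, sub_eq_zero] at h5
    exact h5.symm
  have e : ZMod p ≃+* (B ⧸ s) := RingEquiv.ofBijective _ hbij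
  refine ⟨⟨s, hsprime⟩, fun x => ⟨hint x, hs x⟩, ?_, ?_⟩
  · apply Ideal.Quotient.maximal_of_isField
    exact e.symm.toMulEquiv.isField (Field.toIsField (ZMod p))
  · change Nat.card (B ⧸ s) = p
    rw [← Nat.card_congr e.toEquiv, Nat.card_zmod]

theorem finite_support [Algebra.FiniteType ℤ B] (f : B →+* K) :
    {v : HeightOneSpectrum (𝓞 K) | ∃ x, 1 < v.valuation K (f x)}.Finite := by
  obtain ⟨T, hT⟩ := (inferInstance : Algebra.FiniteType ℤ B).out
  have hfin : (⋃ x ∈ T, HeightOneSpectrum.Support (𝓞 K) (f x)).Finite :=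
    T.finite_toSet.biUnion fun x _ => HeightOneSpectrum.Support.finite (𝓞 K) (f x)
  refine hfin.subset ?_
  rintro v ⟨x, hx⟩
  by_contra hcon
  have hT1 : ∀ x ∈ T, v.valuation K (f x) ≤ 1 := by
    intro y hy
    by_contra h
    apply hcon
    rw [Set.mem_iUnion₂]
    exact ⟨y, hy, not_le.mp h⟩
  have hall : ∀ x ∈ Algebra.adjoin ℤ (T : Set B), v.valuation K (f x) ≤ 1 := by
    intro x hx
    induction hx using Algebra.adjoin_induction with
    | mem x hx => exact hT1 x hx
    | algebraMap r =>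
      rw [eq_intCast, map_intCast]
      have := HeightOneSpectrum.valuation_le_one (K := K) v (r : 𝓞 K)
      change v.valuation K (algebraMap (𝓞 K) K (r : 𝓞 K)) ≤ 1 at this
      rwa [map_intCast] at this
    | add x y _ _ hx hy =>
      rw [map_add]
      exact Valuation.map_add_le _ hx hy
    | mul x y _ _ hx hy =>
      rw [map_mul, map_mul]
      exact mul_le_one' hx hy
  have := hall x (by rw [hT]; trivial)
  exact absurd hx (not_lt.mpr this)

end points

end Pool.Agent.W528.Ord
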