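import Pool.Agent.W528.Ord.AbDefs

/-! Pure motives with multiplication by a totally real or CM field: Hodge numbers, Frobenius
polynomials, `ℓ`-adic representations, and the orbit condition. -/

set_option autoImplicit false
set_option linter.all false

namespace Pool.Agent.W528.Ord

open NumberField IsDedekindDomain Polynomial
open Pool.Agent.W401.Cheb

/-- Data attached to a pure motive over the number field `K` with multiplication by the totally real
field or CM field `E`. -/
structure MotSystem (K : Type) [Field K] [NumberField K] (ℓ : ℕ) [Fact ℓ.Prime] where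
  /-- the field of multiplications -/
  E : Type
  [fieldE : Field E]
  [numberFieldE : NumberField E]
  /-- complex conjugation of `E` (the identity if `E` is totally real) -/
  conj : E ≃+* E
  /-- the weight -/
  w : ℕ
  /-- the rank over `E` -/
  n : ℕ
  /-- the Hodge slopes of the `σ`-part: the list, in increasing order, of the `p` with
  multiplicity `h^{p, w - p}` -/
  h : (E →+* AlgebraicClosure K) → List ℕ
  /-- the characteristic polynomials of the geometric Frobenius elements, over the integers of `E` -/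
  P : HeightOneSpectrum (𝓞 K) → Polynomial (𝓞 E)
  /-- the `τ`-parts of the dual of the `ℓ`-adic realisation -/
  ρ : (E →+* PadicAlgCl ℓ) → GK K →* Matrix.GeneralLinearGroup (Fin n) (PadicAlgCl ℓ)

attribute [instance] MotSystem.fieldE MotSystem.numberFieldE

namespace MotSystem

open MultSystem (mv IsDeg1 IsOver)

variable {K : Type} [Field K] [NumberField K] {ℓ : ℕ} [Fact ℓ.Prime]

/-- the `k`-th coefficient of the Frobenius polynomial of `v` under the embedding `σ`, an algebraic
integer -/
noncomputable def cof (A : MotSystem K ℓ) (v : HeightOneSpectrum (𝓞 K)) (k : ℕ)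
    (σ : A.E →+* AlgebraicClosure K) : 𝓞 (AlgebraicClosure K) :=
  RingOfIntegers.mapRingHom σ ((A.P v).coeff k)

/-- the Hodge polygon of the `σ`-part at `k`: the sum of the `k` smallest slopes -/
def hp (A : MotSystem K ℓ) (σ : A.E →+* AlgebraicClosure K) (k : ℕ) : ℕ := ((A.h σ).take k).sum

/-- `k` is a vertex of the Hodge polygon of the `σ`-part, different from the end points -/
def Vertex (A : MotSystem K ℓ) (σ : A.E →+* AlgebraicClosure K) (k : ℕ) : Prop :=
  0 < k ∧ k < A.n ∧ (A.h σ).getD (k - 1) 0 < (A.h σ).getD k 0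

/-- the orbit of `σ₀` under the powers of `γ`; if `2 k = n` the orbit of the complex conjugate of `σ₀`
is added -/
def orb (A : MotSystem K ℓ) (γ : GK K) (σ₀ : A.E →+* AlgebraicClosure K) (k : ℕ) :
    Set (A.E →+* AlgebraicClosure K) :=
  {σ | ∃ j : ℕ, σ = mv (γ ^ j) σ₀ ∨
    (2 * k = A.n ∧ σ = mv (γ ^ j) (σ₀.comp (A.conj : A.E →+* A.E)))}

/-- twice the total defect at `k`: the sum over all embeddings `σ` of `w k - 2 (hp σ k)` -/
noncomputable def defect (A : MotSystem K ℓ) (k : ℕ) : ℤ :=
  ∑ σ : A.E →+* AlgebraicClosure K, ((A.w * k : ℕ) - 2 * (A.hp σ k : ℤ))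

/-- the orbit condition: for every vertex `k` of the Hodge polygon of the `σ₀`-part, twice the total
defect at `k` is at most twice the number of elements of the orbit -/
def Admissible (A : MotSystem K ℓ) (γ : GK K) : Prop :=
  ∀ (σ₀ : A.E →+* AlgebraicClosure K) (k : ℕ), A.Vertex σ₀ k →
    A.defect k ≤ 2 * ((A.orb γ σ₀ k).ncard : ℤ)

/-- the Frobenius polynomial of `v` under the embedding `τ` of `E` into a field `L` -/
noncomputable def poly (A : MotSystem K ℓ) {L : Type} [Field L] (v : HeightOneSpectrum (𝓞 K))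
    (τ : A.E →+* L) : Polynomial L :=
  (A.P v).map (τ.comp (algebraMap (𝓞 A.E) A.E))

/-- `conj` is complex conjugation: `E` is totally real or a CM field -/
def IsConj (A : MotSystem K ℓ) : Prop :=
  ∀ (τ : A.E →+* ℂ) (x : A.E), τ (A.conj x) = starRingEnd ℂ (τ x)

/-- the Hodge slopes: there are `n` of them, between `0` and `w`, in increasing order, Hodge symmetry
holds, and they depend only on the embedding up to the action of the Galois group of `K` -/
def IsHodge (A : MotSystem K ℓ) : Prop :=
  ∀ σ : A.E →+* AlgebraicClosure K, (A.h σ).length = A.n ∧ (A.h σ).Pairwise (· ≤ ·) ∧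
    (∀ a ∈ A.h σ, a ≤ A.w) ∧
    A.h (σ.comp (A.conj : A.E →+* A.E)) = ((A.h σ).map fun a => A.w - a).reverse ∧
    ∀ γ : GK K, A.h (mv γ σ) = A.h σ

/-- `S` contains the primes which ramify in `E` -/
def Unram (A : MotSystem K ℓ) (S : Finset ℕ) : Prop :=
  ∀ p : ℕ, p.Prime → p ∉ S → ∀ 𝔭 : Ideal (𝓞 A.E), 𝔭.IsPrime → (p : 𝓞 A.E) ∈ 𝔭 →
    (p : 𝓞 A.E) ∉ 𝔭 ^ 2

/-- the Frobenius polynomials are monic of degree `n` -/
def IsMonic (A : MotSystem K ℓ) (S : Finset ℕ) : Prop :=
  ∀ v : HeightOneSpectrum (𝓞 K), IsDeg1 S v → (A.P v).Monic ∧ (A.P v).natDegree = A.n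

/-- Deligne: the complex absolute values of the Frobenius eigenvalues are `(N v) ^ (w / 2)` -/
def Weil (A : MotSystem K ℓ) (S : Finset ℕ) : Prop :=
  ∀ v : HeightOneSpectrum (𝓞 K), IsDeg1 S v → ∀ (τ : A.E →+* ℂ) (α : ℂ),
    (A.poly v τ).IsRoot α → ‖α‖ ^ 2 = (Ideal.absNorm v.asIdeal : ℝ) ^ A.w

/-- Mazur: the Newton polygon of the `σ`-part lies above its Hodge polygon and has the same end point -/
def Mazur (A : MotSystem K ℓ) (S : Finset ℕ) : Prop :=
  ∀ v : HeightOneSpectrum (𝓞 K), IsDeg1 S v → ∀ Q : Ideal (𝓞 (AlgebraicClosure K)), IsOver Q v →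
    ∀ σ : A.E →+* AlgebraicClosure K,
      (∀ k ≤ A.n, LocDvd Q (Ideal.absNorm v.asIdeal) (A.hp σ k) (A.cof v (A.n - k) σ)) ∧
      LocEq Q (Ideal.absNorm v.asIdeal) (A.hp σ A.n) (A.cof v 0 σ)

/-- the representations `ρ τ` and the character `χ` are continuous -/
def IsCont (A : MotSystem K ℓ) (χ : GK K →* (PadicAlgCl ℓ)ˣ) : Prop :=
  (∀ (τ : A.E →+* PadicAlgCl ℓ) (i j : Fin A.n),
    Continuous fun g : GK K => (A.ρ τ g : Matrix (Fin A.n) (Fin A.n) (PadicAlgCl ℓ)) i j) ∧
  Continuous fun g : GK K => (χ g : PadicAlgCl ℓ)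

/-- the Frobenius elements at `v` have characteristic polynomials `P v` and `χ = N v` -/
def Compat (A : MotSystem K ℓ) (χ : GK K →* (PadicAlgCl ℓ)ˣ) (S : Finset ℕ) : Prop :=
  ∀ v : HeightOneSpectrum (𝓞 K), IsDeg1 S v → ∀ γ : GK K, IsFrob v γ →
    (χ γ : PadicAlgCl ℓ) = (Ideal.absNorm v.asIdeal : PadicAlgCl ℓ) ∧
    ∀ τ : A.E →+* PadicAlgCl ℓ,
      (A.ρ τ γ : Matrix (Fin A.n) (Fin A.n) (PadicAlgCl ℓ)).charpoly = A.poly v τ

/-- If the Hodge polygon of some `σ`-part has a vertex, the Frobenius polynomials are not all powers of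
linear polynomials (a representation with scalar Frobenius elements has a single Hodge-Tate weight). -/
def NonScalar (A : MotSystem K ℓ) (S : Finset ℕ) : Prop :=
  (∃ (σ : A.E →+* AlgebraicClosure K) (k : ℕ), A.Vertex σ k) →
    ∃ v : HeightOneSpectrum (𝓞 K), IsDeg1 S v ∧ ∃ τ : A.E →+* ℂ, ∀ α : ℂ, A.poly v τ ≠ (X - C α) ^ A.n

/-- The properties of the compatible system of Galois representations of a pure motive with
multiplication by `E` over `K`, at the places of degree one outside a finite set of residue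
characteristics `S`; `χ` is the cyclotomic character. -/
structure IsMotive (A : MotSystem K ℓ) (χ : GK K →* (PadicAlgCl ℓ)ˣ) (S : Finset ℕ) : Prop where
  isConj : A.IsConj
  isHodge : A.IsHodge
  isUnram : A.Unram S
  isMonic : A.IsMonic S
  isWeil : A.Weil S
  isMazur : A.Mazur S
  isCont : A.IsCont χ
  isCompat : A.Compat χ S
  nonScalar : A.NonScalar S
  /-- the Zariski closure of the image of the Galois group is connected -/
  connected : ConnectedMonodromy A.ρ χ

/-- the product of the powers of the Frobenius polynomials of the `A i` and their conjugates -/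
noncomputable def prodPoly {ι : Type} [Fintype ι] (A : ι → MotSystem K ℓ) (m : ι → ℕ)
    (v : HeightOneSpectrum (𝓞 K)) : Polynomial (AlgebraicClosure K) :=
  ∏ i, ∏ σ : (A i).E →+* AlgebraicClosure K, (A i).poly v σ ^ m i

/-- the Hodge slopes, with multiplicity, of the sum of `m i` copies of the `A i` -/
noncomputable def slopes {ι : Type} [Fintype ι] (A : ι → MotSystem K ℓ) (m : ι → ℕ) : Multiset ℕ :=
  ∑ i, m i • ∑ σ : (A i).E →+* AlgebraicClosure K, ((A i).h σ : Multiset ℕ)

end MotSystem

/-- the Newton polygon of the polynomial `F` at the prime number `p` has the slopes `H`: the roots of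
`F` in an algebraic closure of `ℚ_p` have the absolute values `p ^ (-a)`, with `a` in `H`, with
multiplicity -/
def NewtonSlopes (p : ℕ) (F : Polynomial ℤ) (H : Multiset ℕ) : Prop :=
  ∃ hp : Fact p.Prime, ((F.map (Int.castRingHom (PadicAlgCl p))).roots.map fun y => ‖y‖) =
    H.map fun a => (1 / (p : ℝ)) ^ a

end Pool.Agent.W528.Ord
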