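import Pool.Agent.W528.Ord.MotMain

/-! Positive lower density over a subfield, general weight. -/

set_option autoImplicit false
set_option linter.all false

namespace Pool.Agent.W528.Ord

open NumberField IsDedekindDomain Polynomial Filter Topology
open Pool.Agent.W401.Cheb

/-- the place `v₀`, of degree one and residue characteristic `p` not in `S`, is ordinary: the Newton
polygon of `F v₀` has the slopes `H` -/
def OrdinaryPlace {K₀ : Type} [Field K₀] [NumberField K₀] (S : Finset ℕ)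
    (F : HeightOneSpectrum (𝓞 K₀) → Polynomial ℤ) (H : Multiset ℕ) (v₀ : HeightOneSpectrum (𝓞 K₀)) : Prop :=
  MultSystem.IsDeg1 S v₀ ∧ NewtonSlopes (Ideal.absNorm v₀.asIdeal) (F v₀) H

theorem exists_ext {K₀ K : Type} [Field K₀] [NumberField K₀] [Field K] [NumberField K] [Algebra K₀ K]
    {β : Type} [Inhabited β] (F : HeightOneSpectrum (𝓞 K₀) → β) :
    ∃ G : HeightOneSpectrum (𝓞 K) → β, ∀ v : HeightOneSpectrum (𝓞 K),
      (Ideal.absNorm v.asIdeal).Prime → ∀ v₀ : HeightOneSpectrum (𝓞 K₀),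
      v.asIdeal.comap (algebraMap (𝓞 K₀) (𝓞 K)) = v₀.asIdeal → G v = F v₀ := by
  classical
  refine ⟨fun v => if h : (Ideal.absNorm v.asIdeal).Prime then
    F (exists_under (K₀ := K₀) v h).choose else default, fun v hv v₀ hv₀ => ?_⟩
  simp only [dif_pos hv]
  congr 1
  apply HeightOneSpectrum.ext
  rw [← hv₀]
  exact (exists_under (K₀ := K₀) v hv).choose_spec.1.symm

theorem under_norm {K₀ K : Type} [Field K₀] [NumberField K₀] [Field K] [NumberField K] [Algebra K₀ K]
    (v : HeightOneSpectrum (𝓞 K)) (hv : (Ideal.absNorm v.asIdeal).Prime) (v₀ : HeightOneSpectrum (𝓞 K₀))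
    (h : v.asIdeal.comap (algebraMap (𝓞 K₀) (𝓞 K)) = v₀.asIdeal) :
    Ideal.absNorm v₀.asIdeal = Ideal.absNorm v.asIdeal := by
  obtain ⟨v₁, h1, h2⟩ := exists_under (K₀ := K₀) v hv
  rw [← h2, ← h, h1]

namespace MotSystem

theorem lower_down (K₀ K : Type) [Field K₀] [NumberField K₀] [Field K] [NumberField K] [Algebra K₀ K]
    (ℓ : ℕ) [Fact ℓ.Prime] {ι : Type} [Fintype ι] (A : ι → MotSystem K ℓ) (m : ι → ℕ)
    (χ : GK K →* (PadicAlgCl ℓ)ˣ) (S : Finset ℕ) (hA : ∀ i, (A i).IsMotive χ S)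
    (F : HeightOneSpectrum (𝓞 K₀) → Polynomial ℤ)
    (hF : ∀ (v₀ : HeightOneSpectrum (𝓞 K₀)) (v : HeightOneSpectrum (𝓞 K)),
      v.asIdeal.comap (algebraMap (𝓞 K₀) (𝓞 K)) = v₀.asIdeal → MultSystem.IsDeg1 S v →
      (F v₀).map (Int.castRingHom (AlgebraicClosure K)) = MotSystem.prodPoly A m v)
    (hγ : ∃ γ : GK K, ∀ i, (A i).Admissible γ) :
    0 < lowerDensity (OrdinaryPlace S F (slopes A m)) := by
  classical
  obtain ⟨G, hG⟩ := exists_ext (K := K) F
  have hpos := admProportion_pos A hγ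
  have hev := lower_K A m χ S hA G (fun v hv => by
    obtain ⟨v₀, h0, -⟩ := exists_under (K₀ := K₀) v hv.1
    rw [hG v hv.1 v₀ h0]
    exact hF v₀ v h0 hv) (admProportion A / 2) (by positivity)
  have hd : (0 : ℝ) < (Module.finrank ℚ K : ℝ) := by exact_mod_cast Module.finrank_pos
  apply lowerDensity_pos _ (admProportion A / 2 / (Module.finrank ℚ K : ℝ)) (by positivity)
  filter_upwards [hev] with N hN
  have h1 := dens_under (K₀ := K₀) (fun v : HeightOneSpectrum (𝓞 K) =>
      MultSystem.IsDeg1 S v ∧ NewtonSlopes (Ideal.absNorm v.asIdeal) (G v) (slopes A m))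
      (OrdinaryPlace S F (slopes A m)) (fun v hv => hv.1.1) (fun v v₀ hv h0 => by
        have e := under_norm v hv.1.1 v₀ h0
        refine ⟨?_, ?_⟩
        · unfold MultSystem.IsDeg1
          rw [e]
          exact hv.1
        · rw [e, ← hG v hv.1.1 v₀ h0]
          exact hv.2) N
  rw [div_le_iff₀ hd, mul_comm]
  have h2 : admProportion A / 2 ≤ admProportion A - admProportion A / 2 := by linarith
  exact (h2.trans hN).trans h1

end MotSystem

end Pool.Agent.W528.Ord
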