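import Pool.Agent.W528.Ord.MotNewton

/-! Almost all primes with admissible Frobenius elements are ordinary, general weight. -/

set_option autoImplicit false
set_option linter.all false

namespace Pool.Agent.W528.Ord

open NumberField IsDedekindDomain Polynomial Filter Topology
open Pool.Agent.W401.Cheb

namespace MotSystem

open MultSystem (mv IsDeg1 IsOver mv_mul mv_one mv_inj mv_fix_open norm_mem frob_pow_dvd mv_comp mv_conj_pow)

variable {K : Type} [Field K] [NumberField K] {ℓ : ℕ} [Fact ℓ.Prime]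

section family

variable {ι : Type} [Fintype ι] (A : ι → MotSystem K ℓ) (m : ι → ℕ) (χ : GK K →* (PadicAlgCl ℓ)ˣ)
  (S : Finset ℕ) (hA : ∀ i, (A i).IsMotive χ S)

/-- there is an excess at a vertex of the Hodge polygon, at a place with admissible Frobenius elements -/
def Ex (A : MotSystem K ℓ) (k : ℕ) (v : HeightOneSpectrum (𝓞 K)) : Prop :=
  ∃ (Q : Ideal (𝓞 (AlgebraicClosure K))) (γ : GK K) (σ₀ : A.E →+* AlgebraicClosure K),
    IsOver Q v ∧ (∀ y : 𝓞 (AlgebraicClosure K), γ • y - y ^ Ideal.absNorm v.asIdeal ∈ Q) ∧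
    A.Admissible γ ∧ A.Vertex σ₀ k ∧
    LocDvd Q (Ideal.absNorm v.asIdeal) (A.hp σ₀ k + 1) (A.cof v (A.n - k) σ₀)

/-- the bad places -/
def Bad (A : MotSystem K ℓ) (S : Finset ℕ) (k : ℕ) (v : HeightOneSpectrum (𝓞 K)) : Prop :=
  ((Ideal.absNorm v.asIdeal).Prime ∧ Ideal.absNorm v.asIdeal ∉ S) ∧ A.Ex k v

theorem bad_dens {A : MotSystem K ℓ} {χ : GK K →* (PadicAlgCl ℓ)ˣ} {S : Finset ℕ} (hA : A.IsMotive χ S)
    (k : ℕ) : Tendsto (dens (A.Bad S k)) atTop (𝓝 0) := by
  classical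
  by_cases hex : ∃ σ₀ : A.E →+* AlgebraicClosure K, A.Vertex σ₀ k
  · obtain ⟨σ₀, hk0, hkn, hlt⟩ := hex
    have hns := hA.nonScalar ⟨σ₀, k, hk0, hkn, hlt⟩
    refine engine A.ρ χ hA.isCont.1 hA.isCont.2 hA.connected k A.w hk0 hkn A.P
      (fun v => (Ideal.absNorm v.asIdeal).Prime ∧ Ideal.absNorm v.asIdeal ∉ S)
      (fun v hv => hv.1) (fun v hv => (hA.isMonic v hv).1)
      (fun v hv => (hA.isMonic v hv).2)
      (fun v hv τ α h => hA.isWeil v hv τ α h)
      (fun v hv σ hσ τ => (hA.isCompat v hv σ hσ).2 τ)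
      (fun v hv σ hσ => (hA.isCompat v hv σ hσ).1) ?_ (A.Ex k) ?_
    · obtain ⟨v, hv, τ, hα⟩ := hns
      exact ⟨v, hv, τ, hα⟩
    · rintro v hv ⟨Q, γ, σ₁, hQ, hγ, hadm, hver, hd⟩
      exact norm_dvd hA hv hQ hγ hadm σ₁ k hver hd
  · have : A.Bad S k = fun _ => False := by
      funext v
      apply propext
      constructor
      · rintro ⟨-, Q, γ, σ₁, -, -, -, hver, -⟩
        exact hex ⟨σ₁, hver⟩
      · exact False.elim
    rw [this]
    exact dens_finite _ (by simp)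

include hA in
/-- **Almost all primes with an admissible Frobenius element are ordinary** -/
theorem main_K (G : HeightOneSpectrum (𝓞 K) → Polynomial ℤ)
    (hG : ∀ v : HeightOneSpectrum (𝓞 K), IsDeg1 S v →
      (G v).map (Int.castRingHom (AlgebraicClosure K)) = prodPoly A m v) :
    Tendsto (dens fun v : HeightOneSpectrum (𝓞 K) => IsDeg1 S v ∧
      (∃ γ : GK K, IsFrob v γ ∧ ∀ i, (A i).Admissible γ) ∧
      ¬ NewtonSlopes (Ideal.absNorm v.asIdeal) (G v) (slopes A m)) atTop (𝓝 0) := by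
  classical
  have hun := dens_biUnion (Finset.univ.sigma (fun i : ι => Finset.range (A i).n))
    (fun x : (Σ _ : ι, ℕ) => (A x.1).Bad S x.2) (fun x _ => bad_dens (hA x.1) x.2)
  refine squeeze_zero (fun N => dens_nonneg _ _) (fun N => dens_mono ?_ N) hun
  rintro v ⟨hv, ⟨γ, ⟨Q, hQ, hQv, hγ⟩, hadm⟩, hnew⟩
  by_contra hcon
  apply hnew
  apply newton_of A m χ S hA hv ⟨hQ, hQv⟩ (G v) (hG v hv)
  intro i _ σ k hk hd
  apply hcon
  refine ⟨⟨i, k⟩, ?_, hv, Q, γ, σ, ⟨hQ, hQv⟩, hγ, hadm i, hk, hd⟩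
  rw [Finset.mem_sigma]
  exact ⟨Finset.mem_univ _, Finset.mem_range.mpr hk.2.1⟩

/-- elements which fix all embeddings -/
def fixU : Subgroup (GK K) where
  carrier := {γ | ∀ i, ∀ σ : (A i).E →+* AlgebraicClosure K, mv γ σ = σ}
  mul_mem' := by
    intro a b ha hb i σ
    rw [mv_mul, hb i σ, ha i σ]
  one_mem' := fun i σ => mv_one σ
  inv_mem' := by
    intro a ha i σ
    apply mv_inj a
    rw [← mv_mul, mul_inv_cancel, mv_one, ha i σ]

theorem fixU_open : IsOpen (fixU A : Set (GK K)) := by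
  have e : (fixU A : Set (GK K)) = ⋂ i, ⋂ σ : (A i).E →+* AlgebraicClosure K, {γ : GK K | mv γ σ = σ} := by
    ext γ
    simp only [Set.mem_iInter]
    exact Iff.rfl
  rw [e]
  exact isOpen_iInter_of_finite fun i => isOpen_iInter_of_finite fun σ => mv_fix_open σ

theorem fixU_normal : (fixU A).Normal := by
  constructor
  intro a ha g i σ
  rw [mv_mul, mv_mul, ha i, ← mv_mul, mul_inv_cancel, mv_one]

theorem mv_pow_fix {i : ι} {γ u : GK K} (hu : u ∈ fixU A) (j : ℕ) (σ : (A i).E →+* AlgebraicClosure K) :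
    mv ((γ * u) ^ j) σ = mv (γ ^ j) σ := by
  induction j generalizing σ with
  | zero => rw [pow_zero, pow_zero]
  | succ j ih => rw [pow_succ, pow_succ, mv_mul, mv_mul, ih, mv_mul, hu i σ]

theorem adm_fix {i : ι} {γ u : GK K} (hu : u ∈ fixU A) (h : (A i).Admissible γ) :
    (A i).Admissible (γ * u) := by
  intro σ₀ k hk
  have e : (A i).orb (γ * u) σ₀ k = (A i).orb γ σ₀ k := by
    unfold orb
    ext σ
    simp only [Set.mem_setOf_eq, mv_pow_fix A hu]
  rw [e]
  exact h σ₀ k hk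

theorem adm_conj {A : MotSystem K ℓ} (hr : ∀ (γ : GK K) (σ : A.E →+* AlgebraicClosure K), A.h (mv γ σ) = A.h σ)
    {γ : GK K} (τ : GK K) (h : A.Admissible γ) : A.Admissible (τ * γ * τ⁻¹) := by
  intro σ₀ k hk
  have h2 := h (mv τ⁻¹ σ₀) k (by unfold Vertex; rw [hr]; exact hk)
  have e2 : A.orb (τ * γ * τ⁻¹) σ₀ k = mv τ '' A.orb γ (mv τ⁻¹ σ₀) k := by
    ext σ
    constructor
    · rintro ⟨j, h | ⟨h2, h⟩⟩
      · refine ⟨mv (γ ^ j) (mv τ⁻¹ σ₀), ⟨j, Or.inl rfl⟩, ?_⟩
        rw [h, mv_conj_pow]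
      · refine ⟨mv (γ ^ j) ((mv τ⁻¹ σ₀).comp (A.conj : A.E →+* A.E)), ⟨j, Or.inr ⟨h2, rfl⟩⟩, ?_⟩
        rw [h, mv_conj_pow, mv_comp τ⁻¹]
    · rintro ⟨σ', ⟨j, h | ⟨h2, h⟩⟩, rfl⟩
      · refine ⟨j, Or.inl ?_⟩
        rw [h, mv_conj_pow]
      · refine ⟨j, Or.inr ⟨h2, ?_⟩⟩
        rw [h, mv_conj_pow, mv_comp τ⁻¹]
  rw [e2, Set.ncard_image_of_injective _ (mv_inj τ)]
  exact h2

/-- if the identity is admissible, so is every element -/
theorem adm_of_one {A : MotSystem K ℓ} (h : A.Admissible 1) (γ : GK K) : A.Admissible γ := by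
  intro σ₀ k hk
  refine (h σ₀ k hk).trans ?_
  have hsub : A.orb 1 σ₀ k ⊆ A.orb γ σ₀ k := by
    rintro σ ⟨j, h | ⟨h2, h⟩⟩
    · rw [one_pow] at h
      exact ⟨0, Or.inl (by rw [pow_zero]; exact h)⟩
    · rw [one_pow] at h
      exact ⟨0, Or.inr ⟨h2, by rw [pow_zero]; exact h⟩⟩
  have := Set.ncard_le_ncard hsub (Set.toFinite _)
  have : ((A.orb 1 σ₀ k).ncard : ℤ) ≤ ((A.orb γ σ₀ k).ncard : ℤ) := by exact_mod_cast this
  linarith

/-- the proportion of the admissible elements in the finite group through which the Galois group acts on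
the embeddings of the fields of multiplications -/
noncomputable def admProportion : ℝ :=
  (((QuotientGroup.mk : GK K → GK K ⧸ fixU A) '' {γ | ∀ i, (A i).Admissible γ}).ncard : ℝ) /
    (Nat.card (GK K ⧸ fixU A) : ℝ)

theorem admProportion_pos (hex : ∃ γ : GK K, ∀ i, (A i).Admissible γ) : 0 < admProportion A := by
  haveI : Finite (GK K ⧸ fixU A) := Subgroup.quotient_finite_of_isOpen _ (fixU_open A)
  apply div_pos
  · have : 0 < ((QuotientGroup.mk : GK K → GK K ⧸ fixU A) '' {γ | ∀ i, (A i).Admissible γ}).ncard := by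
      rw [Set.ncard_pos (Set.toFinite _)]
      obtain ⟨γ, hγ⟩ := hex
      exact ⟨_, γ, hγ, rfl⟩
    exact_mod_cast this
  · exact_mod_cast Nat.card_pos

theorem admProportion_one (h : ∀ i, (A i).Admissible 1) : admProportion A = 1 := by
  haveI : Finite (GK K ⧸ fixU A) := Subgroup.quotient_finite_of_isOpen _ (fixU_open A)
  have e : ((QuotientGroup.mk : GK K → GK K ⧸ fixU A) '' {γ | ∀ i, (A i).Admissible γ}) = Set.univ := by
    have : {γ : GK K | ∀ i, (A i).Admissible γ} = Set.univ := by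
      ext γ
      simp only [Set.mem_setOf_eq, Set.mem_univ, iff_true]
      exact fun i => adm_of_one (h i) γ
    rw [this, Set.image_univ]
    exact Set.range_eq_univ.mpr QuotientGroup.mk_surjective
  unfold admProportion
  rw [e, Set.ncard_univ]
  exact div_self (by exact_mod_cast Nat.card_pos.ne')

include hA in
/-- the density of the primes with an admissible Frobenius element -/
theorem adm_dens : Tendsto (dens fun v : HeightOneSpectrum (𝓞 K) =>
    ∃ γ : GK K, IsFrob v γ ∧ ∀ i, (A i).Admissible γ) atTop (𝓝 (admProportion A)) := by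
  haveI := fixU_normal A
  haveI : Finite (GK K ⧸ fixU A) := Subgroup.quotient_finite_of_isOpen _ (fixU_open A)
  have h := chebK K (fixU A) (fixU_open A) {γ | ∀ i, (A i).Admissible γ}
    (fun σ hσ τ i => adm_conj (fun γ σ => ((hA i).isHodge σ).2.2.2.2 γ) τ (hσ i))
    (fun σ hσ u hu i => adm_fix A hu (hσ i))
  have e : (fun v : HeightOneSpectrum (𝓞 K) => ∃ σ ∈ {γ : GK K | ∀ i, (A i).Admissible γ}, IsFrob v σ) =
      fun v => ∃ γ : GK K, IsFrob v γ ∧ ∀ i, (A i).Admissible γ := by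
    funext v
    apply propext
    constructor
    · rintro ⟨σ, h1, h2⟩
      exact ⟨σ, h2, h1⟩
    · rintro ⟨σ, h1, h2⟩
      exact ⟨σ, h2, h1⟩
  rw [e] at h
  exact h

include hA in
/-- **lower density over `K`** -/
theorem lower_K (G : HeightOneSpectrum (𝓞 K) → Polynomial ℤ)
    (hG : ∀ v : HeightOneSpectrum (𝓞 K), IsDeg1 S v →
      (G v).map (Int.castRingHom (AlgebraicClosure K)) = prodPoly A m v) (ε : ℝ) (hε : 0 < ε) :
    ∀ᶠ N : ℕ in atTop, admProportion A - ε ≤ dens (fun v : HeightOneSpectrum (𝓞 K) =>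
      IsDeg1 S v ∧ NewtonSlopes (Ideal.absNorm v.asIdeal) (G v) (slopes A m)) N := by
  have hlim := adm_dens A χ S hA
  have h1 := main_K A m χ S hA G hG
  have h2 := dens_not_prime (K := K)
  have h3 := dens_finite _ (finite_norm_mem (K := K) S)
  have e0 := hlim.eventually (lt_mem_nhds (show admProportion A - ε / 4 < admProportion A by linarith))
  have e1 := h1.eventually (gt_mem_nhds (show (0:ℝ) < ε / 4 by positivity))
  have e2 := h2.eventually (gt_mem_nhds (show (0:ℝ) < ε / 4 by positivity))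
  have e3 := h3.eventually (gt_mem_nhds (show (0:ℝ) < ε / 4 by positivity))
  filter_upwards [e0, e1, e2, e3] with N h0 h1 h2 h3
  have hle : dens (fun v : HeightOneSpectrum (𝓞 K) => ∃ γ : GK K, IsFrob v γ ∧ ∀ i, (A i).Admissible γ) N ≤
      dens (fun v : HeightOneSpectrum (𝓞 K) =>
      IsDeg1 S v ∧ NewtonSlopes (Ideal.absNorm v.asIdeal) (G v) (slopes A m)) N +
      (dens (fun v : HeightOneSpectrum (𝓞 K) => IsDeg1 S v ∧
      (∃ γ : GK K, IsFrob v γ ∧ ∀ i, (A i).Admissible γ) ∧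
      ¬ NewtonSlopes (Ideal.absNorm v.asIdeal) (G v) (slopes A m)) N +
      (dens (fun v : HeightOneSpectrum (𝓞 K) => ¬ (Ideal.absNorm v.asIdeal).Prime) N +
      dens (fun v : HeightOneSpectrum (𝓞 K) => Ideal.absNorm v.asIdeal ∈ S) N)) := by
    refine le_trans (dens_mono (Q := fun v => _ ∨ (_ ∨ (_ ∨ _))) ?_ N)
      (le_trans (dens_or _ _ N) (add_le_add_right (le_trans (dens_or _ _ N)
        (add_le_add_right (dens_or _ _ N) _)) _))
    intro v hv
    by_cases hp : (Ideal.absNorm v.asIdeal).Prime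
    · by_cases hS : Ideal.absNorm v.asIdeal ∈ S
      · exact Or.inr (Or.inr (Or.inr hS))
      · by_cases hd : NewtonSlopes (Ideal.absNorm v.asIdeal) (G v) (slopes A m)
        · exact Or.inl ⟨⟨hp, hS⟩, hd⟩
        · exact Or.inr (Or.inl ⟨⟨hp, hS⟩, hv, hd⟩)
    · exact Or.inr (Or.inr (Or.inl hp))
  linarith

end family

end MotSystem

/-- lower bound for the lower density -/
theorem lowerDensity_ge {K : Type} [Field K] [NumberField K] (P : HeightOneSpectrum (𝓞 K) → Prop)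
    (δ : ℝ) (h : ∀ ε : ℝ, 0 < ε → ∀ᶠ N : ℕ in atTop, δ - ε ≤ dens P N) : δ ≤ lowerDensity P := by
  apply le_of_forall_pos_le_add
  intro ε hε
  rw [← sub_le_iff_le_add]
  unfold lowerDensity
  have hbd : IsCoboundedUnder (· ≥ ·) atTop (ratio P) := by
    refine IsBoundedUnder.isCoboundedUnder_ge ?_
    exact ⟨1, by
      rw [eventually_map]
      exact Eventually.of_forall fun N => ratio_le_one P N⟩
  apply le_liminf_of_le hbd
  by_cases hδ : δ - ε ≤ 0
  · exact Eventually.of_forall fun N => hδ.trans (ratio_nonneg P N)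
  · push Not at hδ
    set c : ℝ := 1 + ε / (4 * δ) with hc
    have hδ0 : 0 < δ := by linarith
    have hc1 : 1 < c := by
      have : 0 < ε / (4 * δ) := by positivity
      linarith
    have h1 := (dens_true' (K := K)).eventually (gt_mem_nhds hc1)
    filter_upwards [h (ε / 2) (by linarith), h1, ratio_eq P, (dens_true' (K := K)).eventually (lt_mem_nhds
      (show (1/2:ℝ) < 1 by norm_num))] with N hN hN1 hN2 hN3
    rw [hN2]
    have hpos : (0:ℝ) < (Nat.card {v : HeightOneSpectrum (𝓞 K) // Ideal.absNorm v.asIdeal ≤ N} : ℝ) /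
        (Nat.primeCounting N : ℝ) := by linarith
    rw [le_div_iff₀ hpos]
    have h4 : (δ - ε) * ((Nat.card {v : HeightOneSpectrum (𝓞 K) // Ideal.absNorm v.asIdeal ≤ N} : ℝ) /
        (Nat.primeCounting N : ℝ)) ≤ (δ - ε) * c := mul_le_mul_of_nonneg_left hN1.le hδ.le
    refine h4.trans (le_trans ?_ hN)
    rw [hc]
    have h5 : (δ - ε) * (1 + ε / (4 * δ)) = (δ - ε) + (δ - ε) * (ε / (4 * δ)) := by ring
    have h6 : (δ - ε) * (ε / (4 * δ)) ≤ δ * (ε / (4 * δ)) :=
      mul_le_mul_of_nonneg_right (by linarith) (by positivity)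
    have h7 : δ * (ε / (4 * δ)) = ε / 4 := by field_simp
    rw [h5]
    linarith

end Pool.Agent.W528.Ord
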