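import Pool.Agent.W518.DN.NP

/-! Newton polygons: the absolute values of the roots from those of the coefficients. -/

set_option autoImplicit false
set_option linter.all false

namespace Pool.Agent.W528.Ord

open Polynomial

theorem exists_lower (M : Multiset ℝ) (h : ∀ x ∈ M, 0 < x) : ∃ r : ℝ, 0 < r ∧ ∀ x ∈ M, r ≤ x := by
  induction M using Multiset.induction_on with
  | empty => exact ⟨1, one_pos, by simp⟩
  | cons a M ih =>
    obtain ⟨r, hr, hM⟩ := ih (fun x hx => h x (Multiset.mem_cons_of_mem hx))
    refine ⟨min r a, lt_min hr (h a (Multiset.mem_cons_self a M)), ?_⟩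
    intro x hx
    rcases Multiset.mem_cons.mp hx with rfl | hx
    · exact min_le_right _ _
    · exact (min_le_left _ _).trans (hM x hx)

theorem prod_pow_sum (q : ℝ) (l : List ℕ) : (l.map fun a => q ^ a).prod = q ^ l.sum := by
  induction l with
  | nil => simp
  | cons a l ih => rw [List.map_cons, List.prod_cons, ih, List.sum_cons, pow_add]

theorem prod_max_ge (q r : ℝ) (hq : 0 < q) (hr : 0 < r) (l : List ℕ) :
    q ^ l.sum ≤ (l.map fun a => max r (q ^ a)).prod ∧ r ^ l.length ≤ (l.map fun a => max r (q ^ a)).prod ∧
    0 < (l.map fun a => max r (q ^ a)).prod := by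
  induction l with
  | nil => simp
  | cons a l ih =>
    obtain ⟨h1, h2, h3⟩ := ih
    have h4 : 0 < max r (q ^ a) := lt_max_of_lt_left hr
    rw [List.map_cons, List.prod_cons, List.sum_cons, List.length_cons, pow_add, pow_succ']
    refine ⟨?_, ?_, by positivity⟩
    · exact mul_le_mul (le_max_right _ _) h1 (by positivity) h4.le
    · exact mul_le_mul (le_max_left _ _) h2 (by positivity) h4.le

theorem prod_max_large (q r : ℝ) (l : List ℕ) (h : ∀ a ∈ l, r < q ^ a) :
    (l.map fun a => max r (q ^ a)).prod = q ^ l.sum := by
  rw [← prod_pow_sum]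
  congr 1
  exact List.map_congr_left fun a ha => max_eq_right (h a ha).le

theorem prod_max_small (q r : ℝ) (l : List ℕ) (h : ∀ a ∈ l, q ^ a ≤ r) :
    (l.map fun a => max r (q ^ a)).prod = r ^ l.length := by
  have : l.map (fun a => max r (q ^ a)) = l.map fun _ => r :=
    List.map_congr_left fun a ha => max_eq_left (h a ha)
  rw [this, List.map_const', List.prod_replicate]

variable {L : Type*} [NormedField L] [IsUltrametricDist L]

/-- the absolute values of the roots of a polynomial whose Newton polygon is given by the sorted list
of slopes `l` -/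
theorem roots_norm (f : L[X]) (n : ℕ) (hm : f.Monic) (hn : f.natDegree = n) (hs : f.Splits) (q : ℝ)
    (hq0 : 0 < q) (hq1 : q < 1) (l : List ℕ) (hl : l.Pairwise (· ≤ ·)) (hlen : l.length = n)
    (hle : ∀ k ≤ n, ‖f.coeff (n - k)‖ ≤ q ^ (l.take k).sum)
    (heq : ∀ k, 0 < k → k < n → l.getD (k - 1) 0 < l.getD k 0 → ‖f.coeff (n - k)‖ = q ^ (l.take k).sum)
    (hend : ‖f.coeff 0‖ = q ^ l.sum) :
    f.roots.map (fun y => ‖y‖) = ((l.map (fun a => q ^ a) : List ℝ) : Multiset ℝ) := by
  classical
  set v : AbsoluteValue L ℝ := NormedField.toAbsoluteValue L with hv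
  have hvn : ∀ x : L, v x = ‖x‖ := fun x => rfl
  have hna : IsNonarchimedean v := fun x y => IsUltrametricDist.norm_add_le_max x y
  have hcard : Multiset.card f.roots = n := by rw [← hn]; exact splits_iff_card_roots.mp hs
  have hprod : f = (f.roots.map fun y => X - C y).prod := by
    conv_lhs => rw [hs.eq_prod_roots, hm.leadingCoeff, C_1, one_mul]
  have h0 : f.coeff 0 ≠ 0 := by
    intro h
    rw [h, norm_zero] at hend
    exact (pow_pos hq0 _).ne hend
  -- the key equality
  have key : ∀ r : ℝ, 0 < r → (f.roots.map fun y => max r ‖y‖).prod =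
      (l.map fun a => max r (q ^ a)).prod := by
    intro r hr
    have h1 := Pool.Agent.W518.DN.gn_linear (v := v) hna hr f.roots
    rw [← hprod] at h1
    have h2 : (f.roots.map fun y => max r (v y)).prod = (f.roots.map fun y => max r ‖y‖).prod := rfl
    rw [← h2, ← h1]
    -- split the list
    set l1 := l.takeWhile (fun a => decide (r < q ^ a)) with hl1
    set l2 := l.dropWhile (fun a => decide (r < q ^ a)) with hl2
    have hll : l1 ++ l2 = l := List.takeWhile_append_dropWhile
    have hbig : ∀ a ∈ l1, r < q ^ a := by
      intro a ha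
      have := List.mem_takeWhile_imp ha
      simpa using this
    have hpw : (l1 ++ l2).Pairwise (· ≤ ·) := by rw [hll]; exact hl
    have hsmall : ∀ b ∈ l2, q ^ b ≤ r := by
      intro b hb
      rcases hl2' : l2 with _ | ⟨c, t⟩
      · rw [hl2'] at hb; simp at hb
      · have hc : ¬ (r < q ^ c) := by
          have h3 := List.head?_dropWhile_not (fun a => decide (r < q ^ a)) l
          rw [← hl2, hl2'] at h3
          simpa using h3
        rw [hl2'] at hb
        have hcb : c ≤ b := by
          have h4 : (c :: t).Pairwise (· ≤ ·) := by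
            have := (List.pairwise_append.mp hpw).2.1
            rwa [hl2'] at this
          rcases List.mem_cons.mp hb with rfl | hb
          · exact le_rfl
          · exact (List.pairwise_cons.mp h4).1 b hb
        exact (pow_le_pow_of_le_one hq0.le hq1.le hcb).trans (not_lt.mp hc)
    have hM : (l.map fun a => max r (q ^ a)).prod = q ^ l1.sum * r ^ l2.length := by
      rw [← hll, List.map_append, List.prod_append, prod_max_large q r l1 hbig,
        prod_max_small q r l2 hsmall]
    have hk : l1.length ≤ n := by
      rw [← hlen, ← hll, List.length_append]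
      exact Nat.le_add_right _ _
    have htake : l.take l1.length = l1 := by
      rw [← hll, List.take_left]
    have hlen2 : l2.length = n - l1.length := by
      rw [← hlen, ← hll, List.length_append]
      omega
    apply Pool.Agent.W518.DN.gn_eq hr.le _ (n - l1.length)
    · rw [hvn, hM, hlen2]
      congr 1
      rcases Nat.eq_zero_or_pos l1.length with hz | hpos
      · rw [hz, Nat.sub_zero, ← hn, hm.coeff_natDegree, norm_one, List.length_eq_zero_iff.mp hz]
        simp
      · rcases lt_or_eq_of_le hk with hlt | heq'
        · rw [heq _ hpos hlt ?_, htake]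
          -- vertex
          have hne2 : 0 < l2.length := by rw [hlen2]; omega
          have e1 : l.getD (l1.length - 1) 0 ∈ l1 := by
            rw [← hll, List.getD_append _ _ _ _ (by omega)]
            rw [List.getD_eq_getElem _ _ (by omega)]
            exact List.getElem_mem _
          have e2 : l.getD l1.length 0 ∈ l2 := by
            rw [← hll, List.getD_append_right _ _ _ _ (by omega), Nat.sub_self]
            rw [List.getD_eq_getElem _ _ hne2]
            exact List.getElem_mem _
          have h5 := hbig _ e1
          have h6 := hsmall _ e2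
          by_contra hcon
          have h7 := pow_le_pow_of_le_one hq0.le hq1.le (not_lt.mp hcon)
          linarith
        · rw [heq', Nat.sub_self, hend]
          have : l2 = [] := by
            apply List.length_eq_zero_iff.mp
            rw [hlen2]; omega
          rw [← hll, this, List.append_nil]
    · intro i
      rw [hvn]
      by_cases hi : i ≤ n
      · have h3 := hle (n - i) (by omega)
        rw [show n - (n - i) = i by omega] at h3
        have h4 : l = l.take (n - i) ++ l.drop (n - i) := (List.take_append_drop _ _).symm
        have h5 : (l.map fun a => max r (q ^ a)).prod = ((l.take (n - i)).map fun a => max r (q ^ a)).prod *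
            ((l.drop (n - i)).map fun a => max r (q ^ a)).prod := by
          rw [← List.prod_append, ← List.map_append, List.take_append_drop]
        rw [h5]
        have h6 := prod_max_ge q r hq0 hr (l.take (n - i))
        have h7 := prod_max_ge q r hq0 hr (l.drop (n - i))
        have h8 : (l.drop (n - i)).length = i := by
          rw [List.length_drop, hlen]; omega
        rw [h8] at h7
        exact mul_le_mul (h3.trans h6.1) h7.2.1 (by positivity) h6.2.2.le
      · have : f.coeff i = 0 := coeff_eq_zero_of_natDegree_lt (by omega)
        rw [this, norm_zero, zero_mul]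
        exact (prod_max_ge q r hq0 hr l).2.2.le
  have hposM : ∀ x ∈ f.roots.map (fun y => ‖y‖), 0 < x := by
    intro x hx
    obtain ⟨y, hy, rfl⟩ := Multiset.mem_map.mp hx
    rw [norm_pos_iff]
    rintro rfl
    apply h0
    have := isRoot_of_mem_roots hy
    rwa [IsRoot, ← coeff_zero_eq_eval_zero] at this
  have hposN : ∀ x ∈ ((l.map (fun a => q ^ a) : List ℝ) : Multiset ℝ), 0 < x := by
    intro x hx
    rw [Multiset.mem_coe, List.mem_map] at hx
    obtain ⟨a, -, rfl⟩ := hx
    positivity
  obtain ⟨r1, hr1, h1⟩ := exists_lower _ hposM
  obtain ⟨r2, hr2, h2⟩ := exists_lower _ hposN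
  refine Pool.Agent.W518.DN.eq_of_prod_max (min r1 r2) (lt_min hr1 hr2) n _ _ (by simp [hcard])
    (by simp [hlen]) (fun x hx => (min_le_left _ _).trans (h1 x hx))
    (fun x hx => (min_le_right _ _).trans (h2 x hx)) ?_
  intro r hr
  have hr0 : 0 < r := lt_of_lt_of_le (lt_min hr1 hr2) hr
  have h3 := key r hr0
  rw [Multiset.map_map, Multiset.map_coe, Multiset.prod_coe, List.map_map]
  exact h3

end Pool.Agent.W528.Ord
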