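import Pool.Agent.W352.ChAbs.Frob
import Pool.Agent.W528.Ord.Loc

/-! Embeddings of the algebraic closure of a number field into the algebraic closure of `ℚ_p` inducing
a given maximal ideal. -/

set_option autoImplicit false
set_option linter.all false

namespace Pool.Agent.W528.Ord

open NumberField IsDedekindDomain Polynomial
open Pool.Agent.W401.Cheb

section norm

variable {L : Type*} [NormedField L] [IsUltrametricDist L]

theorem norm_le_one_of_integral (y : L) (hy : IsIntegral ℤ y) : ‖y‖ ≤ 1 := by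
  by_contra hcon
  have h1 : 1 < ‖y‖ := not_le.mp hcon
  obtain ⟨f, hm, hf⟩ := hy
  have hn : f.natDegree ≠ 0 := by
    intro h
    have : f = 1 := hm.natDegree_eq_zero.mp h
    rw [this, eval₂_one] at hf
    exact one_ne_zero hf
  rw [eval₂_eq_sum_range, Finset.sum_range_succ, hm.coeff_natDegree, map_one, one_mul] at hf
  have h2 : y ^ f.natDegree = - ∑ i ∈ Finset.range f.natDegree, (algebraMap ℤ L) (f.coeff i) * y ^ i := by
    rw [eq_neg_iff_add_eq_zero, add_comm]
    exact hf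
  have h3 : ‖∑ i ∈ Finset.range f.natDegree, (algebraMap ℤ L) (f.coeff i) * y ^ i‖ ≤
      ‖y‖ ^ (f.natDegree - 1) := by
    apply IsUltrametricDist.norm_sum_le_of_forall_le_of_nonneg (by positivity)
    intro i hi
    rw [norm_mul, norm_pow]
    have h4 : ‖(algebraMap ℤ L) (f.coeff i)‖ ≤ 1 := by
      rw [eq_intCast]
      exact IsUltrametricDist.norm_intCast_le_one L _
    calc ‖(algebraMap ℤ L) (f.coeff i)‖ * ‖y‖ ^ i ≤ 1 * ‖y‖ ^ i :=
          mul_le_mul_of_nonneg_right h4 (by positivity)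
      _ = ‖y‖ ^ i := one_mul _
      _ ≤ ‖y‖ ^ (f.natDegree - 1) := pow_le_pow_right₀ h1.le (by
          have := Finset.mem_range.mp hi; omega)
  have h5 : ‖y‖ ^ f.natDegree ≤ ‖y‖ ^ (f.natDegree - 1) := by
    rw [← norm_pow, h2, norm_neg]
    exact h3
  have h6 : ‖y‖ ^ (f.natDegree - 1) < ‖y‖ ^ f.natDegree := pow_lt_pow_right₀ h1 (by omega)
  linarith

end norm

section tau

variable {K : Type} [Field K] [NumberField K] {p : ℕ} [Fact p.Prime]

theorem norm_p : ‖(p : PadicAlgCl p)‖ = 1 / (p : ℝ) := by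
  have h : (p : PadicAlgCl p) = algebraMap ℚ_[p] (PadicAlgCl p) (p : ℚ_[p]) := by
    rw [map_natCast]
  rw [h, norm_algebraMap', Padic.norm_p, one_div]

theorem norm_tau_le (τ : AlgebraicClosure K →+* PadicAlgCl p) (x : 𝓞 (AlgebraicClosure K)) :
    ‖τ (x : AlgebraicClosure K)‖ ≤ 1 := by
  apply norm_le_one_of_integral
  have h := x.isIntegral_coe
  exact h.map (τ.toIntAlgHom)

/-- the prime ideal induced by an embedding -/
noncomputable def Qt (τ : AlgebraicClosure K →+* PadicAlgCl p) : Ideal (𝓞 (AlgebraicClosure K)) where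
  carrier := {x | ‖τ (x : AlgebraicClosure K)‖ < 1}
  add_mem' := by
    intro a b ha hb
    have e : ((a + b : 𝓞 (AlgebraicClosure K)) : AlgebraicClosure K) = (a : AlgebraicClosure K) + b := rfl
    change ‖τ ((a + b : 𝓞 (AlgebraicClosure K)) : AlgebraicClosure K)‖ < 1
    rw [e, map_add]
    exact lt_of_le_of_lt (IsUltrametricDist.norm_add_le_max _ _) (max_lt ha hb)
  zero_mem' := by
    change ‖τ ((0 : 𝓞 (AlgebraicClosure K)) : AlgebraicClosure K)‖ < 1
    have e : ((0 : 𝓞 (AlgebraicClosure K)) : AlgebraicClosure K) = 0 := rfl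
    rw [e, map_zero, norm_zero]
    exact one_pos
  smul_mem' := by
    intro c x hx
    change ‖τ ((c * x : 𝓞 (AlgebraicClosure K)) : AlgebraicClosure K)‖ < 1
    have e : ((c * x : 𝓞 (AlgebraicClosure K)) : AlgebraicClosure K) = (c : AlgebraicClosure K) * x := rfl
    rw [e, map_mul, norm_mul]
    have h1 := norm_tau_le τ c
    have h2 : ‖τ (x : AlgebraicClosure K)‖ < 1 := hx
    calc ‖τ (c : AlgebraicClosure K)‖ * ‖τ (x : AlgebraicClosure K)‖ ≤ 1 * ‖τ (x : AlgebraicClosure K)‖ :=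
          mul_le_mul_of_nonneg_right h1 (norm_nonneg _)
      _ < 1 := by rwa [one_mul]

theorem mem_Qt (τ : AlgebraicClosure K →+* PadicAlgCl p) (x : 𝓞 (AlgebraicClosure K)) :
    x ∈ Qt τ ↔ ‖τ (x : AlgebraicClosure K)‖ < 1 := Iff.rfl

theorem Qt_prime (τ : AlgebraicClosure K →+* PadicAlgCl p) : (Qt τ).IsPrime := by
  constructor
  · intro h
    have : (1 : 𝓞 (AlgebraicClosure K)) ∈ Qt τ := by rw [h]; trivial
    rw [mem_Qt] at this
    have e : ((1 : 𝓞 (AlgebraicClosure K)) : AlgebraicClosure K) = 1 := rfl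
    rw [e, map_one, norm_one] at this
    exact lt_irrefl _ this
  · intro x y hxy
    rw [mem_Qt] at hxy ⊢
    rw [mem_Qt]
    have e : ((x * y : 𝓞 (AlgebraicClosure K)) : AlgebraicClosure K) = (x : AlgebraicClosure K) * y := rfl
    rw [e, map_mul, norm_mul] at hxy
    by_contra hcon
    push Not at hcon
    have h1 := norm_tau_le τ x
    have h2 := norm_tau_le τ y
    have h3 : ‖τ (x : AlgebraicClosure K)‖ = 1 := le_antisymm h1 hcon.1
    have h4 : ‖τ (y : AlgebraicClosure K)‖ = 1 := le_antisymm h2 hcon.2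
    rw [h3, h4, one_mul] at hxy
    exact lt_irrefl _ hxy

theorem p_mem_Qt (τ : AlgebraicClosure K →+* PadicAlgCl p) : (p : 𝓞 (AlgebraicClosure K)) ∈ Qt τ := by
  rw [mem_Qt]
  have e : ((p : 𝓞 (AlgebraicClosure K)) : AlgebraicClosure K) = (p : AlgebraicClosure K) :=
    map_natCast (algebraMap (𝓞 (AlgebraicClosure K)) (AlgebraicClosure K)) p
  rw [e, map_natCast, norm_p]
  have hp : (1 : ℝ) < p := by exact_mod_cast (Fact.out : p.Prime).one_lt
  rw [div_lt_one (by linarith)]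
  exact hp

theorem isGalois_Q : IsGalois ℚ (AlgebraicClosure K) := by
  haveI : Algebra.IsAlgebraic ℚ (AlgebraicClosure K) := Algebra.IsAlgebraic.trans ℚ K _
  haveI : IsAlgClosure ℚ (AlgebraicClosure K) := ⟨inferInstance, inferInstance⟩
  haveI : Normal ℚ (AlgebraicClosure K) := IsAlgClosure.normal ℚ _
  exact { }

theorem smul_coe (σ : Gal(AlgebraicClosure K/ℚ)) (x : 𝓞 (AlgebraicClosure K)) :
    ((σ • x : 𝓞 (AlgebraicClosure K)) : AlgebraicClosure K) = σ (x : AlgebraicClosure K) := rfl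

/-- transitivity of the Galois group over `ℚ` on the primes above `p` -/
theorem exists_smul_Q (Q Q' : Ideal (𝓞 (AlgebraicClosure K))) [hQ : Q.IsPrime] [hQ' : Q'.IsPrime]
    (h : Q.comap (algebraMap ℤ (𝓞 (AlgebraicClosure K))) =
      Q'.comap (algebraMap ℤ (𝓞 (AlgebraicClosure K)))) :
    ∃ σ : Gal(AlgebraicClosure K/ℚ), ∀ x : 𝓞 (AlgebraicClosure K), x ∈ Q ↔ σ • x ∈ Q' := by
  haveI := isGalois_Q (K := K)
  letI : TopologicalSpace (𝓞 (AlgebraicClosure K)) := ⊥
  haveI : DiscreteTopology (𝓞 (AlgebraicClosure K)) := ⟨rfl⟩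
  haveI : ContinuousSMul (Gal(AlgebraicClosure K/ℚ)) (𝓞 (AlgebraicClosure K)) := by
    rw [continuousSMul_iff_stabilizer_isOpen]
    intro x
    have := stabilizer_isOpen_of_isIntegral (K := ℚ) (L := AlgebraicClosure K) (x : AlgebraicClosure K)
    convert this using 1
    ext σ
    simp only [SetLike.mem_coe, MulAction.mem_stabilizer_iff]
    constructor
    · intro h
      have := congrArg (fun y : 𝓞 (AlgebraicClosure K) => (y : AlgebraicClosure K)) h
      exact this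
    · intro h
      exact RingOfIntegers.ext h
  haveI : SMulCommClass (Gal(AlgebraicClosure K/ℚ)) ℤ (𝓞 (AlgebraicClosure K)) := inferInstance
  haveI : Algebra.IsInvariant ℤ (𝓞 (AlgebraicClosure K)) (Gal(AlgebraicClosure K/ℚ)) := ⟨by
    intro x hx
    have h : (x : AlgebraicClosure K) ∈ Set.range (algebraMap ℚ (AlgebraicClosure K)) := by
      rw [InfiniteGalois.mem_range_algebraMap_iff_fixed]
      intro σ
      have := congrArg (fun y : 𝓞 (AlgebraicClosure K) => (y : AlgebraicClosure K)) (hx σ)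
      exact this
    obtain ⟨k, hk⟩ := h
    have hint : IsIntegral ℤ k := by
      have h1 : IsIntegral ℤ (x : AlgebraicClosure K) := x.isIntegral_coe
      rw [← hk] at h1
      exact (isIntegral_algebraMap_iff (algebraMap ℚ (AlgebraicClosure K)).injective).mp h1
    obtain ⟨m, hm⟩ := IsIntegrallyClosed.isIntegral_iff.mp hint
    refine ⟨m, ?_⟩
    apply RingOfIntegers.ext
    rw [← hk, ← hm]
    simp⟩
  obtain ⟨g, hg⟩ := Algebra.IsInvariant.exists_smul_of_under_eq_of_profinite (A := ℤ)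
    (G := Gal(AlgebraicClosure K/ℚ)) Q Q' h
  refine ⟨g, fun x => ?_⟩
  rw [hg]
  exact Ideal.smul_mem_pointwise_smul_iff.symm

/-- every maximal ideal containing `p` is induced by an embedding -/
theorem exists_tau (Q : Ideal (𝓞 (AlgebraicClosure K))) (hQ : Q.IsMaximal)
    (hp : (p : 𝓞 (AlgebraicClosure K)) ∈ Q) :
    ∃ τ : AlgebraicClosure K →+* PadicAlgCl p, ∀ x : 𝓞 (AlgebraicClosure K),
      x ∈ Q ↔ ‖τ (x : AlgebraicClosure K)‖ < 1 := by
  haveI := hQ.isPrime
  haveI : Algebra.IsAlgebraic ℚ (AlgebraicClosure K) := Algebra.IsAlgebraic.trans ℚ K _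
  let τ₀ : AlgebraicClosure K →+* PadicAlgCl p :=
    (IsAlgClosed.lift (R := ℚ) (S := AlgebraicClosure K) (M := PadicAlgCl p)).toRingHom
  haveI := Qt_prime τ₀
  have hunder : ∀ Q' : Ideal (𝓞 (AlgebraicClosure K)), Q'.IsPrime → (p : 𝓞 (AlgebraicClosure K)) ∈ Q' →
      Q'.comap (algebraMap ℤ (𝓞 (AlgebraicClosure K))) = Ideal.span {(p : ℤ)} := by
    intro Q' hQ' hpQ'
    symm
    have hmax : (Ideal.span {(p : ℤ)}).IsMaximal :=
      PrincipalIdealRing.isMaximal_of_irreducible (Nat.prime_iff_prime_int.mp Fact.out).irreducible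
    apply hmax.eq_of_le
    · exact (Ideal.comap_isPrime (algebraMap ℤ (𝓞 (AlgebraicClosure K))) Q').ne_top
    · rw [Ideal.span_le, Set.singleton_subset_iff, SetLike.mem_coe, Ideal.mem_comap]
      simpa using hpQ'
  obtain ⟨σ, hσ⟩ := exists_smul_Q Q (Qt τ₀) (by
    rw [hunder Q inferInstance hp, hunder (Qt τ₀) inferInstance (p_mem_Qt τ₀)])
  refine ⟨τ₀.comp (σ.toAlgHom.toRingHom), fun x => ?_⟩
  rw [hσ x, mem_Qt]
  rfl

theorem norm_one_of_notMem {Q : Ideal (𝓞 (AlgebraicClosure K))} {τ : AlgebraicClosure K →+* PadicAlgCl p}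
    (hτ : ∀ x : 𝓞 (AlgebraicClosure K), x ∈ Q ↔ ‖τ (x : AlgebraicClosure K)‖ < 1)
    {s : 𝓞 (AlgebraicClosure K)} (hs : s ∉ Q) : ‖τ (s : AlgebraicClosure K)‖ = 1 := by
  rw [hτ] at hs
  exact le_antisymm (norm_tau_le τ s) (not_lt.mp hs)

theorem norm_of_locDvd {Q : Ideal (𝓞 (AlgebraicClosure K))} {τ : AlgebraicClosure K →+* PadicAlgCl p}
    (hτ : ∀ x : 𝓞 (AlgebraicClosure K), x ∈ Q ↔ ‖τ (x : AlgebraicClosure K)‖ < 1)
    {m : ℕ} {x : 𝓞 (AlgebraicClosure K)} (h : LocDvd Q p m x) :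
    ‖τ (x : AlgebraicClosure K)‖ ≤ (1 / (p : ℝ)) ^ m := by
  obtain ⟨s, hs, y, hy⟩ := h
  have h1 := congrArg (fun z : 𝓞 (AlgebraicClosure K) => ‖τ (z : AlgebraicClosure K)‖) hy
  simp only [map_mul, map_pow, map_natCast, norm_mul, norm_pow, norm_p] at h1
  rw [norm_one_of_notMem hτ hs, one_mul] at h1
  rw [h1]
  have h2 := norm_tau_le τ y
  have h3 : 0 ≤ (1 / (p : ℝ)) ^ m := by positivity
  nlinarith

theorem norm_of_locEq {Q : Ideal (𝓞 (AlgebraicClosure K))} {τ : AlgebraicClosure K →+* PadicAlgCl p}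
    (hτ : ∀ x : 𝓞 (AlgebraicClosure K), x ∈ Q ↔ ‖τ (x : AlgebraicClosure K)‖ < 1)
    {m : ℕ} {x : 𝓞 (AlgebraicClosure K)} (h : LocEq Q p m x) :
    ‖τ (x : AlgebraicClosure K)‖ = (1 / (p : ℝ)) ^ m := by
  obtain ⟨s, t, hs, ht, hy⟩ := h
  have h1 := congrArg (fun z : 𝓞 (AlgebraicClosure K) => ‖τ (z : AlgebraicClosure K)‖) hy
  simp only [map_mul, map_pow, map_natCast, norm_mul, norm_pow, norm_p] at h1
  rwa [norm_one_of_notMem hτ hs, norm_one_of_notMem hτ ht, one_mul, one_mul] at h1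

end tau

end Pool.Agent.W528.Ord
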