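import Pool.Agent.W528.Ord.MotOrbit
import Pool.Agent.W528.Ord.Newton
import Pool.Agent.W528.Ord.Tau

/-! Without an excess at the vertices the Newton polygon is the Hodge polygon. -/

set_option autoImplicit false
set_option linter.all false

namespace Pool.Agent.W528.Ord

open NumberField IsDedekindDomain Polynomial Filter Topology
open Pool.Agent.W401.Cheb

namespace MotSystem

open MultSystem (mv IsDeg1 IsOver mv_mul mv_one mv_inj mv_fix_open norm_mem frob_pow_dvd)

variable {K : Type} [Field K] [NumberField K] {ℓ : ℕ} [Fact ℓ.Prime]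

section fixed

variable {A : MotSystem K ℓ} {χ : GK K →* (PadicAlgCl ℓ)ˣ} {S : Finset ℕ} (hA : A.IsMotive χ S)
  {v : HeightOneSpectrum (𝓞 K)} (hv : IsDeg1 S v)
  {Q : Ideal (𝓞 (AlgebraicClosure K))} (hQ : IsOver Q v)

include hA hv hQ in
theorem roots_part {p : ℕ} [Fact p.Prime] (hpe : Ideal.absNorm v.asIdeal = p)
    {τ : AlgebraicClosure K →+* PadicAlgCl p}
    (hτ : ∀ x : 𝓞 (AlgebraicClosure K), x ∈ Q ↔ ‖τ (x : AlgebraicClosure K)‖ < 1)
    (σ : A.E →+* AlgebraicClosure K)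
    (hno : ∀ k : ℕ, A.Vertex σ k → ¬ LocDvd Q (Ideal.absNorm v.asIdeal) (A.hp σ k + 1) (A.cof v (A.n - k) σ)) :
    ((A.poly v (τ.comp σ)).roots.map fun y => ‖y‖) =
      ((A.h σ : Multiset ℕ)).map fun a => (1 / (p : ℝ)) ^ a := by
  haveI := hQ.1.isPrime
  have hpQ := norm_mem hv.1 hQ.2
  obtain ⟨hm, hn⟩ := hA.isMonic v hv
  obtain ⟨h1, h2, h3, h4, h5⟩ := hA.isHodge σ
  have hp1 : (1 : ℝ) < p := by exact_mod_cast (Fact.out : p.Prime).one_lt
  have hq1 : 1 / (p : ℝ) < 1 := by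
    rw [div_lt_one (by linarith)]
    exact hp1
  have hco : ∀ j, (A.poly v (τ.comp σ)).coeff j = τ ((A.cof v j σ : 𝓞 (AlgebraicClosure K)) : AlgebraicClosure K) := by
    intro j
    unfold poly
    rw [coeff_map]
    rfl
  have hunr : ∀ 𝔭 : Ideal (𝓞 A.E), 𝔭.IsPrime → ((Ideal.absNorm v.asIdeal : ℕ) : 𝓞 A.E) ∈ 𝔭 →
      ((Ideal.absNorm v.asIdeal : ℕ) : 𝓞 A.E) ∉ 𝔭 ^ 2 := hA.isUnram _ hv.1 hv.2
  have key := roots_norm (A.poly v (τ.comp σ)) A.n (hm.map _) (by
      unfold poly; rw [hm.natDegree_map, hn]) (IsAlgClosed.splits _) (1 / (p : ℝ)) (by positivity) hq1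
      (A.h σ) h2 h1 ?_ ?_ ?_
  · rw [key]
    rfl
  · intro k hk
    rw [hco]
    have := norm_of_locDvd (p := p) hτ (by
      have h := (hA.isMazur v hv Q hQ σ).1 k hk
      rwa [hpe] at h)
    exact this
  · intro k hk0 hk hv'
    rw [hco]
    have hver : A.Vertex σ k := ⟨hk0, hk, hv'⟩
    have h := (hA.isMazur v hv Q hQ σ).1 k hk.le
    have hle : LocEq Q (Ideal.absNorm v.asIdeal) (A.hp σ k) (A.cof v (A.n - k) σ) := by
      by_contra hcon
      exact hno k hver (dichotomy σ Q _ hv.1 hpQ hunr _ _ h hcon)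
    rw [hpe] at hle
    exact norm_of_locEq (p := p) hτ hle
  · rw [hco]
    have hle := (hA.isMazur v hv Q hQ σ).2
    rw [hpe] at hle
    have := norm_of_locEq (p := p) hτ hle
    rw [this]
    unfold MotSystem.hp
    rw [List.take_of_length_le (le_of_eq h1)]

end fixed

section family

variable {ι : Type} [Fintype ι] (A : ι → MotSystem K ℓ) (m : ι → ℕ) (χ : GK K →* (PadicAlgCl ℓ)ˣ)
  (S : Finset ℕ) (hA : ∀ i, (A i).IsMotive χ S)

theorem roots_prod_norm {L : Type} [NormedField L] {κ : Type} (s : Finset κ) (f : κ → Polynomial L)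
    (hf : ∀ i ∈ s, f i ≠ 0) : ((∏ i ∈ s, f i).roots.map fun y => ‖y‖) =
      ∑ i ∈ s, ((f i).roots.map fun y => ‖y‖) := by
  classical
  induction s using Finset.induction_on with
  | empty => simp
  | insert b s hb ih =>
    have h1 : (∏ i ∈ s, f i) ≠ 0 := Finset.prod_ne_zero_iff.mpr fun i hi => hf i (Finset.mem_insert_of_mem hi)
    rw [Finset.prod_insert hb, Finset.sum_insert hb,
      roots_mul (mul_ne_zero (hf b (Finset.mem_insert_self b s)) h1), Multiset.map_add,
      ih (fun i hi => hf i (Finset.mem_insert_of_mem hi))]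

theorem map_sum_multiset {α β : Type} (f : α → β) {κ : Type} (s : Finset κ) (M : κ → Multiset α) :
    (∑ i ∈ s, M i).map f = ∑ i ∈ s, (M i).map f :=
  map_sum (Multiset.mapAddMonoidHom f) M s

include hA in
theorem newton_of {v : HeightOneSpectrum (𝓞 K)} (hv : IsDeg1 S v)
    {Q : Ideal (𝓞 (AlgebraicClosure K))} (hQ : IsOver Q v) (G : Polynomial ℤ)
    (hG : G.map (Int.castRingHom (AlgebraicClosure K)) = prodPoly A m v)
    (hno : ∀ i, 0 < m i → ∀ (σ : (A i).E →+* AlgebraicClosure K) (k : ℕ), (A i).Vertex σ k →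
      ¬ LocDvd Q (Ideal.absNorm v.asIdeal) ((A i).hp σ k + 1) ((A i).cof v ((A i).n - k) σ)) :
    NewtonSlopes (Ideal.absNorm v.asIdeal) G (slopes A m) := by
  classical
  obtain ⟨p, hpe⟩ : ∃ p, Ideal.absNorm v.asIdeal = p := ⟨_, rfl⟩
  have hpp : p.Prime := hpe ▸ hv.1
  haveI : Fact p.Prime := ⟨hpp⟩
  have hpQ := norm_mem hv.1 hQ.2
  rw [hpe] at hpQ
  obtain ⟨τ, hτ⟩ := exists_tau (p := p) Q hQ.1 hpQ
  have hG2 : G.map (Int.castRingHom (PadicAlgCl p)) =
      ∏ i, ∏ σ : (A i).E →+* AlgebraicClosure K, ((A i).poly v (τ.comp σ)) ^ m i := by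
    have e1 : τ.comp (Int.castRingHom (AlgebraicClosure K)) = Int.castRingHom (PadicAlgCl p) :=
      RingHom.ext_int _ _
    rw [← e1, ← Polynomial.map_map, hG]
    unfold prodPoly
    rw [Polynomial.map_prod]
    apply Finset.prod_congr rfl
    intro i _
    rw [Polynomial.map_prod]
    apply Finset.prod_congr rfl
    intro σ _
    unfold poly
    rw [Polynomial.map_pow, Polynomial.map_map]
    rfl
  have hne : ∀ i (σ : (A i).E →+* AlgebraicClosure K), (A i).poly v (τ.comp σ) ≠ 0 := by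
    intro i σ
    obtain ⟨hm, hn⟩ := (hA i).isMonic v hv
    exact (hm.map _).ne_zero
  have main : NewtonSlopes p G (slopes A m) := by
    refine ⟨inferInstance, ?_⟩
    rw [hG2, roots_prod_norm _ _ (fun i _ => Finset.prod_ne_zero_iff.mpr fun σ _ => pow_ne_zero _ (hne i σ))]
    unfold slopes
    rw [map_sum_multiset]
    apply Finset.sum_congr rfl
    intro i _
    rw [roots_prod_norm _ _ (fun σ _ => pow_ne_zero _ (hne i σ)), Multiset.map_nsmul, map_sum_multiset,
      Finset.smul_sum]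
    apply Finset.sum_congr rfl
    intro σ _
    rw [roots_pow, Multiset.map_nsmul]
    rcases Nat.eq_zero_or_pos (m i) with h0 | h0
    · rw [h0, zero_smul, zero_smul]
    · rw [roots_part (hA i) hv hQ hpe hτ σ (fun k hk => hno i h0 σ k hk)]
  rw [hpe]
  exact main

end family

end MotSystem

end Pool.Agent.W528.Ord
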