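import Pool.Agent.W528.Ord.MotDefs
import Pool.Agent.W528.Ord.Main3

/-! Propagation of an excess of the Newton polygon along Frobenius orbits, general weight. -/

set_option autoImplicit false
set_option linter.all false

namespace Pool.Agent.W528.Ord

open NumberField IsDedekindDomain Polynomial Filter Topology
open Pool.Agent.W401.Cheb

section lists

theorem sum_map_sub (w : ℕ) (l : List ℕ) (h : ∀ a ∈ l, a ≤ w) :
    (l.map fun a => w - a).sum + l.sum = w * l.length := by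
  induction l with
  | nil => simp
  | cons a l ih =>
    have h1 := ih (fun b hb => h b (List.mem_cons_of_mem _ hb))
    have h2 := h a List.mem_cons_self
    rw [List.map_cons, List.sum_cons, List.sum_cons, List.length_cons, mul_add, mul_one]
    omega

theorem dual_sum (w n k : ℕ) (l : List ℕ) (hl : l.length = n) (h : ∀ a ∈ l, a ≤ w) (hk : k ≤ n) :
    ((((l.map fun a => w - a).reverse).take k).sum) + l.sum = w * k + (l.take (n - k)).sum := by
  have h1 : ((l.map fun a => w - a).reverse).take k = ((l.drop (n - k)).map fun a => w - a).reverse := by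
    rw [List.take_reverse, List.map_drop, List.length_map, hl]
  rw [h1, List.sum_reverse]
  have h2 := sum_map_sub w (l.drop (n - k)) (fun a ha => h a (List.mem_of_mem_drop ha))
  have h3 : l.sum = (l.take (n - k)).sum + (l.drop (n - k)).sum := by
    rw [← List.sum_append, List.take_append_drop]
  rw [List.length_drop, hl, show n - (n - k) = k by omega] at h2
  rw [h3, ← h2]
  omega

end lists

namespace MotSystem

open MultSystem (mv IsDeg1 IsOver mv_mul mv_one mv_inj mv_fix_open norm_mem frob_pow_dvd)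

variable {K : Type} [Field K] [NumberField K] {ℓ : ℕ} [Fact ℓ.Prime]

theorem smul_cof (A : MotSystem K ℓ) (γ : GK K) (v : HeightOneSpectrum (𝓞 K)) (k : ℕ)
    (σ : A.E →+* AlgebraicClosure K) : γ • A.cof v k σ = A.cof v k (mv γ σ) := by
  apply RingOfIntegers.ext
  rfl

section fixed

variable {A : MotSystem K ℓ} {χ : GK K →* (PadicAlgCl ℓ)ˣ} {S : Finset ℕ} (hA : A.IsMotive χ S)
  {v : HeightOneSpectrum (𝓞 K)} (hv : IsDeg1 S v)
  {Q : Ideal (𝓞 (AlgebraicClosure K))} (hQ : IsOver Q v)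

include hA in
theorem hp_conj (σ : A.E →+* AlgebraicClosure K) (k : ℕ) (hk : k ≤ A.n) :
    A.hp (σ.comp (A.conj : A.E →+* A.E)) k + A.hp σ A.n = A.w * k + A.hp σ (A.n - k) := by
  obtain ⟨h1, h2, h3, h4, h5⟩ := hA.isHodge σ
  have := dual_sum A.w A.n k (A.h σ) h1 h3 hk
  unfold hp
  rw [h4, List.take_of_length_le (le_of_eq h1)]
  exact this

include hA in
theorem hp_inv (γ : GK K) (σ : A.E →+* AlgebraicClosure K) (k : ℕ) :
    A.hp (mv γ σ) k = A.hp σ k := by
  obtain ⟨h1, h2, h3, h4, h5⟩ := hA.isHodge σ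
  unfold hp
  rw [h5]

include hA hv in
theorem dual_E (k : ℕ) (hk : k ≤ A.n) :
    RingOfIntegers.mapRingHom (A.conj : A.E →+* A.E) ((A.P v).coeff (A.n - k)) * (A.P v).coeff 0 =
      (Ideal.absNorm v.asIdeal : 𝓞 A.E) ^ (A.w * k) * (A.P v).coeff k := by
  obtain ⟨hm, hn⟩ := hA.isMonic v hv
  obtain ⟨τ⟩ : Nonempty (A.E →+* ℂ) := inferInstance
  apply RingOfIntegers.ext
  apply τ.injective
  have h := dual_coeff ((A.P v).map (τ.comp (algebraMap (𝓞 A.E) A.E))) A.n k hk (hm.map _)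
    (by rw [hm.natDegree_map, hn]) ((Ideal.absNorm v.asIdeal : ℝ) ^ A.w) (hA.isWeil v hv τ)
  rw [coeff_map, coeff_map, coeff_map] at h
  have h2 := hA.isConj τ (((A.P v).coeff (A.n - k) : 𝓞 A.E) : A.E)
  have e1 : ((RingOfIntegers.mapRingHom (A.conj : A.E →+* A.E) ((A.P v).coeff (A.n - k)) *
      (A.P v).coeff 0 : 𝓞 A.E) : A.E) = A.conj (((A.P v).coeff (A.n - k) : 𝓞 A.E) : A.E) *
      (((A.P v).coeff 0 : 𝓞 A.E) : A.E) := map_mul (algebraMap (𝓞 A.E) A.E) _ _
  have e2 : (((Ideal.absNorm v.asIdeal : 𝓞 A.E) ^ (A.w * k) * (A.P v).coeff k : 𝓞 A.E) : A.E) =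
      (Ideal.absNorm v.asIdeal : A.E) ^ (A.w * k) * (((A.P v).coeff k : 𝓞 A.E) : A.E) := by
    have h3 := map_mul (algebraMap (𝓞 A.E) A.E) ((Ideal.absNorm v.asIdeal : 𝓞 A.E) ^ (A.w * k))
      ((A.P v).coeff k)
    rw [map_pow, map_natCast] at h3
    exact h3
  rw [e1, e2, map_mul, map_mul, map_pow, map_natCast, h2]
  rw [pow_mul]
  simpa using h

include hA hv hQ in
/-- the excess propagates along the orbit -/
theorem excess_orb {γ : GK K} (hγ : ∀ x : 𝓞 (AlgebraicClosure K), γ • x - x ^ Ideal.absNorm v.asIdeal ∈ Q)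
    (σ₀ : A.E →+* AlgebraicClosure K) (k : ℕ) (hk : k ≤ A.n)
    (hex : LocDvd Q (Ideal.absNorm v.asIdeal) (A.hp σ₀ k + 1) (A.cof v (A.n - k) σ₀))
    (σ : A.E →+* AlgebraicClosure K) (hσ : σ ∈ A.orb γ σ₀ k) :
    LocDvd Q (Ideal.absNorm v.asIdeal) (A.hp σ k + 1) (A.cof v (A.n - k) σ) := by
  haveI := hQ.1.isPrime
  obtain ⟨j, h | ⟨h2, h⟩⟩ := hσ
  · rw [h, hp_inv hA, ← smul_cof]
    exact frob_pow_dvd hγ hex j
  · rw [h, hp_inv hA, ← smul_cof]
    apply frob_pow_dvd hγ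
    have hd := dual_E hA hv k hk
    have hnk : A.n - k = k := by omega
    have h5 := congrArg (RingOfIntegers.mapRingHom σ₀) hd
    rw [map_mul, map_mul, map_pow, map_natCast] at h5
    have h6 : A.cof v (A.n - k) (σ₀.comp (A.conj : A.E →+* A.E)) * A.cof v 0 σ₀ =
      (Ideal.absNorm v.asIdeal : 𝓞 (AlgebraicClosure K)) ^ (A.w * k) * A.cof v k σ₀ := h5
    have hc := hp_conj hA σ₀ k hk
    rw [hnk] at hc
    have h7 : LocDvd Q (Ideal.absNorm v.asIdeal)
        (A.hp σ₀ A.n + (A.hp (σ₀.comp (A.conj : A.E →+* A.E)) k + 1))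
        (A.cof v 0 σ₀ * A.cof v (A.n - k) (σ₀.comp (A.conj : A.E →+* A.E))) := by
      rw [mul_comm, h6]
      rw [hnk] at hex
      obtain ⟨s, hs, y, hy⟩ := hex
      refine ⟨s, hs, y, ?_⟩
      have e : A.hp σ₀ A.n + (A.hp (σ₀.comp (A.conj : A.E →+* A.E)) k + 1) =
          A.w * k + (A.hp σ₀ k + 1) := by omega
      rw [e, pow_add, mul_assoc, ← hy]
      ring
    exact LocDvd.of_mul hv.1 ((hA.isMazur v hv Q hQ σ₀).2) h7

include hA hv hQ in
/-- an excess at an admissible Frobenius element makes the norm divisible by a large power of `p` -/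
theorem norm_dvd {γ : GK K} (hγ : ∀ x : 𝓞 (AlgebraicClosure K), γ • x - x ^ Ideal.absNorm v.asIdeal ∈ Q)
    (hadm : A.Admissible γ) (σ₀ : A.E →+* AlgebraicClosure K) (k : ℕ) (hk : A.Vertex σ₀ k)
    (hex : LocDvd Q (Ideal.absNorm v.asIdeal) (A.hp σ₀ k + 1) (A.cof v (A.n - k) σ₀)) :
    ∃ M, A.w * k * Module.finrank ℚ A.E ≤ 2 * M ∧
      ((Ideal.absNorm v.asIdeal : ℤ)) ^ M ∣ Algebra.norm ℤ ((A.P v).coeff (A.n - k)) := by
  classical
  haveI := hQ.1.isPrime
  have hp := norm_mem hv.1 hQ.2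
  have hkn : k ≤ A.n := hk.2.1.le
  let m : (A.E →+* AlgebraicClosure K) → ℕ := fun σ =>
    A.hp σ k + (if σ ∈ A.orb γ σ₀ k then 1 else 0)
  have hm : ∀ σ ∈ (Finset.univ : Finset (A.E →+* AlgebraicClosure K)),
      LocDvd Q (Ideal.absNorm v.asIdeal) (m σ) (A.cof v (A.n - k) σ) := by
    intro σ _
    by_cases hσ : σ ∈ A.orb γ σ₀ k
    · have : m σ = A.hp σ k + 1 := by
        change A.hp σ k + (if σ ∈ A.orb γ σ₀ k then 1 else 0) = _
        rw [if_pos hσ]
      rw [this]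
      exact excess_orb hA hv hQ hγ σ₀ k hkn hex σ hσ
    · have : m σ = A.hp σ k := by
        change A.hp σ k + (if σ ∈ A.orb γ σ₀ k then 1 else 0) = _
        rw [if_neg hσ, add_zero]
      rw [this]
      exact (hA.isMazur v hv Q hQ σ).1 _ hkn
  have h2 := LocDvd.prod Finset.univ m (fun σ => A.cof v (A.n - k) σ) hm
  have h3 : ∏ σ : A.E →+* AlgebraicClosure K, A.cof v (A.n - k) σ =
      ((Algebra.norm ℤ ((A.P v).coeff (A.n - k)) : ℤ) : 𝓞 (AlgebraicClosure K)) :=
    (norm_eq_prod_int (AlgebraicClosure K) _).symm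
  rw [h3] at h2
  refine ⟨_, ?_, h2.int hv.1 hp⟩
  have h4 : ∑ σ, m σ = ∑ σ, A.hp σ k + (A.orb γ σ₀ k).ncard := by
    rw [Finset.sum_add_distrib]
    congr 1
    rw [Finset.sum_ite, Finset.sum_const_zero, add_zero, Finset.sum_const, smul_eq_mul, mul_one,
      ← Set.ncard_coe_finset]
    congr 1
    ext σ
    simp
  have h5 := hadm σ₀ k hk
  unfold defect at h5
  rw [Finset.sum_sub_distrib, Finset.sum_const, Finset.card_univ, NumberField.Embeddings.card,
    nsmul_eq_mul, ← Finset.mul_sum] at h5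
  rw [h4]
  zify
  push_cast at h5 ⊢
  linarith

end fixed

end MotSystem

end Pool.Agent.W528.Ord
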