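import Pool.Agent.W528.Ord.AbDefs

/-! Propagation of non-ordinarity along Frobenius orbits. -/

set_option autoImplicit false
set_option linter.all false

namespace Pool.Agent.W528.Ord

open NumberField IsDedekindDomain Polynomial Filter Topology
open Pool.Agent.W401.Cheb

section dual

/-- duality of the coefficients -/
theorem dual_coeff (Q : Polynomial ℂ) (n k : ℕ) (hk : k ≤ n) (hm : Q.Monic) (hn : Q.natDegree = n)
    (q : ℝ) (hroot : ∀ a : ℂ, Q.IsRoot a → ‖a‖ ^ 2 = q) :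
    (starRingEnd ℂ) (Q.coeff (n - k)) * Q.coeff 0 = (q : ℂ) ^ k * Q.coeff k := by
  classical
  obtain ⟨r, hr⟩ := exists_fin Q n hm hn
  have hri : ∀ i, (starRingEnd ℂ) (r i) * r i = (q : ℂ) := by
    intro i
    have h1 : Q.IsRoot (- r i) := by
      rw [hr, IsRoot, eval_prod]
      exact Finset.prod_eq_zero (Finset.mem_univ i) (by simp)
    have h2 := hroot _ h1
    rw [norm_neg] at h2
    rw [mul_comm, Complex.mul_conj, Complex.normSq_eq_norm_sq, h2]
  have hco : ∀ j ≤ n, Q.coeff (n - j) = ∑ t ∈ (Finset.univ : Finset (Fin n)).powersetCard j, ∏ i ∈ t, r i := by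
    intro j hj
    conv_lhs => rw [hr]
    rw [Finset.prod_X_add_C_coeff _ _ (by simp)]
    congr 2
    simp
    omega
  have h0 : Q.coeff 0 = ∏ i, r i := by
    have := hco n le_rfl
    rw [Nat.sub_self] at this
    rw [this, show (Finset.univ : Finset (Fin n)).powersetCard n = {Finset.univ} by
      have h := Finset.powersetCard_self (Finset.univ : Finset (Fin n))
      rwa [Finset.card_univ, Fintype.card_fin] at h, Finset.sum_singleton]
  have hk' : Q.coeff k = ∑ t ∈ (Finset.univ : Finset (Fin n)).powersetCard (n - k), ∏ i ∈ t, r i := by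
    have := hco (n - k) (by omega)
    rwa [show n - (n - k) = k by omega] at this
  rw [hco k hk, h0, hk', map_sum, Finset.sum_mul, Finset.mul_sum]
  refine Finset.sum_nbij' (fun t => tᶜ) (fun t => tᶜ) ?_ ?_ ?_ ?_ ?_
  · intro t ht
    rw [Finset.mem_powersetCard] at ht ⊢
    exact ⟨Finset.subset_univ _, by rw [Finset.card_compl, Fintype.card_fin, ht.2]⟩
  · intro t ht
    rw [Finset.mem_powersetCard] at ht ⊢
    exact ⟨Finset.subset_univ _, by rw [Finset.card_compl, Fintype.card_fin, ht.2]; omega⟩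
  · intro t _
    exact compl_compl t
  · intro t _
    exact compl_compl t
  · intro t ht
    have htc := (Finset.mem_powersetCard.mp ht).2
    rw [← Finset.prod_mul_prod_compl t r, map_prod, ← mul_assoc, ← Finset.prod_mul_distrib,
      Finset.prod_congr rfl (fun i _ => hri i), Finset.prod_const, htc]

end dual

namespace MultSystem

variable {K : Type} [Field K] [NumberField K] {ℓ : ℕ} [Fact ℓ.Prime]

theorem mv_mul {E : Type} [Field E] (γ γ' : GK K) (σ : E →+* AlgebraicClosure K) :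
    mv (γ * γ') σ = mv γ (mv γ' σ) := by
  apply RingHom.ext
  intro x
  rfl

theorem mv_one {E : Type} [Field E] (σ : E →+* AlgebraicClosure K) :
    mv (1 : GK K) σ = σ := by
  apply RingHom.ext
  intro x
  rfl

theorem smul_cof (A : MultSystem K ℓ) (γ : GK K) (v : HeightOneSpectrum (𝓞 K)) (k : ℕ)
    (σ : A.E →+* AlgebraicClosure K) : γ • A.cof v k σ = A.cof v k (mv γ σ) := by
  apply RingOfIntegers.ext
  rfl

theorem frob_dvd {Q : Ideal (𝓞 (AlgebraicClosure K))} [hQp : Q.IsPrime] {γ : GK K} {q : ℕ}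
    (hQ : ∀ x : 𝓞 (AlgebraicClosure K), γ • x - x ^ q ∈ Q) {p m : ℕ} {x : 𝓞 (AlgebraicClosure K)}
    (h : LocDvd Q p m x) : LocDvd Q p m (γ • x) := by
  obtain ⟨s, hs, y, hy⟩ := h
  refine ⟨γ • s, ?_, γ • y, ?_⟩
  · intro h1
    apply hs
    have h2 : s ^ q ∈ Q := by
      have := Q.sub_mem h1 (hQ s)
      rwa [sub_sub_cancel] at this
    exact hQp.mem_of_pow_mem q h2
  · rw [← smul_mul', hy, smul_mul', smul_pow']
    congr 2
    apply RingOfIntegers.ext
    change γ ((p : 𝓞 (AlgebraicClosure K)) : AlgebraicClosure K) = _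
    have : ((p : 𝓞 (AlgebraicClosure K)) : AlgebraicClosure K) = (p : AlgebraicClosure K) :=
      map_natCast (algebraMap (𝓞 (AlgebraicClosure K)) (AlgebraicClosure K)) p
    rw [this, map_natCast]

theorem frob_pow_dvd {Q : Ideal (𝓞 (AlgebraicClosure K))} [hQp : Q.IsPrime] {γ : GK K} {q : ℕ}
    (hQ : ∀ x : 𝓞 (AlgebraicClosure K), γ • x - x ^ q ∈ Q) {p m : ℕ} {x : 𝓞 (AlgebraicClosure K)}
    (h : LocDvd Q p m x) (j : ℕ) : LocDvd Q p m (γ ^ j • x) := by
  induction j with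
  | zero => rwa [pow_zero, one_smul]
  | succ j ih =>
    rw [pow_succ', mul_smul]
    exact frob_dvd hQ ih

section fixed

variable {A : MultSystem K ℓ} {χ : GK K →* (PadicAlgCl ℓ)ˣ} {S : Finset ℕ} (hA : A.IsAbelian χ S)
  {v : HeightOneSpectrum (𝓞 K)} (hv : (Ideal.absNorm v.asIdeal).Prime) (hvS : Ideal.absNorm v.asIdeal ∉ S)
  {Q : Ideal (𝓞 (AlgebraicClosure K))} (hQ : Q.IsMaximal)
  (hQv : Q.comap (algebraMap (𝓞 K) (𝓞 (AlgebraicClosure K))) = v.asIdeal)

include hv hQv in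
theorem norm_mem : ((Ideal.absNorm v.asIdeal : ℕ) : 𝓞 (AlgebraicClosure K)) ∈ Q := by
  have h1 : ((Ideal.absNorm v.asIdeal : ℕ) : 𝓞 K) ∈ v.asIdeal := Ideal.absNorm_mem _
  have h2 : ((Ideal.absNorm v.asIdeal : ℕ) : 𝓞 K) ∈
      Q.comap (algebraMap (𝓞 K) (𝓞 (AlgebraicClosure K))) := by rw [hQv]; exact h1
  rw [Ideal.mem_comap, map_natCast] at h2
  exact h2

include hA hv hvS in
theorem dual_E (k : ℕ) (hk : k ≤ A.n) :
    RingOfIntegers.mapRingHom (A.conj : A.E →+* A.E) ((A.P v).coeff (A.n - k)) * (A.P v).coeff 0 =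
      (Ideal.absNorm v.asIdeal : 𝓞 A.E) ^ k * (A.P v).coeff k := by
  obtain ⟨hm, hn⟩ := hA.monic v hv hvS
  obtain ⟨τ⟩ : Nonempty (A.E →+* ℂ) := inferInstance
  apply RingOfIntegers.ext
  apply τ.injective
  have h := dual_coeff ((A.P v).map (τ.comp (algebraMap (𝓞 A.E) A.E))) A.n k hk (hm.map _)
    (by rw [hm.natDegree_map, hn]) (Ideal.absNorm v.asIdeal : ℝ) (hA.weil v hv hvS τ)
  rw [coeff_map, coeff_map, coeff_map] at h
  have h2 := hA.conj_eq τ (((A.P v).coeff (A.n - k) : 𝓞 A.E) : A.E)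
  have e1 : ((RingOfIntegers.mapRingHom (A.conj : A.E →+* A.E) ((A.P v).coeff (A.n - k)) *
      (A.P v).coeff 0 : 𝓞 A.E) : A.E) = A.conj (((A.P v).coeff (A.n - k) : 𝓞 A.E) : A.E) *
      (((A.P v).coeff 0 : 𝓞 A.E) : A.E) := map_mul (algebraMap (𝓞 A.E) A.E) _ _
  have e2 : (((Ideal.absNorm v.asIdeal : 𝓞 A.E) ^ k * (A.P v).coeff k : 𝓞 A.E) : A.E) =
      (Ideal.absNorm v.asIdeal : A.E) ^ k * (((A.P v).coeff k : 𝓞 A.E) : A.E) := by
    have h3 := map_mul (algebraMap (𝓞 A.E) A.E) ((Ideal.absNorm v.asIdeal : 𝓞 A.E) ^ k) ((A.P v).coeff k)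
    rw [map_pow, map_natCast] at h3
    exact h3
  rw [e1, e2, map_mul, map_mul, map_pow, map_natCast, h2]
  simpa using h

include hA hv hvS hQ hQv in
theorem r_conj (σ : A.E →+* AlgebraicClosure K) :
    A.r σ + A.r (σ.comp (A.conj : A.E →+* A.E)) = A.n := by
  haveI := hQ.isPrime
  have hp := norm_mem hv hQv
  have h1 := (hA.mazur v hv hvS Q hQ hQv σ).2
  have h2 := (hA.mazur v hv hvS Q hQ hQv (σ.comp (A.conj : A.E →+* A.E))).2
  have h3 := h2.mul h1
  have h4 := dual_E hA hv hvS A.n le_rfl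
  rw [Nat.sub_self] at h4
  have hco : (A.P v).coeff A.n = 1 := by
    obtain ⟨hm, hn⟩ := hA.monic v hv hvS
    rw [← hn]
    exact hm.coeff_natDegree
  rw [hco, mul_one] at h4
  have h5 := congrArg (RingOfIntegers.mapRingHom σ) h4
  rw [map_mul, map_pow, map_natCast] at h5
  have h6 : A.cof v 0 (σ.comp (A.conj : A.E →+* A.E)) * A.cof v 0 σ =
      (Ideal.absNorm v.asIdeal : 𝓞 (AlgebraicClosure K)) ^ A.n := h5
  rw [h6] at h3
  have h7 : LocEq Q (Ideal.absNorm v.asIdeal) A.n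
      ((Ideal.absNorm v.asIdeal : 𝓞 (AlgebraicClosure K)) ^ A.n) := by
    have h1 : (1 : 𝓞 (AlgebraicClosure K)) ∉ Q := fun h =>
      hQ.ne_top ((Ideal.eq_top_iff_one _).mpr h)
    exact ⟨1, 1, h1, h1, rfl⟩
  have h8 := h3.unique hv hp h7
  have h9 := hA.r_le σ
  have h10 := hA.r_le (σ.comp (A.conj : A.E →+* A.E))
  omega

include hA hv hvS hQ hQv in
/-- the excess propagates along the orbit -/
theorem excess_orb {γ : GK K} (hγ : ∀ x : 𝓞 (AlgebraicClosure K), γ • x - x ^ Ideal.absNorm v.asIdeal ∈ Q)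
    (σ₀ : A.E →+* AlgebraicClosure K)
    (hex : LocDvd Q (Ideal.absNorm v.asIdeal) 1 (A.cof v (A.n - A.r σ₀) σ₀))
    (σ : A.E →+* AlgebraicClosure K) (hσ : σ ∈ A.orb γ σ₀) :
    A.r σ = A.r σ₀ ∧ LocDvd Q (Ideal.absNorm v.asIdeal) 1 (A.cof v (A.n - A.r σ₀) σ) := by
  haveI := hQ.isPrime
  obtain ⟨j, h | ⟨h2, h⟩⟩ := hσ
  · rw [h]
    refine ⟨hA.r_inv _ _, ?_⟩
    rw [← smul_cof]
    exact frob_pow_dvd hγ hex j
  · rw [h]
    have hr := r_conj hA hv hvS hQ hQv σ₀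
    have hd := dual_E hA hv hvS (A.r σ₀) (hA.r_le σ₀)
    refine ⟨by rw [hA.r_inv]; omega, ?_⟩
    rw [← smul_cof]
    apply frob_pow_dvd hγ
    have h5 := congrArg (RingOfIntegers.mapRingHom σ₀) hd
    rw [map_mul, map_mul, map_pow, map_natCast] at h5
    have h6 : A.cof v (A.n - A.r σ₀) (σ₀.comp (A.conj : A.E →+* A.E)) * A.cof v 0 σ₀ =
      (Ideal.absNorm v.asIdeal : 𝓞 (AlgebraicClosure K)) ^ (A.r σ₀) * A.cof v (A.r σ₀) σ₀ := h5
    have h7 : LocDvd Q (Ideal.absNorm v.asIdeal) (A.n - A.r σ₀ + 1)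
        (A.cof v 0 σ₀ * A.cof v (A.n - A.r σ₀) (σ₀.comp (A.conj : A.E →+* A.E))) := by
      rw [mul_comm, h6, show A.n - A.r σ₀ = A.r σ₀ by omega]
      have e : A.n - A.r σ₀ = A.r σ₀ := by omega
      rw [e] at hex
      obtain ⟨s, hs, y, hy⟩ := hex
      refine ⟨s, hs, y, ?_⟩
      rw [pow_one] at hy
      rw [pow_succ, mul_assoc, ← hy]
      ring
    exact LocDvd.of_mul hv ((hA.mazur v hv hvS Q hQ hQv σ₀).2) h7

include hA hv hvS hQ hQv in
/-- an excess at an admissible Frobenius element makes the norm divisible by a large power of `p` -/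
theorem norm_dvd {γ : GK K} (hγ : ∀ x : 𝓞 (AlgebraicClosure K), γ • x - x ^ Ideal.absNorm v.asIdeal ∈ Q)
    (hadm : A.Admissible γ) (σ₀ : A.E →+* AlgebraicClosure K) (h0 : 0 < A.r σ₀) (h1 : A.r σ₀ < A.n)
    (hex : LocDvd Q (Ideal.absNorm v.asIdeal) 1 (A.cof v (A.n - A.r σ₀) σ₀)) :
    ∃ M, 1 * A.r σ₀ * Module.finrank ℚ A.E ≤ 2 * M ∧
      ((Ideal.absNorm v.asIdeal : ℤ)) ^ M ∣ Algebra.norm ℤ ((A.P v).coeff (A.n - A.r σ₀)) := by
  classical
  haveI := hQ.isPrime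
  have hp := norm_mem hv hQv
  let m : (A.E →+* AlgebraicClosure K) → ℕ := fun σ =>
    (A.r σ₀ - A.r σ) + (if σ ∈ A.orb γ σ₀ then 1 else 0)
  have hm : ∀ σ ∈ (Finset.univ : Finset (A.E →+* AlgebraicClosure K)),
      LocDvd Q (Ideal.absNorm v.asIdeal) (m σ) (A.cof v (A.n - A.r σ₀) σ) := by
    intro σ _
    by_cases hσ : σ ∈ A.orb γ σ₀
    · obtain ⟨hr, hd⟩ := excess_orb hA hv hvS hQ hQv hγ σ₀ hex σ hσ
      have : m σ = 1 := by
        change (A.r σ₀ - A.r σ) + (if σ ∈ A.orb γ σ₀ then 1 else 0) = 1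
        rw [if_pos hσ, hr, Nat.sub_self]
      rw [this]
      exact hd
    · have : m σ = A.r σ₀ - A.r σ := by
        change (A.r σ₀ - A.r σ) + (if σ ∈ A.orb γ σ₀ then 1 else 0) = _
        rw [if_neg hσ, add_zero]
      rw [this]
      exact (hA.mazur v hv hvS Q hQ hQv σ).1 _ (hA.r_le σ₀)
  have h2 := LocDvd.prod Finset.univ m (fun σ => A.cof v (A.n - A.r σ₀) σ) hm
  have h3 : ∏ σ : A.E →+* AlgebraicClosure K, A.cof v (A.n - A.r σ₀) σ =
      ((Algebra.norm ℤ ((A.P v).coeff (A.n - A.r σ₀)) : ℤ) : 𝓞 (AlgebraicClosure K)) :=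
    (norm_eq_prod_int (AlgebraicClosure K) _).symm
  rw [h3] at h2
  refine ⟨_, ?_, h2.int hv hp⟩
  have h4 : ∑ σ, m σ = ∑ σ, (A.r σ₀ - A.r σ) + (A.orb γ σ₀).ncard := by
    rw [Finset.sum_add_distrib]
    congr 1
    rw [Finset.sum_ite, Finset.sum_const_zero, add_zero, Finset.sum_const, smul_eq_mul, mul_one,
      ← Set.ncard_coe_finset]
    congr 1
    ext σ
    simp
  have h5 := hadm σ₀ h0 h1
  unfold defect at h5
  rw [Finset.sum_sub_distrib, Finset.sum_const, Finset.card_univ, NumberField.Embeddings.card,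
    nsmul_eq_mul, ← Finset.mul_sum] at h5
  rw [h4]
  zify
  rw [one_mul, mul_comm]
  push_cast at h5 ⊢
  linarith

end fixed

end MultSystem

end Pool.Agent.W528.Ord
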